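import Mathlib

set_option autoImplicit false

/-!
Definitions used in the statement for `MP_417103_nt`.
-/

namespace Pool.Agent.MP_417103_nt

/-- The Mahler measure of an integer polynomial in `n` variables: the exponential of the integral
of `log |P(e^{2πiθ_1}, …, e^{2πiθ_n})|` over the unit cube. -/
noncomputable def mahlerM {n : ℕ} (P : MvPolynomial (Fin n) ℤ) : ℝ :=
  Real.exp (∫ θ in Set.Icc (0 : Fin n → ℝ) 1,
    Real.log ‖MvPolynomial.eval₂ (Int.castRingHom ℂ)
      (fun i : Fin n => Complex.exp (2 * (Real.pi : ℂ) * Complex.I * ((θ i : ℝ) : ℂ))) P‖)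

/-- The dimension of the Newton polytope: the dimension of the affine hull of the exponents. -/
noncomputable def newtonDim {n : ℕ} (P : MvPolynomial (Fin n) ℤ) : ℕ :=
  Module.finrank ℝ
    (vectorSpan ℝ ((fun e : Fin n →₀ ℕ => fun i : Fin n => (e i : ℝ)) ''
      (P.support : Set (Fin n →₀ ℕ))))

/-- `P` is reciprocal: `x^v P(1/x) = ± P(x)` for some exponent `v`. -/
def IsReciprocal {n : ℕ} (P : MvPolynomial (Fin n) ℤ) : Prop :=
  ∃ (v : Fin n →₀ ℕ) (ε : ℤ), (ε = 1 ∨ ε = -1) ∧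
    ∀ a ∈ P.support, a ≤ v ∧ P.coeff (v - a) = ε * P.coeff a

/-- The value of an integer linear form at an exponent. -/
def linForm {n : ℕ} (μ : Fin n → ℤ) (a : Fin n →₀ ℕ) : ℤ := ∑ i, μ i * (a i : ℤ)

/-- `P` has width at most `w` in the direction `μ`, and `μ` is not constant on the exponents
of `P`. -/
def WidthLE {n : ℕ} (P : MvPolynomial (Fin n) ℤ) (μ : Fin n → ℤ) (w : ℕ) : Prop :=
  (∃ a ∈ P.support, ∃ b ∈ P.support, linForm μ a ≠ linForm μ b) ∧
  (∀ a ∈ P.support, ∀ b ∈ P.support, linForm μ a - linForm μ b ≤ (w : ℤ))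

end Pool.Agent.MP_417103_nt
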