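import Mathlib

set_option autoImplicit false

namespace Pool.Agent.Work.MP_417103_nt

open MeasureTheory Polynomial Real

instance prob_circle : IsProbabilityMeasure (volume : Measure UnitAddCircle) :=
  ⟨UnitAddCircle.measure_univ⟩

/-- The standard character `t ↦ exp (2 π i t)` of the circle group `ℝ/ℤ`. -/
noncomputable def ee (t : UnitAddCircle) : ℂ := (AddCircle.toCircle t : ℂ)

@[simp] lemma ee_norm (t : UnitAddCircle) : ‖ee t‖ = 1 := by simp [ee]

lemma ee_ne_zero (t : UnitAddCircle) : ee t ≠ 0 := by
  intro h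
  have := ee_norm t
  rw [h, norm_zero] at this
  exact zero_ne_one this

lemma ee_add (s t : UnitAddCircle) : ee (s + t) = ee s * ee t := by
  simp [ee, AddCircle.toCircle_add]

lemma ee_neg (s : UnitAddCircle) : ee (-s) = (ee s)⁻¹ := by
  simp [ee, AddCircle.toCircle_neg]

lemma ee_zsmul (k : ℤ) (t : UnitAddCircle) : ee (k • t) = ee t ^ k := by
  simp [ee, AddCircle.toCircle_zsmul]

lemma ee_continuous : Continuous ee :=
  continuous_subtype_val.comp AddCircle.continuous_toCircle

lemma ee_coe (x : ℝ) : ee (x : UnitAddCircle) = Complex.exp (2 * (π : ℂ) * Complex.I * (x : ℂ)) := by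
  unfold ee
  rw [AddCircle.toCircle_apply_mk, Circle.coe_exp]
  congr 1
  push_cast
  ring

lemma ee_coe_circleMap (x : ℝ) : ee (x : UnitAddCircle) = circleMap 0 1 (2 * π * x) := by
  rw [ee_coe, circleMap]
  simp only [zero_add, Complex.ofReal_one, one_mul]
  congr 1
  push_cast
  ring

lemma integral_ee (F : ℂ → ℝ) : ∫ t : UnitAddCircle, F (ee t) = circleAverage F 0 1 := by
  rw [← UnitAddCircle.intervalIntegral_preimage 0, circleAverage_def]
  have h : (fun a : ℝ => F (ee (a : UnitAddCircle))) = fun a : ℝ => F (circleMap 0 1 (2 * π * a)) := by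
    funext a; rw [ee_coe_circleMap]
  rw [h, intervalIntegral.integral_comp_mul_left (fun θ => F (circleMap 0 1 θ)) (by positivity)]
  simp

lemma integrable_ee {F : ℂ → ℝ} (hF : Measurable F) (h : CircleIntegrable F 0 1) :
    Integrable (fun t : UnitAddCircle => F (ee t)) := by
  have hmp := UnitAddCircle.measurePreserving_mk 0
  have hm : Measurable (fun t : UnitAddCircle => F (ee t)) := hF.comp ee_continuous.measurable
  rw [← hmp.integrable_comp hm.aestronglyMeasurable]
  have h1 : IntervalIntegrable (fun θ => F (circleMap 0 1 θ)) volume 0 (2 * π) := h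
  have h2 := h1.comp_mul_left (c := 2 * π)
  have h3 : IntervalIntegrable (fun a : ℝ => F (circleMap 0 1 (2 * π * a))) volume 0 1 := by
    have e1 : (0 : ℝ) / (2 * π) = 0 := by simp
    have e2 : (2 * π) / (2 * π) = 1 := by
      apply div_self; positivity
    rw [e1, e2] at h2
    exact h2
  rw [intervalIntegrable_iff_integrableOn_Ioc_of_le zero_le_one] at h3
  have h4 : ((fun t : UnitAddCircle => F (ee t)) ∘ ((↑) : ℝ → UnitAddCircle)) =
      fun a : ℝ => F (circleMap 0 1 (2 * π * a)) := by
    funext a; simp only [Function.comp]; rw [ee_coe_circleMap]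
  rw [h4]
  simpa [IntegrableOn] using h3

/-- integrability of `log ‖f‖` on the circle -/
lemma integrable_log_poly (f : ℂ[X]) : Integrable (fun t : UnitAddCircle => log ‖f.eval (ee t)‖) := by
  apply integrable_ee (F := fun z => log ‖f.eval z‖)
  · exact (f.continuous.norm.measurable).log
  · exact (analyticOnNhd_id.aeval_polynomial f).meromorphicOn.circleIntegrable_log_norm

lemma integral_log_poly (f : ℂ[X]) :
    ∫ t : UnitAddCircle, log ‖f.eval (ee t)‖ = f.logMahlerMeasure := by
  rw [integral_ee (fun z => log ‖f.eval z‖), logMahlerMeasure_def]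

/-- Jensen: the constant coefficient is a lower bound. -/
lemma log_coeff_zero_le (f : ℂ[X]) (hf : f.coeff 0 ≠ 0) :
    log ‖f.coeff 0‖ ≤ ∫ t : UnitAddCircle, log ‖f.eval (ee t)‖ := by
  rw [integral_log_poly, logMahlerMeasure_eq_log_MahlerMeasure]
  apply log_le_log (norm_pos_iff.mpr hf)
  have := norm_coeff_le_choose_mul_mahlerMeasure 0 f
  simpa using this

instance nullSingleton_circle : NullSingletonClass (volume : Measure UnitAddCircle) := by
  refine ⟨fun t => ?_⟩
  have hmp := UnitAddCircle.measurePreserving_mk 0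
  rw [← hmp.measure_preimage (measurableSet_singleton t).nullMeasurableSet]
  apply Set.Countable.measure_zero
  obtain ⟨x0, rfl⟩ := QuotientAddGroup.mk_surjective t
  have : ((↑) : ℝ → UnitAddCircle) ⁻¹' {((x0 : ℝ) : UnitAddCircle)} ⊆
      Set.range (fun n : ℤ => x0 + n) := by
    intro x hx
    have hx' : (x : UnitAddCircle) = (x0 : UnitAddCircle) := hx
    have h2 : ((x - x0 : ℝ) : UnitAddCircle) = 0 := by
      rw [AddCircle.coe_sub, hx', sub_self]
    obtain ⟨n, hn⟩ := (AddCircle.coe_eq_zero_iff (1 : ℝ)).mp h2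
    refine ⟨n, ?_⟩
    simp only [zsmul_eq_mul, mul_one] at hn
    simp only
    rw [hn]; ring
  exact (Set.countable_range _).mono this

/-- a nonzero polynomial has only finitely many zeros on the circle -/
lemma ae_eval_ne_zero (f : ℂ[X]) (hf : f ≠ 0) :
    ∀ᵐ t : UnitAddCircle, f.eval (ee t) ≠ 0 := by
  have hinj : Function.Injective ee := by
    intro s t hst
    exact AddCircle.injective_toCircle one_ne_zero (Subtype.ext hst)
  have hfin : {t : UnitAddCircle | f.eval (ee t) = 0}.Finite := by
    have h1 : {z : ℂ | f.eval z = 0}.Finite := by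
      have := f.roots.toFinset.finite_toSet
      refine this.subset fun z hz => ?_
      simp only [Multiset.mem_toFinset, Finset.mem_coe]
      exact (mem_roots hf).mpr hz
    exact h1.preimage (hinj.injOn)
  have h0 : volume {t : UnitAddCircle | f.eval (ee t) = 0} = 0 := hfin.measure_zero _
  rw [ae_iff]
  simpa using h0

end Pool.Agent.Work.MP_417103_nt
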