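import Mathlib
import Pool.Agent.Work.MP_417103_nt.OneVar

set_option autoImplicit false

namespace Pool.Agent.Work.MP_417103_nt

open MeasureTheory Polynomial Real

lemma integrable_of_between {α : Type*} [MeasurableSpace α] {μ : Measure α} [IsFiniteMeasure μ]
    {F L : α → ℝ} {C : ℝ} (hF : AEStronglyMeasurable F μ) (hL : Integrable L μ)
    (h1 : ∀ᵐ a ∂μ, L a ≤ F a) (h2 : ∀ᵐ a ∂μ, F a ≤ C) : Integrable F μ := by
  refine Integrable.mono' (g := fun a => |L a| + |C|) (hL.abs.add (integrable_const _)) hF ?_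
  filter_upwards [h1, h2] with a ha1 ha2
  rw [Real.norm_eq_abs, abs_le]
  constructor
  · have := neg_abs_le (L a)
    have := abs_nonneg C
    linarith
  · have := le_abs_self C
    have := abs_nonneg (L a)
    linarith

lemma cs_two (a b u v : ℂ) : ‖a * u + b * v‖ ^ 2 ≤ (‖a‖ ^ 2 + ‖b‖ ^ 2) * (‖u‖ ^ 2 + ‖v‖ ^ 2) := by
  have h1 : ‖a * u + b * v‖ ≤ ‖a‖ * ‖u‖ + ‖b‖ * ‖v‖ := by
    refine (norm_add_le _ _).trans ?_
    rw [norm_mul, norm_mul]
  have h2 : ‖a * u + b * v‖ ^ 2 ≤ (‖a‖ * ‖u‖ + ‖b‖ * ‖v‖) ^ 2 := by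
    gcongr
  refine h2.trans ?_
  nlinarith [sq_nonneg (‖a‖ * ‖v‖ - ‖b‖ * ‖u‖)]

lemma lagrange_two (a b u v : ℂ) :
    ‖(starRingEnd ℂ) a * u + (starRingEnd ℂ) b * v‖ ^ 2 + ‖a * v - b * u‖ ^ 2 =
      (‖a‖ ^ 2 + ‖b‖ ^ 2) * (‖u‖ ^ 2 + ‖v‖ ^ 2) := by
  simp only [Complex.sq_norm, Complex.normSq_apply, Complex.add_re, Complex.add_im, Complex.mul_re,
    Complex.mul_im, Complex.sub_re, Complex.sub_im, Complex.conj_re, Complex.conj_im]
  ring

/-- upper bound of a polynomial on the circle -/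
lemma eval_circle_le (f : ℂ[X]) : ∃ C : ℝ, 0 < C ∧ ∀ t : UnitAddCircle, ‖f.eval (ee t)‖ ≤ C := by
  have hc : Continuous fun t : UnitAddCircle => ‖f.eval (ee t)‖ :=
    (f.continuous.comp ee_continuous).norm
  obtain ⟨C, hC⟩ := (isCompact_univ (X := UnitAddCircle)).exists_bound_of_continuousOn
    (f := fun t : UnitAddCircle => ‖f.eval (ee t)‖) hc.continuousOn
  refine ⟨max C 1, lt_max_of_lt_right one_pos, fun t => ?_⟩
  have := hC t (Set.mem_univ t)
  rw [norm_norm] at this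
  exact this.trans (le_max_left _ _)

lemma integrable_log_sq (f g : ℂ[X]) (hfg : f ≠ 0) :
    Integrable (fun t : UnitAddCircle => log (‖f.eval (ee t)‖ ^ 2 + ‖g.eval (ee t)‖ ^ 2)) := by
  obtain ⟨C1, hC1, h1⟩ := eval_circle_le f
  obtain ⟨C2, hC2, h2⟩ := eval_circle_le g
  refine integrable_of_between (L := fun t => 2 * log ‖f.eval (ee t)‖)
    (C := log (C1 ^ 2 + C2 ^ 2)) ?_ ((integrable_log_poly f).const_mul 2) ?_ ?_
  · refine Measurable.aestronglyMeasurable ?_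
    refine Measurable.log ?_
    exact (((f.continuous.comp ee_continuous).norm.pow 2).add
      ((g.continuous.comp ee_continuous).norm.pow 2)).measurable
  · filter_upwards [ae_eval_ne_zero f hfg] with t ht
    have hp : 0 < ‖f.eval (ee t)‖ := norm_pos_iff.mpr ht
    have : 2 * log ‖f.eval (ee t)‖ = log (‖f.eval (ee t)‖ ^ 2) := by
      rw [log_pow]; norm_num
    rw [this]
    apply log_le_log (by positivity)
    have := sq_nonneg ‖g.eval (ee t)‖
    linarith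
  · filter_upwards [ae_eval_ne_zero f hfg] with t ht
    have hp : 0 < ‖f.eval (ee t)‖ := norm_pos_iff.mpr ht
    apply log_le_log (by positivity)
    have e1 := h1 t
    have e2 := h2 t
    gcongr

/-- The one variable gain at a jump. -/
lemma wedge_gain (f g : ℂ[X]) (k : ℕ)
    (hlow : ∀ i, i < k → f.coeff 0 * g.coeff i = f.coeff i * g.coeff 0)
    (hf0 : f.coeff 0 ≠ 0 ) :
    log ((‖f.coeff 0‖ ^ 2 + ‖g.coeff 0‖ ^ 2) +
        ‖f.coeff 0 * g.coeff k - f.coeff k * g.coeff 0‖ ^ 2 / (‖f.coeff 0‖ ^ 2 + ‖g.coeff 0‖ ^ 2)) ≤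
      ∫ t : UnitAddCircle, log (‖f.eval (ee t)‖ ^ 2 + ‖g.eval (ee t)‖ ^ 2) := by
  set a := f.coeff 0 with ha
  set b := g.coeff 0 with hb
  set D := a * g.coeff k - f.coeff k * b with hD
  set N2 : ℝ := ‖a‖ ^ 2 + ‖b‖ ^ 2 with hN2
  have ha0 : 0 < ‖a‖ := norm_pos_iff.mpr hf0
  have hN2pos : 0 < N2 := by positivity
  set N : ℝ := Real.sqrt N2 with hN
  have hNpos : 0 < N := Real.sqrt_pos.mpr hN2pos
  have hNsq : N ^ 2 = N2 := Real.sq_sqrt hN2pos.le
  set K2 : ℝ := N2 + ‖D‖ ^ 2 / N2 with hK2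
  have hK2pos : 0 < K2 := by positivity
  set K : ℝ := Real.sqrt K2 with hK
  have hKpos : 0 < K := Real.sqrt_pos.mpr hK2pos
  have hKsq : K ^ 2 = K2 := Real.sq_sqrt hK2pos.le
  have hNc : (N : ℂ) ≠ 0 := by exact_mod_cast hNpos.ne'
  have hKc : (K : ℂ) ≠ 0 := by exact_mod_cast hKpos.ne'
  set F : ℂ[X] := C ((starRingEnd ℂ) a) * f + C ((starRingEnd ℂ) b) * g with hF
  set G : ℂ[X] := C a * g - C b * f with hG
  have hGdvd : X ^ k ∣ G := by
    rw [X_pow_dvd_iff]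
    intro i hi
    rw [hG, coeff_sub, coeff_C_mul, coeff_C_mul, hlow i hi]
    ring
  obtain ⟨Gt, hGt⟩ := hGdvd
  have hGt0 : Gt.coeff 0 = D := by
    have : G.coeff k = Gt.coeff 0 := by
      rw [hGt]
      have := coeff_X_pow_mul Gt k 0
      rw [zero_add] at this
      exact this
    rw [← this, hG, coeff_sub, coeff_C_mul, coeff_C_mul, hD]
    ring
  -- the combination
  set h : ℂ[X] := C ((1 : ℂ) / K) * F + C ((starRingEnd ℂ) D / (N2 * K : ℝ)) * Gt with hh
  have hF0 : F.coeff 0 = (N2 : ℂ) := by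
    rw [hF, coeff_add, coeff_C_mul, coeff_C_mul, ← ha, ← hb, mul_comm, Complex.mul_conj,
      mul_comm, Complex.mul_conj, Complex.normSq_eq_norm_sq, Complex.normSq_eq_norm_sq, hN2]
    push_cast
    ring
  have hh0 : h.coeff 0 = (K : ℂ) := by
    rw [hh, coeff_add, coeff_C_mul, coeff_C_mul, hF0, hGt0]
    have e1 : (starRingEnd ℂ) D * D = ((‖D‖ ^ 2 : ℝ) : ℂ) := by
      rw [mul_comm, Complex.mul_conj, Complex.normSq_eq_norm_sq]
    have e2 : (starRingEnd ℂ) D / ((N2 * K : ℝ) : ℂ) * D = ((‖D‖ ^ 2 : ℝ) : ℂ) / ((N2 * K : ℝ) : ℂ) := by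
      rw [div_mul_eq_mul_div, e1]
    rw [e2]
    have e3 : (K : ℝ) = 1 / K * N2 + ‖D‖ ^ 2 / (N2 * K) := by
      field_simp
      rw [hKsq, hK2]
      field_simp
    have e4 : ((1 / K * N2 + ‖D‖ ^ 2 / (N2 * K) : ℝ) : ℂ) = (K : ℂ) := by rw [← e3]
    push_cast at e4 ⊢
    exact e4
  have hh_ne : h ≠ 0 := by
    intro h0
    rw [h0] at hh0
    simp only [coeff_zero] at hh0
    exact hKc hh0.symm
  have hpt : ∀ t : UnitAddCircle, ‖h.eval (ee t)‖ ^ 2 ≤ ‖f.eval (ee t)‖ ^ 2 + ‖g.eval (ee t)‖ ^ 2 := by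
    intro t
    have e1 : h.eval (ee t) = (1 / K) * F.eval (ee t) +
        ((starRingEnd ℂ) D / (N2 * K : ℝ)) * Gt.eval (ee t) := by
      rw [hh]; simp
    have hGn : ‖Gt.eval (ee t)‖ = ‖G.eval (ee t)‖ := by
      rw [hGt]; simp
    -- normalise F and G by N
    have e2 : h.eval (ee t) = ((N / K : ℝ) : ℂ) * ((F.eval (ee t)) / N) +
        (((starRingEnd ℂ) D / (N : ℝ)) / K) * (Gt.eval (ee t) / N) := by
      rw [e1]
      have : ((N2 * K : ℝ) : ℂ) = (N : ℂ) * N * K := by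
        rw [← hNsq]; push_cast; ring
      rw [this]
      push_cast
      field_simp
    rw [e2]
    refine (cs_two _ _ _ _).trans ?_
    have e3 : ‖((N / K : ℝ) : ℂ)‖ ^ 2 + ‖((starRingEnd ℂ) D / (N : ℝ)) / K‖ ^ 2 = 1 := by
      rw [norm_div, norm_div, Complex.norm_real, Complex.norm_real, Complex.norm_real,
        Real.norm_of_nonneg (by positivity), Real.norm_of_nonneg hNpos.le,
        Real.norm_of_nonneg hKpos.le, RCLike.norm_conj, div_pow, div_pow, div_pow, hNsq, hKsq]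
      rw [← add_div, ← hK2]
      exact div_self hK2pos.ne'
    rw [e3, one_mul, norm_div, norm_div, hGn, Complex.norm_real, Real.norm_of_nonneg hNpos.le,
      div_pow, div_pow, hNsq, ← add_div, div_le_iff₀ hN2pos]
    have e4 := lagrange_two a b (f.eval (ee t)) (g.eval (ee t))
    have e5 : F.eval (ee t) = (starRingEnd ℂ) a * f.eval (ee t) + (starRingEnd ℂ) b * g.eval (ee t) := by
      rw [hF]; simp
    have e6 : G.eval (ee t) = a * g.eval (ee t) - b * f.eval (ee t) := by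
      rw [hG]; simp
    rw [e5, e6, e4, ← hN2]
    exact le_of_eq (mul_comm _ _)
  have hfne : f ≠ 0 := by
    intro h0; apply hf0; rw [ha, h0]; simp
  calc log K2 = 2 * log ‖h.coeff 0‖ := by
        rw [hh0, Complex.norm_real, Real.norm_of_nonneg hKpos.le, ← hKsq, log_pow]
        norm_num
    _ ≤ 2 * ∫ t : UnitAddCircle, log ‖h.eval (ee t)‖ := by
        have := log_coeff_zero_le h (by rw [hh0]; exact hKc)
        linarith
    _ = ∫ t : UnitAddCircle, 2 * log ‖h.eval (ee t)‖ := by rw [integral_const_mul]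
    _ ≤ ∫ t : UnitAddCircle, log (‖f.eval (ee t)‖ ^ 2 + ‖g.eval (ee t)‖ ^ 2) := by
        apply integral_mono_ae ((integrable_log_poly h).const_mul 2) (integrable_log_sq f g hfne)
        filter_upwards [ae_eval_ne_zero h hh_ne] with t ht
        have hp : 0 < ‖h.eval (ee t)‖ := norm_pos_iff.mpr ht
        have : 2 * log ‖h.eval (ee t)‖ = log (‖h.eval (ee t)‖ ^ 2) := by
          rw [log_pow]; norm_num
        rw [this]
        exact log_le_log (by positivity) (hpt t)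

end Pool.Agent.Work.MP_417103_nt
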