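import Mathlib
import Pool.Agent.Work.MP_417103_nt.Wedge

set_option autoImplicit false

namespace Pool.Agent.Work.MP_417103_nt

open MeasureTheory Polynomial Real

/-- reflection into the closed unit disc -/
noncomputable def refl (ρ : ℂ) : ℂ := if ‖ρ‖ ≤ 1 then ρ else (starRingEnd ℂ ρ)⁻¹

lemma refl_norm (ρ : ℂ) : ‖refl ρ‖ ≤ 1 := by
  unfold refl
  split_ifs with h
  · exact h
  · push Not at h
    rw [norm_inv, RCLike.norm_conj]
    exact inv_le_one_of_one_le₀ h.le

lemma refl_dist {z : ℂ} (hz : ‖z‖ = 1) (ρ : ℂ) : ‖z - ρ‖ = max 1 ‖ρ‖ * ‖z - refl ρ‖ := by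
  unfold refl
  split_ifs with h
  · rw [max_eq_left h, one_mul]
  · push Not at h
    rw [max_eq_right h.le]
    have hρ : ρ ≠ 0 := by
      rintro rfl; simp at h; linarith
    have hcρ : (starRingEnd ℂ) ρ ≠ 0 := by simpa using hρ
    have hz0 : z ≠ 0 := by
      rintro rfl; simp at hz
    -- conj z = z⁻¹
    have hcz : (starRingEnd ℂ) z = z⁻¹ := by
      have h1 := Complex.mul_conj z
      rw [Complex.normSq_eq_norm_sq, hz] at h1
      have h2 : z * (starRingEnd ℂ) z = 1 := by rw [h1]; norm_num
      exact eq_inv_of_mul_eq_one_right h2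
    have h1 : ‖ρ‖ * ‖z - (starRingEnd ℂ ρ)⁻¹‖ = ‖(starRingEnd ℂ) ρ * z - 1‖ := by
      rw [← RCLike.norm_conj ρ, ← norm_mul]
      congr 1
      field_simp
    have h2 : ‖(starRingEnd ℂ) ρ * z - 1‖ = ‖ρ * (starRingEnd ℂ) z - 1‖ := by
      rw [← RCLike.norm_conj ((starRingEnd ℂ) ρ * z - 1)]
      simp
    have h3 : ‖ρ * (starRingEnd ℂ) z - 1‖ = ‖z - ρ‖ := by
      rw [hcz]
      have : ρ * z⁻¹ - 1 = (ρ - z) * z⁻¹ := by field_simp
      rw [this, norm_mul, norm_inv, hz, inv_one, mul_one, norm_sub_rev]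
    rw [h1, h2, h3]

lemma re_ge_half {z s : ℂ} (hz : ‖z‖ = 1) (hs : ‖s‖ ≤ 1) (hne : z ≠ s) : 1 / 2 ≤ (z / (z - s)).re := by
  have hd : 0 < Complex.normSq (z - s) := Complex.normSq_pos.mpr (sub_ne_zero.mpr hne)
  rw [Complex.div_re]
  have e1 : Complex.normSq z = 1 := by rw [Complex.normSq_eq_norm_sq, hz]; norm_num
  have e2 : Complex.normSq s ≤ 1 := by
    rw [Complex.normSq_eq_norm_sq]
    have := norm_nonneg s
    nlinarith
  rw [Complex.normSq_apply] at e1 e2
  have e3 : Complex.normSq (z - s) = (z.re - s.re) * (z.re - s.re) + (z.im - s.im) * (z.im - s.im) := by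
    rw [Complex.normSq_apply]; simp
  rw [← add_div, le_div_iff₀ hd, e3]
  simp only [Complex.sub_re, Complex.sub_im]
  nlinarith

lemma re_pos_outside {z s : ℂ} (hz : 1 < ‖z‖) (hs : ‖s‖ ≤ 1) : 0 < (z / (z - s)).re := by
  have hne : z ≠ s := by
    rintro rfl; linarith
  have hd : 0 < Complex.normSq (z - s) := Complex.normSq_pos.mpr (sub_ne_zero.mpr hne)
  rw [Complex.div_re, ← add_div]
  apply div_pos _ hd
  simp only [Complex.sub_re, Complex.sub_im]
  -- |z|² - Re (z conj s) > 0
  have h1 : z.re * s.re + z.im * s.im ≤ ‖z‖ * ‖s‖ := by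
    have h2 : (z * (starRingEnd ℂ) s).re ≤ ‖z * (starRingEnd ℂ) s‖ := Complex.re_le_norm _
    rw [norm_mul, RCLike.norm_conj] at h2
    simpa using h2
  have h3 : z.re * z.re + z.im * z.im = ‖z‖ ^ 2 := by
    rw [← Complex.normSq_apply, Complex.normSq_eq_norm_sq]
  have h4 : 0 ≤ ‖s‖ := norm_nonneg s
  nlinarith

lemma refl_key {z : ℂ} (hz : ‖z‖ = 1) (ρ : ℂ) (hne : z ≠ ρ) :
    |(z / (z - ρ)).re| ≤ (z / (z - refl ρ)).re ∧ (z / (z - ρ)).im = (z / (z - refl ρ)).im := by
  unfold refl
  split_ifs with h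
  · have := re_ge_half hz h hne
    exact ⟨by rw [abs_of_nonneg (by linarith)], rfl⟩
  · push Not at h
    have hρ : ρ ≠ 0 := by
      rintro rfl; simp at h; linarith
    have hcρ : (starRingEnd ℂ) ρ ≠ 0 := by simpa using hρ
    have hz0 : z ≠ 0 := by
      rintro rfl; simp at hz
    have hcz : (starRingEnd ℂ) z = z⁻¹ := by
      have h1 := Complex.mul_conj z
      rw [Complex.normSq_eq_norm_sq, hz] at h1
      have h2 : z * (starRingEnd ℂ) z = 1 := by rw [h1]; norm_num
      exact eq_inv_of_mul_eq_one_right h2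
    set s := ((starRingEnd ℂ) ρ)⁻¹ with hs
    have hs1 : ‖s‖ ≤ 1 := by
      rw [hs, norm_inv, RCLike.norm_conj]
      exact inv_le_one_of_one_le₀ h.le
    have hzs : z ≠ s := by
      intro h0
      have : ‖z‖ < 1 := by
        rw [h0, hs, norm_inv, RCLike.norm_conj]
        exact inv_lt_one_of_one_lt₀ h
      linarith
    have h1 := re_ge_half hz hs1 hzs
    have h2 : z / (z - ρ) = 1 - (starRingEnd ℂ) (z / (z - s)) := by
      rw [map_div₀, map_sub, hcz, hs, map_inv₀, Complex.conj_conj]
      have h3 : z - ρ ≠ 0 := sub_ne_zero.mpr hne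
      have h4 : z⁻¹ - ρ⁻¹ ≠ 0 := by
        intro h5
        apply hne
        exact inv_injective (sub_eq_zero.mp h5)
      have h5 : ρ - z ≠ 0 := fun h6 => h3 (by rw [← neg_sub, h6, neg_zero])
      have h6 : z⁻¹ / (z⁻¹ - ρ⁻¹) = ρ / (ρ - z) := by
        rw [div_eq_div_iff h4 h5]
        field_simp
      rw [h6]
      rw [eq_sub_iff_add_eq, div_add_div _ _ h3 h5, div_eq_one_iff_eq (mul_ne_zero h3 h5)]
      ring
    rw [h2]
    simp only [Complex.sub_re, Complex.one_re, Complex.conj_re, Complex.sub_im, Complex.one_im,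
      Complex.conj_im]
    refine ⟨?_, by ring⟩
    rw [abs_le]
    constructor <;> linarith

/-- the reflected monic polynomial -/
noncomputable def rpoly (f : ℂ[X]) : ℂ[X] := (f.roots.map fun ρ => X - C (refl ρ)).prod

lemma rpoly_monic (f : ℂ[X]) : (rpoly f).Monic := by
  unfold rpoly
  exact monic_multiset_prod_of_monic _ _ fun ρ _ => monic_X_sub_C _

lemma rpoly_roots (f : ℂ[X]) : (rpoly f).roots = f.roots.map refl := by
  unfold rpoly
  have : (f.roots.map fun ρ => X - C (refl ρ)) = ((f.roots.map refl).map fun a => X - C a) := by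
    rw [Multiset.map_map]; rfl
  rw [this, roots_multiset_prod_X_sub_C]

lemma rpoly_natDegree (f : ℂ[X]) : (rpoly f).natDegree = f.natDegree := by
  have h1 := (IsAlgClosed.splits (rpoly f)).natDegree_eq_card_roots
  have h2 := (IsAlgClosed.splits f).natDegree_eq_card_roots
  rw [h1, h2, rpoly_roots, Multiset.card_map]

lemma rpoly_norm (f : ℂ[X]) {z : ℂ} (hz : ‖z‖ = 1) :
    ‖f.eval z‖ = f.mahlerMeasure * ‖(rpoly f).eval z‖ := by
  rw [mahlerMeasure_eq_leadingCoeff_mul_prod_roots]
  conv_lhs => rw [(IsAlgClosed.splits f).eq_prod_roots]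
  unfold rpoly
  rw [eval_mul, eval_C, norm_mul, mul_assoc, eval_multiset_prod, eval_multiset_prod,
    Multiset.map_map, Multiset.map_map]
  congr 1
  have hn : ∀ s : Multiset ℂ, ‖s.prod‖ = (s.map fun x => ‖x‖).prod := fun s =>
    map_multiset_prod (normHom : ℂ →*₀ ℝ) s
  rw [hn, hn, Multiset.map_map, Multiset.map_map, ← Multiset.prod_map_mul]
  congr 1
  apply Multiset.map_congr rfl
  intro ρ _
  simp only [Function.comp, eval_sub, eval_X, eval_C]
  exact refl_dist hz ρ

lemma eval_rpoly_ne {f : ℂ[X]} {z : ℂ} (hz : ‖z‖ = 1) (h : f.eval z ≠ 0) :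
    (rpoly f).eval z ≠ 0 := by
  intro h0
  apply h
  rw [← norm_eq_zero, rpoly_norm f hz, h0, norm_zero, mul_zero]

/-- pointwise comparisons on the circle -/
lemma bern_pointwise {f : ℂ[X]} (hf : f ≠ 0) {z : ℂ} (hz : ‖z‖ = 1) (h : f.eval z ≠ 0) :
    ‖z * f.derivative.eval z‖ ≤ f.mahlerMeasure * ‖(rpoly f).derivative.eval z‖ ∧
    (f.natDegree : ℝ) / 2 * ‖(rpoly f).eval z‖ ≤ ‖(rpoly f).derivative.eval z‖ := by
  have hz0 : z ≠ 0 := by
    rintro rfl; simp at hz
  have hF := eval_rpoly_ne hz h
  have e1 := (IsAlgClosed.splits f).eval_derivative_eq_eval_mul_sum h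
  have e2 := (IsAlgClosed.splits (rpoly f)).eval_derivative_eq_eval_mul_sum hF
  rw [rpoly_roots, Multiset.map_map] at e2
  set V : ℂ := (f.roots.map fun ρ => z / (z - ρ)).sum with hV
  set U : ℂ := (f.roots.map fun ρ => z / (z - refl ρ)).sum with hU
  have f1 : z * f.derivative.eval z = f.eval z * V := by
    rw [e1, hV, mul_left_comm, ← Multiset.sum_map_mul_left]
    congr 2
    apply Multiset.map_congr rfl
    intro ρ _
    rw [mul_one_div]
  have f2 : z * (rpoly f).derivative.eval z = (rpoly f).eval z * U := by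
    rw [e2, hU, mul_left_comm, ← Multiset.sum_map_mul_left]
    congr 2
    apply Multiset.map_congr rfl
    intro ρ _
    simp only [Function.comp]
    rw [mul_one_div]
  have f3 : ‖(rpoly f).derivative.eval z‖ = ‖(rpoly f).eval z‖ * ‖U‖ := by
    have : ‖z * (rpoly f).derivative.eval z‖ = ‖(rpoly f).eval z * U‖ := by rw [f2]
    rw [norm_mul, hz, one_mul, norm_mul] at this
    exact this
  -- real and imaginary parts
  have hroot : ∀ ρ ∈ f.roots, z ≠ ρ := by
    rintro ρ hρ rfl
    exact h ((mem_roots hf).mp hρ)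
  have reU : U.re = (f.roots.map fun ρ => (z / (z - refl ρ)).re).sum := by
    rw [hU]
    have := map_multiset_sum Complex.reAddGroupHom (f.roots.map fun ρ => z / (z - refl ρ))
    rw [Multiset.map_map] at this
    exact this
  have reV : V.re = (f.roots.map fun ρ => (z / (z - ρ)).re).sum := by
    rw [hV]
    have := map_multiset_sum Complex.reAddGroupHom (f.roots.map fun ρ => z / (z - ρ))
    rw [Multiset.map_map] at this
    exact this
  have imU : U.im = (f.roots.map fun ρ => (z / (z - refl ρ)).im).sum := by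
    rw [hU]
    have := map_multiset_sum Complex.imAddGroupHom (f.roots.map fun ρ => z / (z - refl ρ))
    rw [Multiset.map_map] at this
    exact this
  have imV : V.im = (f.roots.map fun ρ => (z / (z - ρ)).im).sum := by
    rw [hV]
    have := map_multiset_sum Complex.imAddGroupHom (f.roots.map fun ρ => z / (z - ρ))
    rw [Multiset.map_map] at this
    exact this
  have him : V.im = U.im := by
    rw [imU, imV]
    congr 1
    apply Multiset.map_congr rfl
    intro ρ hρ
    exact (refl_key hz ρ (hroot ρ hρ)).2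
  have hre1 : V.re ≤ U.re := by
    rw [reU, reV]
    apply Multiset.sum_map_le_sum_map
    intro ρ hρ
    exact (le_abs_self _).trans (refl_key hz ρ (hroot ρ hρ)).1
  have hre2 : -V.re ≤ U.re := by
    rw [reU, reV, ← Multiset.sum_map_neg', Multiset.map_map]
    apply Multiset.sum_map_le_sum_map
    intro ρ hρ
    exact (neg_le_abs _).trans (refl_key hz ρ (hroot ρ hρ)).1
  have hUV : ‖V‖ ≤ ‖U‖ := by
    have h1 : ‖V‖ ^ 2 ≤ ‖U‖ ^ 2 := by
      rw [← Complex.normSq_eq_norm_sq, ← Complex.normSq_eq_norm_sq, Complex.normSq_apply,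
        Complex.normSq_apply, him]
      nlinarith
    exact (pow_le_pow_iff_left₀ (norm_nonneg _) (norm_nonneg _) two_ne_zero).mp h1
  have hre3 : (f.natDegree : ℝ) / 2 ≤ U.re := by
    have hcard := (IsAlgClosed.splits f).natDegree_eq_card_roots
    rw [reU, hcard]
    have h1 : ((Multiset.card f.roots : ℕ) : ℝ) / 2 = (f.roots.map fun _ => (1 / 2 : ℝ)).sum := by
      rw [Multiset.map_const', Multiset.sum_replicate]
      simp [div_eq_mul_inv]
    rw [h1]
    apply Multiset.sum_map_le_sum_map
    intro ρ hρ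
    apply re_ge_half hz (refl_norm ρ)
    intro h0
    apply hF
    have : (rpoly f).IsRoot (refl ρ) := by
      rw [← mem_roots (rpoly_monic f).ne_zero, rpoly_roots]
      exact Multiset.mem_map_of_mem _ hρ
    rw [h0]
    exact this
  constructor
  · rw [f1, norm_mul, rpoly_norm f hz, f3, mul_assoc]
    apply mul_le_mul_of_nonneg_left _ (mahlerMeasure_nonneg f)
    exact mul_le_mul_of_nonneg_left hUV (norm_nonneg _)
  · rw [f3, mul_comm]
    apply mul_le_mul_of_nonneg_left _ (norm_nonneg _)
    exact hre3.trans (Complex.re_le_norm U)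

/-- the derivative of the reflected polynomial has the obvious Mahler measure -/
lemma rpoly_derivative_log (f : ℂ[X]) (hd : 1 ≤ f.natDegree) :
    (rpoly f).derivative.logMahlerMeasure = log f.natDegree := by
  set F := rpoly f with hF
  have hmonic : F.Monic := rpoly_monic f
  have hdeg : F.natDegree = f.natDegree := rpoly_natDegree f
  have hdne : (F.natDegree : ℂ) ≠ 0 := by
    rw [hdeg]; exact_mod_cast (by omega : f.natDegree ≠ 0)
  have hlc : F.derivative.leadingCoeff = F.natDegree := by
    have := leadingCoeff_derivative F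
    rw [this, hmonic.leadingCoeff]; simp
  rw [logMahlerMeasure_eq_log_leadingCoeff_add_sum_log_roots, hlc]
  have h0 : (F.derivative.roots.map fun a => log⁺ ‖a‖).sum = 0 := by
    apply Multiset.sum_eq_zero
    intro x hx
    obtain ⟨z, hz, rfl⟩ := Multiset.mem_map.mp hx
    rw [posLog_eq_zero_iff]
    by_contra hgt
    push Not at hgt
    rw [abs_of_nonneg (norm_nonneg z)] at hgt
    have hroot : F.derivative.eval z = 0 := by
      have := (mem_roots'.mp hz).2
      exact this
    have hFz : F.eval z ≠ 0 := by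
      intro h1
      have : z ∈ F.roots := (mem_roots hmonic.ne_zero).mpr h1
      rw [hF, rpoly_roots] at this
      obtain ⟨ρ, _, rfl⟩ := Multiset.mem_map.mp this
      exact absurd (refl_norm ρ) (not_le.mpr hgt)
    have e2 := (IsAlgClosed.splits F).eval_derivative_eq_eval_mul_sum hFz
    rw [hroot] at e2
    have e3 : (F.roots.map fun s => 1 / (z - s)).sum = 0 := by
      rcases mul_eq_zero.mp e2.symm with h1 | h1
      · exact absurd h1 hFz
      · exact h1
    have e4 : (F.roots.map fun s => z / (z - s)).sum = 0 := by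
      have : (F.roots.map fun s => z / (z - s)).sum = z * (F.roots.map fun s => 1 / (z - s)).sum := by
        rw [← Multiset.sum_map_mul_left]
        congr 1
        apply Multiset.map_congr rfl
        intro s _
        rw [mul_one_div]
      rw [this, e3, mul_zero]
    have e5 := congrArg Complex.re e4
    have e6 := map_multiset_sum Complex.reAddGroupHom (F.roots.map fun s => z / (z - s))
    rw [Multiset.map_map] at e6
    have e7 : (F.roots.map fun s => (z / (z - s)).re).sum = 0 := by
      rw [Complex.zero_re] at e5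
      exact e6.symm.trans e5
    have hcard : F.roots ≠ 0 := by
      intro h1
      have := (IsAlgClosed.splits F).natDegree_eq_card_roots
      rw [h1, Multiset.card_zero] at this
      omega
    have e8 : 0 < (F.roots.map fun s => (z / (z - s)).re).sum := by
      have hpos : ∀ s ∈ F.roots, 0 < (z / (z - s)).re := by
        intro s hs
        rw [hF, rpoly_roots] at hs
        obtain ⟨ρ, _, rfl⟩ := Multiset.mem_map.mp hs
        exact re_pos_outside hgt (refl_norm ρ)
      obtain ⟨s0, hs0⟩ := Multiset.exists_mem_of_ne_zero hcard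
      obtain ⟨t, ht⟩ := Multiset.exists_cons_of_mem hs0
      rw [ht, Multiset.map_cons, Multiset.sum_cons]
      have h1 : 0 ≤ (t.map fun s => (z / (z - s)).re).sum := by
        apply Multiset.sum_nonneg
        intro x hx
        obtain ⟨s, hs, rfl⟩ := Multiset.mem_map.mp hx
        exact (hpos s (by rw [ht]; exact Multiset.mem_cons_of_mem hs)).le
      have h2 := hpos s0 hs0
      linarith
    linarith
  rw [h0, add_zero, hdeg]
  simp

/-- Bernstein type inequality for the Mahler measure of a pair. -/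
theorem bern (f : ℂ[X]) (hf : f ≠ 0) (w : ℕ) (hw : 1 ≤ w) (hd : f.natDegree ≤ w) :
    ∫ t : UnitAddCircle, log (‖f.eval (ee t)‖ ^ 2 + (1 / (w : ℝ)) ^ 2 *
      ‖(X * f.derivative).eval (ee t)‖ ^ 2) / 2 ≤
      (∫ t : UnitAddCircle, log ‖f.eval (ee t)‖) + log 5 / 2 := by
  have hwpos : (0 : ℝ) < w := by exact_mod_cast hw
  have hint : Integrable (fun t : UnitAddCircle => log (‖f.eval (ee t)‖ ^ 2 + (1 / (w : ℝ)) ^ 2 *
      ‖(X * f.derivative).eval (ee t)‖ ^ 2) / 2) := by
    have h1 := (integrable_log_sq f (C ((1 / (w : ℝ) : ℝ) : ℂ) * (X * f.derivative)) hf).div_const 2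
    refine h1.congr (Filter.Eventually.of_forall fun t => ?_)
    have e : ‖(C ((1 / (w : ℝ) : ℝ) : ℂ) * (X * f.derivative)).eval (ee t)‖ ^ 2 =
        (1 / (w : ℝ)) ^ 2 * ‖(X * f.derivative).eval (ee t)‖ ^ 2 := by
      rw [eval_mul, eval_C, norm_mul, mul_pow, Complex.norm_real, Real.norm_of_nonneg (by positivity)]
    beta_reduce
    rw [e]
  rcases Nat.eq_zero_or_pos f.natDegree with h0 | hpos
  · -- constant polynomial
    have hder : f.derivative = 0 := derivative_of_natDegree_zero h0
    have hI := integrable_log_poly f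
    have hlog5 : 0 ≤ log 5 / 2 := by
      have := log_nonneg (by norm_num : (1 : ℝ) ≤ 5); linarith
    have : (∫ t : UnitAddCircle, log (‖f.eval (ee t)‖ ^ 2 + (1 / (w : ℝ)) ^ 2 *
      ‖(X * f.derivative).eval (ee t)‖ ^ 2) / 2) = ∫ t : UnitAddCircle, log ‖f.eval (ee t)‖ := by
      congr 1
      funext t
      rw [hder]
      simp only [mul_zero, eval_zero, norm_zero]
      norm_num
    rw [this]
    linarith
  · set d := f.natDegree with hdd
    have hdpos : (0 : ℝ) < d := by exact_mod_cast hpos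
    set F := rpoly f with hF
    have hF' : F.derivative ≠ 0 := by
      intro h0
      have h1 := leadingCoeff_derivative F
      rw [h0, (rpoly_monic f).leadingCoeff, rpoly_natDegree] at h1
      have h2 : (f.natDegree : ℂ) ≠ 0 := by exact_mod_cast (by omega : f.natDegree ≠ 0)
      apply h2
      simpa using h1.symm
    have hMpos := mahlerMeasure_pos_of_ne_zero hf
    have hI' := integrable_log_poly F.derivative
    have hbound : ∀ᵐ t : UnitAddCircle, log (‖f.eval (ee t)‖ ^ 2 + (1 / (w : ℝ)) ^ 2 *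
        ‖(X * f.derivative).eval (ee t)‖ ^ 2) / 2 ≤
        (log 5 / 2 - log d + log f.mahlerMeasure) + log ‖F.derivative.eval (ee t)‖ := by
      filter_upwards [ae_eval_ne_zero f hf, ae_eval_ne_zero _ hF'] with t ht ht'
      have hz := ee_norm t
      obtain ⟨b1, b2⟩ := bern_pointwise hf hz ht
      have p1 : 0 < ‖f.eval (ee t)‖ := norm_pos_iff.mpr ht
      have p2 : 0 < ‖F.derivative.eval (ee t)‖ := norm_pos_iff.mpr ht'
      set M := f.mahlerMeasure with hM
      set y := ‖F.derivative.eval (ee t)‖ with hy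
      have c1 : ‖f.eval (ee t)‖ ≤ M * (2 / d * y) := by
        rw [rpoly_norm f hz]
        apply mul_le_mul_of_nonneg_left _ hMpos.le
        have b2' : (d : ℝ) / 2 * ‖F.eval (ee t)‖ ≤ y := b2
        rw [div_mul_eq_mul_div, div_le_iff₀ (by norm_num)] at b2'
        rw [div_mul_eq_mul_div, le_div_iff₀ hdpos]
        linarith
      have c2 : ‖(X * f.derivative).eval (ee t)‖ ≤ M * y := by
        rw [eval_mul, eval_X]; exact b1
      have c3 : (1 / (w : ℝ)) ^ 2 ≤ (1 / (d : ℝ)) ^ 2 := by
        have : (1 / (w : ℝ)) ≤ 1 / (d : ℝ) := by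
          apply one_div_le_one_div_of_le hdpos
          exact_mod_cast hd
        gcongr
      have c4 : ‖f.eval (ee t)‖ ^ 2 + (1 / (w : ℝ)) ^ 2 * ‖(X * f.derivative).eval (ee t)‖ ^ 2 ≤
          5 / (d : ℝ) ^ 2 * (M ^ 2 * y ^ 2) := by
        calc ‖f.eval (ee t)‖ ^ 2 + (1 / (w : ℝ)) ^ 2 * ‖(X * f.derivative).eval (ee t)‖ ^ 2
            ≤ (M * (2 / d * y)) ^ 2 + (1 / (d : ℝ)) ^ 2 * (M * y) ^ 2 := by gcongr
          _ = 5 / (d : ℝ) ^ 2 * (M ^ 2 * y ^ 2) := by field_simp; ring
      have c5 : 0 < ‖f.eval (ee t)‖ ^ 2 + (1 / (w : ℝ)) ^ 2 * ‖(X * f.derivative).eval (ee t)‖ ^ 2 := by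
        positivity
      have c6 := log_le_log c5 c4
      rw [log_mul (by positivity) (by positivity), log_mul (by positivity) (by positivity),
        log_div (by norm_num) (by positivity), log_pow, log_pow, log_pow] at c6
      push_cast at c6
      linarith
    have hI2 : Integrable (fun t : UnitAddCircle =>
        (log 5 / 2 - log d + log f.mahlerMeasure) + log ‖F.derivative.eval (ee t)‖) :=
      (integrable_const _).add hI'
    refine (integral_mono_ae hint hI2 hbound).trans ?_
    rw [integral_add (integrable_const _) hI', integral_log_poly, integral_log_poly,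
      rpoly_derivative_log f hpos, ← logMahlerMeasure_eq_log_MahlerMeasure]
    simp only [integral_const, probReal_univ, one_smul]
    linarith

end Pool.Agent.Work.MP_417103_nt
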