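import Mathlib
import Pool.Agent.Work.MP_417103_nt.Wedge

set_option autoImplicit false

namespace Pool.Agent.Work.MP_417103_nt

open MeasureTheory Real

/-- The compact torus. -/
abbrev Tor (n : ℕ) := Fin n → UnitAddCircle

variable {n : ℕ}

/-- evaluation at a point of the torus -/
noncomputable def evT (x : Tor n) : MvPolynomial (Fin n) ℤ →+* ℂ :=
  MvPolynomial.eval₂Hom (Int.castRingHom ℂ) (fun i => ee (x i))

/-- monomials as characters -/
noncomputable def chi (a : Fin n →₀ ℕ) (x : Tor n) : ℂ := ∏ i, ee (x i) ^ (a i)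

lemma evT_eq (x : Tor n) (P : MvPolynomial (Fin n) ℤ) :
    evT x P = ∑ a ∈ P.support, ((P.coeff a : ℤ) : ℂ) * chi a x := by
  unfold evT chi
  rw [MvPolynomial.coe_eval₂Hom, MvPolynomial.eval₂_eq']
  simp

lemma evT_monomial (x : Tor n) (a : Fin n →₀ ℕ) (c : ℤ) :
    evT x (MvPolynomial.monomial a c) = (c : ℂ) * chi a x := by
  unfold evT chi
  rw [MvPolynomial.coe_eval₂Hom, MvPolynomial.eval₂_monomial, Finsupp.prod_fintype]
  · simp
  · intro i; simp

@[simp] lemma chi_norm (a : Fin n →₀ ℕ) (x : Tor n) : ‖chi a x‖ = 1 := by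
  unfold chi
  rw [norm_prod]
  simp

lemma chi_continuous (a : Fin n →₀ ℕ) : Continuous (chi a) := by
  unfold chi
  exact continuous_finsetProd _ fun i _ => (ee_continuous.comp (continuous_apply i)).pow _

lemma evT_continuous (P : MvPolynomial (Fin n) ℤ) : Continuous fun x : Tor n => evT x P := by
  have : (fun x : Tor n => evT x P) = fun x => ∑ a ∈ P.support, ((P.coeff a : ℤ) : ℂ) * chi a x := by
    funext x; exact evT_eq x P
  rw [this]
  exact continuous_finsetSum _ fun a _ => continuous_const.mul (chi_continuous a)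

/-- upper bound -/
lemma evT_bound (P : MvPolynomial (Fin n) ℤ) : ∃ C : ℝ, 1 ≤ C ∧ ∀ x : Tor n, ‖evT x P‖ ≤ C := by
  refine ⟨max 1 (∑ a ∈ P.support, ‖((P.coeff a : ℤ) : ℂ)‖), le_max_left _ _, fun x => ?_⟩
  refine le_trans ?_ (le_max_right _ _)
  rw [evT_eq]
  refine (norm_sum_le _ _).trans ?_
  refine Finset.sum_le_sum fun a _ => ?_
  rw [norm_mul, chi_norm, mul_one]

/-- filter a polynomial by a condition on exponents -/
noncomputable def flt (p : (Fin n →₀ ℕ) → Prop) (P : MvPolynomial (Fin n) ℤ) :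
    MvPolynomial (Fin n) ℤ := by
  classical
  exact ∑ a ∈ P.support.filter p, MvPolynomial.monomial a (P.coeff a)

open Classical in
lemma coeff_flt (p : (Fin n →₀ ℕ) → Prop) (P : MvPolynomial (Fin n) ℤ) (a : Fin n →₀ ℕ) :
    (flt p P).coeff a = if p a then P.coeff a else 0 := by
  unfold flt
  rw [MvPolynomial.coeff_sum]
  simp only [MvPolynomial.coeff_monomial]
  rw [Finset.sum_ite_eq']
  by_cases hp : p a
  · simp only [hp, if_true, Finset.mem_filter, MvPolynomial.mem_support_iff, and_true]
    by_cases h : P.coeff a = 0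
    · simp [h]
    · simp [h]
  · simp [hp]

open Classical in
lemma support_flt (p : (Fin n →₀ ℕ) → Prop) (P : MvPolynomial (Fin n) ℤ) :
    (flt p P).support = P.support.filter p := by
  ext a
  rw [MvPolynomial.mem_support_iff, coeff_flt, Finset.mem_filter, MvPolynomial.mem_support_iff]
  by_cases hp : p a <;> simp [hp]

lemma mem_support_flt {p : (Fin n →₀ ℕ) → Prop} {P : MvPolynomial (Fin n) ℤ} {a : Fin n →₀ ℕ} :
    a ∈ (flt p P).support ↔ a ∈ P.support ∧ p a := by
  classical
  rw [support_flt, Finset.mem_filter]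

/-- integer weights -/
def zwt (μ : Fin n → ℤ) (a : Fin n →₀ ℕ) : ℤ := ∑ i, μ i * (a i : ℤ)

/-- graded part -/
noncomputable def part (μ : Fin n → ℤ) (k : ℤ) (P : MvPolynomial (Fin n) ℤ) :
    MvPolynomial (Fin n) ℤ := flt (fun a => zwt μ a = k) P

/-- translation by one parameter subgroup -/
noncomputable def tr (μ : Fin n → ℤ) (t : UnitAddCircle) : Tor n := fun i => μ i • t

lemma tr_continuous (μ : Fin n → ℤ) : Continuous (tr μ) := by
  unfold tr
  exact continuous_pi fun i => continuous_id.zsmul _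

lemma chi_tr (μ : Fin n → ℤ) (a : Fin n →₀ ℕ) (x : Tor n) (t : UnitAddCircle) :
    chi a (x + tr μ t) = chi a x * ee t ^ (zwt μ a) := by
  unfold chi tr zwt
  have h : ∀ i, ee ((x + fun i => μ i • t) i) ^ a i = ee (x i) ^ a i * ee t ^ (μ i * (a i : ℤ)) := by
    intro i
    rw [Pi.add_apply, ee_add, mul_pow, ee_zsmul, zpow_mul, zpow_natCast]
  rw [Finset.prod_congr rfl fun i _ => h i, Finset.prod_mul_distrib]
  congr 1
  have : ∀ s : Finset (Fin n), ∏ i ∈ s, ee t ^ (μ i * (a i : ℤ)) = ee t ^ (∑ i ∈ s, μ i * (a i : ℤ)) := by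
    intro s
    classical
    induction s using Finset.induction_on with
    | empty => simp
    | insert j s hj ih => rw [Finset.prod_insert hj, Finset.sum_insert hj, zpow_add₀ (ee_ne_zero t), ih]
  exact this _

/-- the one variable polynomial of a line -/
noncomputable def pol (μ : Fin n → ℤ) (o : ℤ) (P : MvPolynomial (Fin n) ℤ) (x : Tor n) :
    Polynomial ℂ :=
  ∑ a ∈ P.support, Polynomial.monomial (zwt μ a - o).toNat (((P.coeff a : ℤ) : ℂ) * chi a x)

lemma pol_eval {μ : Fin n → ℤ} {o : ℤ} {P : MvPolynomial (Fin n) ℤ}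
    (ho : ∀ a ∈ P.support, o ≤ zwt μ a) (x : Tor n) (t : UnitAddCircle) :
    evT (x + tr μ t) P = ee t ^ o * (pol μ o P x).eval (ee t) := by
  unfold pol
  rw [evT_eq, Polynomial.eval_finsetSum, Finset.mul_sum]
  refine Finset.sum_congr rfl fun a ha => ?_
  rw [chi_tr, Polynomial.eval_monomial]
  have h1 : ((zwt μ a - o).toNat : ℤ) = zwt μ a - o := Int.toNat_of_nonneg (by linarith [ho a ha])
  have h2 : ee t ^ (zwt μ a) = ee t ^ o * ee t ^ (zwt μ a - o).toNat := by
    rw [← zpow_natCast, h1, ← zpow_add₀ (ee_ne_zero t)]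
    congr 1; ring
  rw [h2]; ring

lemma pol_norm {μ : Fin n → ℤ} {o : ℤ} {P : MvPolynomial (Fin n) ℤ}
    (ho : ∀ a ∈ P.support, o ≤ zwt μ a) (x : Tor n) (t : UnitAddCircle) :
    ‖evT (x + tr μ t) P‖ = ‖(pol μ o P x).eval (ee t)‖ := by
  rw [pol_eval ho, norm_mul, norm_zpow, ee_norm, one_zpow, one_mul]

lemma pol_coeff {μ : Fin n → ℤ} {o : ℤ} {P : MvPolynomial (Fin n) ℤ}
    (ho : ∀ a ∈ P.support, o ≤ zwt μ a) (x : Tor n) (k : ℕ) :
    (pol μ o P x).coeff k = evT x (part μ (o + k) P) := by
  classical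
  unfold pol part
  rw [Polynomial.finsetSum_coeff, evT_eq, support_flt, Finset.sum_filter]
  refine Finset.sum_congr rfl fun a ha => ?_
  rw [Polynomial.coeff_monomial, coeff_flt]
  have h1 : ((zwt μ a - o).toNat : ℤ) = zwt μ a - o := Int.toNat_of_nonneg (by linarith [ho a ha])
  by_cases h : zwt μ a = o + k
  · have h2 : (zwt μ a - o).toNat = k := by
      have : ((zwt μ a - o).toNat : ℤ) = k := by rw [h1, h]; ring
      exact_mod_cast this
    simp [h2, h]
  · have h2 : (zwt μ a - o).toNat ≠ k := by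
      intro h3
      apply h
      have : ((zwt μ a - o).toNat : ℤ) = k := by exact_mod_cast h3
      rw [h1] at this
      linarith
    simp [h2, h]

/-- translation is measure preserving from the product -/
lemma psi_mp (μ : Fin n → ℤ) : MeasurePreserving
    (fun p : UnitAddCircle × Tor n => p.2 + tr μ p.1)
    ((volume : Measure UnitAddCircle).prod (volume : Measure (Tor n))) (volume : Measure (Tor n)) := by
  have h1 : MeasurePreserving (fun p : UnitAddCircle × Tor n => (id p.1, p.2 + tr μ p.1))
      ((volume : Measure UnitAddCircle).prod (volume : Measure (Tor n)))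
      ((volume : Measure UnitAddCircle).prod (volume : Measure (Tor n))) := by
    refine MeasurePreserving.skew_product (MeasurePreserving.id volume)
      (g := fun (t : UnitAddCircle) (x : Tor n) => x + tr μ t) ?_ ?_
    · exact (continuous_snd.add ((tr_continuous μ).comp continuous_fst)).measurable
    · refine Filter.Eventually.of_forall fun t => ?_
      exact (measurePreserving_add_right (volume : Measure (Tor n)) (tr μ t)).map_eq
  exact measurePreserving_snd.comp h1

lemma evT_line_ne {P : MvPolynomial (Fin n) ℤ} {μ : Fin n → ℤ} {o : ℤ}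
    (ho : ∀ a ∈ P.support, o ≤ zwt μ a) (x : Tor n) (h : pol μ o P x ≠ 0) :
    ∀ᵐ t : UnitAddCircle, evT (x + tr μ t) P ≠ 0 := by
  filter_upwards [ae_eval_ne_zero _ h] with t ht
  rw [pol_eval ho]
  exact mul_ne_zero (zpow_ne_zero _ (ee_ne_zero t)) ht

/-- injectivity of the Kronecker weights -/
lemma kron_inj : ∀ (m : ℕ) (N : ℕ) (a b : Fin m → ℕ), (∀ i, a i < N) → (∀ i, b i < N) →
    (∑ i : Fin _, N ^ (i : ℕ) * a i = ∑ i : Fin _, N ^ (i : ℕ) * b i) → a = b := by
  intro m
  induction m with
  | zero => intro N a b _ _ _; exact Subsingleton.elim _ _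
  | succ m ih =>
    intro N a b ha hb h
    rw [Fin.sum_univ_succ, Fin.sum_univ_succ] at h
    have e : ∀ c : Fin (m + 1) → ℕ, ∑ i : Fin m, N ^ ((Fin.succ i : Fin (m+1)) : ℕ) * c (Fin.succ i) =
        N * ∑ i : Fin m, N ^ (i : ℕ) * c (Fin.succ i) := by
      intro c
      rw [Finset.mul_sum]
      refine Finset.sum_congr rfl fun i _ => ?_
      rw [Fin.val_succ, pow_succ]; ring
    rw [e a, e b] at h
    simp only [Fin.val_zero, pow_zero, one_mul] at h
    have hN : 0 < N := lt_of_le_of_lt (Nat.zero_le _) (ha 0)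
    have h0 : a 0 = b 0 := by
      have h1 := congrArg (· % N) h
      simp only [Nat.add_mul_mod_self_left] at h1
      rw [Nat.mod_eq_of_lt (ha 0), Nat.mod_eq_of_lt (hb 0)] at h1
      exact h1
    have h2 : ∑ i : Fin m, N ^ (i : ℕ) * a (Fin.succ i) = ∑ i : Fin m, N ^ (i : ℕ) * b (Fin.succ i) := by
      rw [h0] at h
      have := Nat.add_left_cancel h
      exact Nat.eq_of_mul_eq_mul_left hN this
    have h3 := ih N (fun i => a (Fin.succ i)) (fun i => b (Fin.succ i)) (fun i => ha _) (fun i => hb _) h2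
    funext i
    refine Fin.cases h0 (fun j => ?_) i
    exact congrFun h3 j

/-- a direction isolating a monomial -/
lemma exists_generic (P : MvPolynomial (Fin n) ℤ) (hP : P ≠ 0) :
    ∃ (μ : Fin n → ℤ) (o : ℤ), (∀ a ∈ P.support, o ≤ zwt μ a) ∧
      ∀ x : Tor n, 1 ≤ ‖(pol μ o P x).coeff 0‖ := by
  classical
  obtain ⟨N, hN⟩ : ∃ N : ℕ, ∀ a ∈ P.support, ∀ i, a i < N := by
    refine ⟨(P.support.sup fun a => Finset.univ.sup fun i => a i) + 1, fun a ha i => ?_⟩
    refine Nat.lt_succ_of_le ?_
    refine le_trans ?_ (Finset.le_sup (f := fun a : Fin n →₀ ℕ => Finset.univ.sup fun i => a i) ha)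
    exact Finset.le_sup (f := fun i => a i) (Finset.mem_univ i)
  set μ : Fin n → ℤ := fun i => (N : ℤ) ^ (i : ℕ) with hμ
  have hinj : ∀ a ∈ P.support, ∀ b ∈ P.support, zwt μ a = zwt μ b → a = b := by
    intro a ha b hb hab
    have : (∑ i : Fin _, N ^ (i : ℕ) * a i) = ∑ i : Fin _, N ^ (i : ℕ) * b i := by
      unfold zwt at hab
      simp only [hμ] at hab
      exact_mod_cast hab
    have h := kron_inj n N a b (hN a ha) (hN b hb) this
    exact DFunLike.coe_injective h
  obtain ⟨a0, ha0, hmin⟩ := P.support.exists_min_image (zwt μ) (MvPolynomial.support_nonempty.mpr hP)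
  refine ⟨μ, zwt μ a0, hmin, fun x => ?_⟩
  rw [pol_coeff hmin]
  have : part μ (zwt μ a0 + (0 : ℕ)) P = MvPolynomial.monomial a0 (P.coeff a0) := by
    ext b
    unfold part
    rw [coeff_flt, MvPolynomial.coeff_monomial]
    simp only [Nat.cast_zero, add_zero]
    by_cases hb : b ∈ P.support
    · by_cases h : zwt μ b = zwt μ a0
      · have := hinj b hb a0 ha0 h
        subst this; simp
      · have h2 : a0 ≠ b := by rintro rfl; exact h rfl
        simp [h, h2]
    · have h0 : P.coeff b = 0 := MvPolynomial.notMem_support_iff.mp hb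
      have h2 : a0 ≠ b := by rintro rfl; exact hb ha0
      simp [h0, h2]
  rw [this, evT_monomial, norm_mul, chi_norm, mul_one]
  have h1 : P.coeff a0 ≠ 0 := MvPolynomial.mem_support_iff.mp ha0
  rw [Complex.norm_intCast]
  exact_mod_cast Int.one_le_abs h1

lemma pol_ne_zero_of {μ : Fin n → ℤ} {o : ℤ} {P : MvPolynomial (Fin n) ℤ} {x : Tor n}
    (h : 1 ≤ ‖(pol μ o P x).coeff 0‖) : pol μ o P x ≠ 0 := by
  intro h0
  rw [h0] at h
  simp at h
  linarith

/-- nonvanishing almost everywhere -/
lemma ae_evT_ne_zero (P : MvPolynomial (Fin n) ℤ) (hP : P ≠ 0) :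
    ∀ᵐ x : Tor n, evT x P ≠ 0 := by
  obtain ⟨μ, o, ho, h1⟩ := exists_generic P hP
  have hZ : MeasurableSet {x : Tor n | evT x P = 0} :=
    (isClosed_singleton.preimage (evT_continuous P)).measurableSet
  have hpre : volume {x : Tor n | evT x P = 0} =
      ((volume : Measure UnitAddCircle).prod (volume : Measure (Tor n)))
        ((fun p : UnitAddCircle × Tor n => p.2 + tr μ p.1) ⁻¹' {x : Tor n | evT x P = 0}) :=
    ((psi_mp μ).measure_preimage hZ.nullMeasurableSet).symm
  rw [ae_iff]
  simp only [ne_eq, not_not]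
  rw [hpre, ← Measure.prod_swap, Measure.map_apply measurable_swap (hZ.preimage (psi_mp μ).measurable)]
  rw [Measure.measure_prod_null (measurable_swap (hZ.preimage (psi_mp μ).measurable))]
  refine Filter.Eventually.of_forall fun x => ?_
  have := evT_line_ne ho x (pol_ne_zero_of (h1 x))
  rw [ae_iff] at this
  simp only [ne_eq, not_not] at this
  exact this

/-- `log ‖P‖` is integrable on the torus -/
lemma integrable_log_evT (P : MvPolynomial (Fin n) ℤ) (hP : P ≠ 0) :
    Integrable (fun x : Tor n => log ‖evT x P‖) := by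
  obtain ⟨μ, o, ho, h1⟩ := exists_generic P hP
  obtain ⟨C, hC1, hC⟩ := evT_bound P
  set L : ℝ := log C with hL
  have hL0 : 0 ≤ L := log_nonneg hC1
  set G : Tor n → ℝ := fun x => L - log ‖evT x P‖ with hG
  have hGmeas : Measurable G :=
    measurable_const.sub ((evT_continuous P).norm.measurable.log)
  have hG0 : ∀ x, 0 ≤ G x := by
    intro x
    simp only [hG, sub_nonneg]
    rcases eq_or_ne (evT x P) 0 with h | h
    · rw [h, norm_zero, log_zero]; exact hL0
    · exact log_le_log (norm_pos_iff.mpr h) (hC x)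
  have hGint : Integrable G := by
    rw [← lintegral_ofReal_ne_top_iff_integrable hGmeas.aestronglyMeasurable
      (Filter.Eventually.of_forall hG0)]
    have hm : Measurable fun x : Tor n => ENNReal.ofReal (G x) := hGmeas.ennreal_ofReal
    have e1 : ∫⁻ x : Tor n, ENNReal.ofReal (G x) =
        ∫⁻ p : UnitAddCircle × Tor n, ENNReal.ofReal (G (p.2 + tr μ p.1))
          ∂((volume : Measure UnitAddCircle).prod (volume : Measure (Tor n))) :=
      ((psi_mp μ).lintegral_comp hm).symm
    rw [e1, lintegral_prod_symm' (fun p : UnitAddCircle × Tor n => ENNReal.ofReal (G (p.2 + tr μ p.1)))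
      (hm.comp (psi_mp μ).measurable)]
    have e2 : ∀ x : Tor n, ∫⁻ t : UnitAddCircle, ENNReal.ofReal (G (x + tr μ t)) ≤ ENNReal.ofReal L := by
      intro x
      have hi : Integrable (fun t : UnitAddCircle => G (x + tr μ t)) := by
        have : (fun t : UnitAddCircle => G (x + tr μ t)) =
            fun t => L - log ‖(pol μ o P x).eval (ee t)‖ := by
          funext t; simp only [hG]; rw [pol_norm ho]
        rw [this]
        exact (integrable_const _).sub (integrable_log_poly _)
      rw [← ofReal_integral_eq_lintegral_ofReal hi (Filter.Eventually.of_forall fun t => hG0 _)]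
      apply ENNReal.ofReal_le_ofReal
      have : (fun t : UnitAddCircle => G (x + tr μ t)) =
            fun t => L - log ‖(pol μ o P x).eval (ee t)‖ := by
          funext t; simp only [hG]; rw [pol_norm ho]
      rw [this, integral_sub (integrable_const _) (integrable_log_poly _)]
      have h2 := log_coeff_zero_le (pol μ o P x) (by
        intro h0; have := h1 x; rw [h0, norm_zero] at this; linarith)
      have h3 : 0 ≤ log ‖(pol μ o P x).coeff 0‖ := log_nonneg (h1 x)
      simp only [integral_const, probReal_univ, one_smul]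
      linarith
    have e3 : ∫⁻ x : Tor n, ∫⁻ t : UnitAddCircle, ENNReal.ofReal (G (x + tr μ t)) ≤
        ∫⁻ _ : Tor n, ENNReal.ofReal L := lintegral_mono e2
    refine ne_top_of_le_ne_top ?_ e3
    simp
  have : (fun x : Tor n => log ‖evT x P‖) = fun x => L - G x := by
    funext x; simp [hG]
  rw [this]
  exact (integrable_const _).sub hGint

/-- the translation formula -/
lemma translation_integral (μ : Fin n → ℤ) {F : Tor n → ℝ} (hF : Integrable F) :
    Integrable (fun x : Tor n => ∫ t : UnitAddCircle, F (x + tr μ t)) ∧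
    ∫ x : Tor n, F x = ∫ x : Tor n, ∫ t : UnitAddCircle, F (x + tr μ t) := by
  have hi : Integrable (fun p : UnitAddCircle × Tor n => F (p.2 + tr μ p.1))
      ((volume : Measure UnitAddCircle).prod (volume : Measure (Tor n))) := by
    have := (psi_mp μ).integrable_comp hF.aestronglyMeasurable
    exact this.mpr hF
  refine ⟨hi.integral_prod_right, ?_⟩
  have e1 : ∫ p : UnitAddCircle × Tor n, F (p.2 + tr μ p.1)
      ∂((volume : Measure UnitAddCircle).prod (volume : Measure (Tor n))) = ∫ x : Tor n, F x := by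
    have h2 : AEStronglyMeasurable F (Measure.map (fun p : UnitAddCircle × Tor n => p.2 + tr μ p.1)
        ((volume : Measure UnitAddCircle).prod (volume : Measure (Tor n)))) := by
      rw [(psi_mp μ).map_eq]; exact hF.aestronglyMeasurable
    have := integral_map (psi_mp μ).measurable.aemeasurable h2
    rw [(psi_mp μ).map_eq] at this
    exact this.symm
  rw [← e1, integral_prod_symm _ hi]

/-- logarithmic Mahler measure on the torus -/
noncomputable def mT (P : MvPolynomial (Fin n) ℤ) : ℝ := ∫ x : Tor n, log ‖evT x P‖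

lemma mT_nonneg (P : MvPolynomial (Fin n) ℤ) (hP : P ≠ 0) : 0 ≤ mT P := by
  obtain ⟨μ, o, ho, h1⟩ := exists_generic P hP
  unfold mT
  rw [(translation_integral μ (integrable_log_evT P hP)).2]
  refine integral_nonneg fun x => ?_
  have : (fun t : UnitAddCircle => log ‖evT (x + tr μ t) P‖) =
      fun t => log ‖(pol μ o P x).eval (ee t)‖ := by
    funext t; rw [pol_norm ho]
  simp only [Pi.zero_apply]
  rw [this]
  have h2 := log_coeff_zero_le (pol μ o P x) (by
        intro h0; have := h1 x; rw [h0, norm_zero] at this; linarith)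
  have h3 : 0 ≤ log ‖(pol μ o P x).coeff 0‖ := log_nonneg (h1 x)
  linarith

end Pool.Agent.Work.MP_417103_nt
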