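import Mathlib
import Pool.Agent.Work.MP_417103_nt.Torus

set_option autoImplicit false

namespace Pool.Agent.Work.MP_417103_nt

open MeasureTheory Real

variable {n : ℕ}

/-- the squared weighted norm of a pair of polynomials at a point of the torus -/
noncomputable def sq2 (τ : ℝ) (A B : MvPolynomial (Fin n) ℤ) (x : Tor n) : ℝ :=
  ‖evT x A‖ ^ 2 + τ ^ 2 * ‖evT x B‖ ^ 2

/-- the average logarithmic size of a pair -/
noncomputable def nn (τ : ℝ) (A B : MvPolynomial (Fin n) ℤ) : ℝ :=
  ∫ x : Tor n, log (sq2 τ A B x) / 2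

lemma sq2_continuous (τ : ℝ) (A B : MvPolynomial (Fin n) ℤ) : Continuous (sq2 τ A B) := by
  unfold sq2
  exact ((evT_continuous A).norm.pow 2).add (continuous_const.mul ((evT_continuous B).norm.pow 2))

lemma sq2_nonneg (τ : ℝ) (A B : MvPolynomial (Fin n) ℤ) (x : Tor n) : 0 ≤ sq2 τ A B x := by
  unfold sq2; positivity

lemma two_log_le (τ : ℝ) (A B : MvPolynomial (Fin n) ℤ) {x : Tor n} (hx : evT x A ≠ 0) :
    log ‖evT x A‖ ≤ log (sq2 τ A B x) / 2 := by
  have hp : 0 < ‖evT x A‖ := norm_pos_iff.mpr hx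
  have h1 : 2 * log ‖evT x A‖ = log (‖evT x A‖ ^ 2) := by rw [log_pow]; norm_num
  have h2 : log (‖evT x A‖ ^ 2) ≤ log (sq2 τ A B x) := by
    apply log_le_log (by positivity)
    unfold sq2
    have : 0 ≤ τ ^ 2 * ‖evT x B‖ ^ 2 := by positivity
    linarith
  linarith

lemma sq2_pos (τ : ℝ) (A B : MvPolynomial (Fin n) ℤ) {x : Tor n} (hx : evT x A ≠ 0) :
    0 < sq2 τ A B x := by
  have hp : 0 < ‖evT x A‖ := norm_pos_iff.mpr hx
  unfold sq2
  positivity

lemma integrable_nn (τ : ℝ) (A B : MvPolynomial (Fin n) ℤ) (hA : A ≠ 0) :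
    Integrable (fun x : Tor n => log (sq2 τ A B x) / 2) := by
  obtain ⟨C1, hC1, h1⟩ := evT_bound A
  obtain ⟨C2, hC2, h2⟩ := evT_bound B
  refine integrable_of_between (L := fun x => log ‖evT x A‖)
    (C := log (C1 ^ 2 + τ ^ 2 * C2 ^ 2) / 2) ?_ (integrable_log_evT A hA) ?_ ?_
  · exact ((sq2_continuous τ A B).measurable.log.div_const 2).aestronglyMeasurable
  · filter_upwards [ae_evT_ne_zero A hA] with x hx
    exact two_log_le τ A B hx
  · filter_upwards [ae_evT_ne_zero A hA] with x hx
    have hp := sq2_pos τ A B hx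
    have : sq2 τ A B x ≤ C1 ^ 2 + τ ^ 2 * C2 ^ 2 := by
      unfold sq2
      have e1 := h1 x
      have e2 := h2 x
      gcongr
    have := log_le_log hp this
    linarith

lemma mT_le_nn (τ : ℝ) (A B : MvPolynomial (Fin n) ℤ) (hA : A ≠ 0) : mT A ≤ nn τ A B := by
  unfold mT nn
  apply integral_mono_ae (integrable_log_evT A hA) (integrable_nn τ A B hA)
  filter_upwards [ae_evT_ne_zero A hA] with x hx
  exact two_log_le τ A B hx

lemma nn_nonneg (τ : ℝ) (A B : MvPolynomial (Fin n) ℤ) (hA : A ≠ 0) : 0 ≤ nn τ A B :=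
  (mT_nonneg A hA).trans (mT_le_nn τ A B hA)

lemma nn_mul (τ : ℝ) (C A B : MvPolynomial (Fin n) ℤ) (hC : C ≠ 0) (hA : A ≠ 0) :
    nn τ (C * A) (C * B) = mT C + nn τ A B := by
  unfold nn mT
  rw [← integral_add (integrable_log_evT C hC) (integrable_nn τ A B hA)]
  apply integral_congr_ae
  filter_upwards [ae_evT_ne_zero A hA, ae_evT_ne_zero C hC] with x hx hc
  have hcp : 0 < ‖evT x C‖ := norm_pos_iff.mpr hc
  have h1 : sq2 τ (C * A) (C * B) x = ‖evT x C‖ ^ 2 * sq2 τ A B x := by
    unfold sq2
    rw [map_mul, map_mul, norm_mul, norm_mul]; ring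
  rw [h1, log_mul (by positivity) (sq2_pos τ A B hx).ne', log_pow]
  push_cast
  ring

/-- tangent line inequality for `log (1 + exp y)` -/
lemma softplus_tangent (y y0 : ℝ) :
    log (1 + exp y0) + (exp y0 / (1 + exp y0)) * (y - y0) ≤ log (1 + exp y) := by
  have h0 : 0 < 1 + exp y0 := by positivity
  set p := exp y0 / (1 + exp y0) with hp
  have hp0 : 0 ≤ p := by positivity
  have hp1 : 1 - p = 1 / (1 + exp y0) := by rw [hp]; field_simp; ring
  have hp1' : 0 ≤ 1 - p := by rw [hp1]; positivity
  have hc := convexOn_exp.2 (Set.mem_univ 0) (Set.mem_univ (y - y0)) hp1' hp0 (by ring)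
  simp only [smul_eq_mul, mul_zero, zero_add, exp_zero, mul_one] at hc
  have h1 : (1 - p) + p * exp (y - y0) = (1 + exp y) / (1 + exp y0) := by
    rw [hp1, hp, exp_sub]
    field_simp
  rw [h1] at hc
  have h2 := log_le_log (exp_pos _) hc
  rw [log_exp, log_div (by positivity) h0.ne'] at h2
  linarith

/-- Behaviour of `nn` under passing to the lowest parts for integer weights. -/
theorem face_jump_int (τ : ℝ) (hτ : 0 < τ) (A B : MvPolynomial (Fin n) ℤ) (μ : Fin n → ℤ) (oA oB : ℤ)
    (hoA : ∀ a ∈ A.support, oA ≤ zwt μ a) (hoB : ∀ a ∈ B.support, oB ≤ zwt μ a)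
    (hA0 : part μ oA A ≠ 0) :
    nn τ (part μ oA A) (part μ oB B) ≤ nn τ A B ∧
    (part μ oA A * B ≠ A * part μ oB B →
      nn τ (part μ oA A) (part μ oB B) +
        log (1 + τ ^ 2 * exp (-4 * nn τ (part μ oA A) (part μ oB B))) / 2 ≤ nn τ A B) := by
  classical
  set A0 := part μ oA A with hA0def
  set B0 := part μ oB B with hB0def
  have hA : A ≠ 0 := by
    rintro rfl
    apply hA0
    ext a
    rw [hA0def]
    unfold part
    rw [coeff_flt]
    simp
  have hF := integrable_nn τ A B hA
  obtain ⟨hI, hE⟩ := translation_integral μ hF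
  -- the inner integral as an integral of one variable polynomials
  have hinner : ∀ x : Tor n, ∫ t : UnitAddCircle, log (sq2 τ A B (x + tr μ t)) / 2 =
      (∫ t : UnitAddCircle, log (‖(pol μ oA A x).eval (ee t)‖ ^ 2 +
        ‖(Polynomial.C (τ : ℂ) * pol μ oB B x).eval (ee t)‖ ^ 2)) / 2 := by
    intro x
    rw [← integral_div]
    congr 1
    funext t
    unfold sq2
    rw [pol_norm hoA, pol_norm hoB, Polynomial.eval_mul, Polynomial.eval_C, norm_mul, mul_pow,
      Complex.norm_real, Real.norm_of_nonneg hτ.le]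
  have hf0 : ∀ x, (pol μ oA A x).coeff 0 = evT x A0 := by
    intro x
    rw [pol_coeff hoA, hA0def]; simp
  have hg0 : ∀ x, (Polynomial.C (τ : ℂ) * pol μ oB B x).coeff 0 = τ * evT x B0 := by
    intro x
    rw [Polynomial.coeff_C_mul, pol_coeff hoB, hB0def]; simp
  have hN2 : ∀ x, ‖(pol μ oA A x).coeff 0‖ ^ 2 + ‖(Polynomial.C (τ : ℂ) * pol μ oB B x).coeff 0‖ ^ 2
      = sq2 τ A0 B0 x := by
    intro x
    rw [hf0, hg0, norm_mul, mul_pow, Complex.norm_real, Real.norm_of_nonneg hτ.le]
    rfl
  set D : ℕ → MvPolynomial (Fin n) ℤ := fun k =>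
    A0 * part μ (oB + k) B - part μ (oA + k) A * B0 with hD
  have hDx : ∀ x (k : ℕ), (pol μ oA A x).coeff 0 * (Polynomial.C (τ : ℂ) * pol μ oB B x).coeff k -
      (pol μ oA A x).coeff k * (Polynomial.C (τ : ℂ) * pol μ oB B x).coeff 0 = τ * evT x (D k) := by
    intro x k
    rw [hf0, hg0, Polynomial.coeff_C_mul, pol_coeff hoA, pol_coeff hoB, hD]
    simp only [map_sub, map_mul]
    ring
  have key : ∀ k : ℕ, (∀ i, i < k → D i = 0) → ∀ x : Tor n, evT x A0 ≠ 0 →
      log (sq2 τ A0 B0 x + τ ^ 2 * ‖evT x (D k)‖ ^ 2 / sq2 τ A0 B0 x) / 2 ≤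
      ∫ t : UnitAddCircle, log (sq2 τ A B (x + tr μ t)) / 2 := by
    intro k hk x hx
    rw [hinner]
    have := wedge_gain (pol μ oA A x) (Polynomial.C (τ : ℂ) * pol μ oB B x) k 
      (by
        intro i hi
        have h1 := hDx x i
        rw [hk i hi, map_zero, mul_zero] at h1
        exact sub_eq_zero.mp h1) (by rw [hf0]; exact hx)
    rw [hN2, hDx, norm_mul, mul_pow, Complex.norm_real, Real.norm_of_nonneg hτ.le] at this
    linarith
  have hI0 := integrable_nn τ A0 B0 hA0
  constructor
  · have hlow : ∀ᵐ x : Tor n, log (sq2 τ A0 B0 x) / 2 ≤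
        ∫ t : UnitAddCircle, log (sq2 τ A B (x + tr μ t)) / 2 := by
      filter_upwards [ae_evT_ne_zero A0 hA0] with x hx
      have h1 := key 1 (by
        intro i hi
        have : i = 0 := by omega
        subst this
        simp only [hD, Nat.cast_zero, add_zero, ← hA0def, ← hB0def, sub_self]) x hx
      refine le_trans ?_ h1
      have hp := sq2_pos τ A0 B0 hx
      have h2 : log (sq2 τ A0 B0 x) ≤ log (sq2 τ A0 B0 x + τ ^ 2 * ‖evT x (D 1)‖ ^ 2 / sq2 τ A0 B0 x) := by
        apply log_le_log hp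
        have : 0 ≤ τ ^ 2 * ‖evT x (D 1)‖ ^ 2 / sq2 τ A0 B0 x := by positivity
        linarith
      linarith
    unfold nn at *
    rw [hE]
    exact integral_mono_ae hI0 hI hlow
  · intro hne
    have hex : ∃ k, D k ≠ 0 := by
      by_contra hall
      push Not at hall
      apply hne
      -- A0 * B = A * B0 since all graded pieces agree
      have hA_sum : ∀ (o : ℤ) (P : MvPolynomial (Fin n) ℤ), (∀ a ∈ P.support, o ≤ zwt μ a) →
          ∃ K : ℕ, P = ∑ k ∈ Finset.range K, part μ (o + k) P ∧
            ∀ K', K ≤ K' → P = ∑ k ∈ Finset.range K', part μ (o + k) P := by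
        intro o P ho
        obtain ⟨K, hK⟩ : ∃ K : ℕ, ∀ a ∈ P.support, (zwt μ a - o).toNat < K := by
          refine ⟨(P.support.sup fun a => (zwt μ a - o).toNat) + 1, fun a ha => ?_⟩
          exact Nat.lt_succ_of_le (Finset.le_sup (f := fun a => (zwt μ a - o).toNat) ha)
        have h : ∀ K', K ≤ K' → P = ∑ k ∈ Finset.range K', part μ (o + k) P := by
          intro K' hK'
          ext a
          rw [MvPolynomial.coeff_sum]
          unfold part
          simp only [coeff_flt]
          by_cases ha : a ∈ P.support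
          · rw [Finset.sum_eq_single (zwt μ a - o).toNat]
            · have h1 : ((zwt μ a - o).toNat : ℤ) = zwt μ a - o :=
                Int.toNat_of_nonneg (by linarith [ho a ha])
              rw [h1]; simp
            · intro b _ hb
              rw [if_neg]
              intro h2
              apply hb
              have h1 : ((zwt μ a - o).toNat : ℤ) = zwt μ a - o :=
                Int.toNat_of_nonneg (by linarith [ho a ha])
              have : (b : ℤ) = ((zwt μ a - o).toNat : ℤ) := by rw [h1, h2]; ring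
              exact_mod_cast this
            · intro h2
              exact absurd (Finset.mem_range.mpr ((hK a ha).trans_le hK')) h2
          · have h0 : P.coeff a = 0 := MvPolynomial.notMem_support_iff.mp ha
            simp [h0]
        exact ⟨K, h K le_rfl, h⟩
      obtain ⟨K1, _, h1⟩ := hA_sum oA A hoA
      obtain ⟨K2, _, h2⟩ := hA_sum oB B hoB
      have e1 := h1 (max K1 K2) (le_max_left _ _)
      have e2 := h2 (max K1 K2) (le_max_right _ _)
      have e3 : A0 * B = ∑ k ∈ Finset.range (max K1 K2), A0 * part μ (oB + k) B := by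
        rw [← Finset.mul_sum, ← e2]
      have e4 : A * B0 = ∑ k ∈ Finset.range (max K1 K2), part μ (oA + k) A * B0 := by
        rw [← Finset.sum_mul, ← e1]
      rw [e3, e4]
      refine Finset.sum_congr rfl fun k _ => ?_
      exact sub_eq_zero.mp (hall k)
    set k := Nat.find hex with hk
    have hDk : D k ≠ 0 := Nat.find_spec hex
    have hlt : ∀ i, i < k → D i = 0 := by
      intro i hi
      by_contra h
      exact Nat.find_min hex hi h
    set N0 := nn τ A0 B0 with hN0
    set y0 : ℝ := 2 * log τ - 4 * N0 with hy0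
    have hexp : exp y0 = τ ^ 2 * exp (-4 * N0) := by
      have h1 : exp (2 * log τ) = τ ^ 2 := by
        rw [show (2 : ℝ) * log τ = log (τ ^ 2) by rw [log_pow]; norm_num, exp_log (by positivity)]
      rw [hy0, sub_eq_add_neg, exp_add, h1]
      congr 1
      ring_nf
    set p := exp y0 / (1 + exp y0) with hp
    have hp0 : 0 ≤ p := by positivity
    have hlow : ∀ᵐ x : Tor n, log (sq2 τ A0 B0 x) / 2 +
        (log (1 + exp y0) + p * ((2 * log τ + 2 * log ‖evT x (D k)‖ - 4 * (log (sq2 τ A0 B0 x) / 2)) - y0)) / 2 ≤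
        ∫ t : UnitAddCircle, log (sq2 τ A B (x + tr μ t)) / 2 := by
      filter_upwards [ae_evT_ne_zero A0 hA0, ae_evT_ne_zero (D k) hDk] with x hx hdx
      refine le_trans ?_ (key k hlt x hx)
      have hq := sq2_pos τ A0 B0 hx
      have hdp : 0 < ‖evT x (D k)‖ := norm_pos_iff.mpr hdx
      set q := sq2 τ A0 B0 x with hqdef
      set d := ‖evT x (D k)‖ with hddef
      have e1 : q + τ ^ 2 * d ^ 2 / q = q * (1 + exp (2 * log τ + 2 * log d - 4 * (log q / 2))) := by
        have : exp (2 * log τ + 2 * log d - 4 * (log q / 2)) = τ ^ 2 * d ^ 2 / q ^ 2 := by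
          have h1 : 2 * log τ + 2 * log d - 4 * (log q / 2) = log (τ ^ 2 * d ^ 2 / q ^ 2) := by
            rw [log_div (by positivity) (by positivity), log_mul (by positivity) (by positivity),
              log_pow, log_pow, log_pow]
            push_cast
            ring
          rw [h1, exp_log (by positivity)]
        rw [this]
        field_simp
      rw [e1, log_mul hq.ne' (by positivity)]
      have := softplus_tangent (2 * log τ + 2 * log d - 4 * (log q / 2)) y0
      rw [← hp] at this
      linarith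
    have hID := integrable_log_evT (D k) hDk
    have hint : Integrable (fun x : Tor n => log (sq2 τ A0 B0 x) / 2 +
        (log (1 + exp y0) + p * ((2 * log τ + 2 * log ‖evT x (D k)‖ - 4 * (log (sq2 τ A0 B0 x) / 2)) - y0)) / 2) := by
      refine hI0.add (Integrable.div_const ?_ 2)
      refine (integrable_const _).add (Integrable.const_mul ?_ p)
      exact (((integrable_const _).add (hID.const_mul 2)).sub (hI0.const_mul 4)).sub (integrable_const _)
    have h1 : ∫ x : Tor n, (log (sq2 τ A0 B0 x) / 2 +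
        (log (1 + exp y0) + p * ((2 * log τ + 2 * log ‖evT x (D k)‖ - 4 * (log (sq2 τ A0 B0 x) / 2)) - y0)) / 2)
        = N0 + (log (1 + exp y0) + p * ((2 * log τ + 2 * mT (D k) - 4 * N0) - y0)) / 2 := by
      have hfun : (fun x : Tor n => (log (sq2 τ A0 B0 x) / 2 +
          (log (1 + exp y0) + p * ((2 * log τ + 2 * log ‖evT x (D k)‖ - 4 * (log (sq2 τ A0 B0 x) / 2)) - y0)) / 2))
          = fun x => (1 - 2 * p) * (log (sq2 τ A0 B0 x) / 2) +
            (p * log ‖evT x (D k)‖ + (log (1 + exp y0) + p * (2 * log τ - y0)) / 2) := by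
        funext x; ring
      have i1 : Integrable (fun x : Tor n => (1 - 2 * p) * (log (sq2 τ A0 B0 x) / 2)) := hI0.const_mul _
      have i2 : Integrable (fun x : Tor n => p * log ‖evT x (D k)‖) := hID.const_mul _
      have i3 : Integrable (fun _ : Tor n => (log (1 + exp y0) + p * (2 * log τ - y0)) / 2) :=
        integrable_const _
      have i4 : Integrable (fun x : Tor n => p * log ‖evT x (D k)‖ +
          (log (1 + exp y0) + p * (2 * log τ - y0)) / 2) := i2.add i3
      rw [hfun, integral_add i1 i4, integral_add i2 i3, integral_const_mul, integral_const_mul]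
      simp only [integral_const, probReal_univ, one_smul]
      have e1 : ∫ x : Tor n, log (sq2 τ A0 B0 x) / 2 = N0 := rfl
      have e2 : ∫ x : Tor n, log ‖evT x (D k)‖ = mT (D k) := rfl
      rw [e1, e2]
      ring
    have h2 : N0 + (log (1 + exp y0) + p * ((2 * log τ + 2 * mT (D k) - 4 * N0) - y0)) / 2 ≤ nn τ A B := by
      rw [← h1]
      unfold nn
      rw [hE]
      exact integral_mono_ae hint hI hlow
    have h3 : 0 ≤ p * ((2 * log τ + 2 * mT (D k) - 4 * N0) - y0) := by
      apply mul_nonneg hp0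
      rw [hy0]
      have := mT_nonneg (D k) hDk
      linarith
    rw [← hexp]
    linarith

end Pool.Agent.Work.MP_417103_nt
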