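import Mathlib
import Pool.Agent.Work.MP_417103_nt.Torus

set_option autoImplicit false

namespace Pool.Agent.Work.MP_417103_nt

open Real MvPolynomial

variable {n : ℕ}

/-- the space of real weights -/
abbrev Vn (n : ℕ) := EuclideanSpace ℝ (Fin n)

/-- real weight of an exponent -/
noncomputable def wt (μ : Vn n) (a : Fin n →₀ ℕ) : ℝ := ∑ i, μ i * (a i : ℝ)

lemma wt_add (μ : Vn n) (a b : Fin n →₀ ℕ) : wt μ (a + b) = wt μ a + wt μ b := by
  unfold wt
  rw [← Finset.sum_add_distrib]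
  refine Finset.sum_congr rfl fun i _ => ?_
  rw [Finsupp.add_apply]; push_cast; ring

lemma wt_add_left (μ ν : Vn n) (a : Fin n →₀ ℕ) : wt (μ + ν) a = wt μ a + wt ν a := by
  unfold wt
  rw [← Finset.sum_add_distrib]
  refine Finset.sum_congr rfl fun i _ => ?_
  rw [PiLp.add_apply]; ring

lemma wt_smul (c : ℝ) (μ : Vn n) (a : Fin n →₀ ℕ) : wt (c • μ) a = c * wt μ a := by
  unfold wt
  rw [Finset.mul_sum]
  refine Finset.sum_congr rfl fun i _ => ?_
  rw [PiLp.smul_apply, smul_eq_mul]; ring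

lemma wt_neg (μ : Vn n) (a : Fin n →₀ ℕ) : wt (-μ) a = - wt μ a := by
  have := wt_smul (-1) μ a
  simpa using this

lemma wt_continuous (a : Fin n →₀ ℕ) : Continuous fun μ : Vn n => wt μ a := by
  unfold wt
  refine continuous_finsetSum _ fun i _ => ?_
  exact (EuclideanSpace.proj i).continuous.mul continuous_const

lemma wt_bound (μ : Vn n) (a : Fin n →₀ ℕ) : |wt μ a| ≤ ‖μ‖ * ∑ i, (a i : ℝ) := by
  unfold wt
  rw [Finset.mul_sum]
  refine (Finset.abs_sum_le_sum_abs _ _).trans (Finset.sum_le_sum fun i _ => ?_)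
  rw [abs_mul, abs_of_nonneg (Nat.cast_nonneg (a i) : (0 : ℝ) ≤ (a i : ℝ))]
  apply mul_le_mul_of_nonneg_right _ (Nat.cast_nonneg _)
  have := PiLp.norm_apply_le μ i
  simpa using this

/-- order of a polynomial for a real weight -/
noncomputable def ord (μ : Vn n) (P : MvPolynomial (Fin n) ℤ) : ℝ := by
  classical
  exact if h : P.support.Nonempty then P.support.inf' h (wt μ) else 0

lemma ord_le {μ : Vn n} {P : MvPolynomial (Fin n) ℤ} {a : Fin n →₀ ℕ} (ha : a ∈ P.support) :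
    ord μ P ≤ wt μ a := by
  unfold ord
  rw [dif_pos ⟨a, ha⟩]
  exact Finset.inf'_le _ ha

lemma exists_ord {μ : Vn n} {P : MvPolynomial (Fin n) ℤ} (hP : P ≠ 0) :
    ∃ a ∈ P.support, wt μ a = ord μ P := by
  have h : P.support.Nonempty := support_nonempty.mpr hP
  unfold ord
  rw [dif_pos h]
  obtain ⟨a, ha, h2⟩ := Finset.exists_mem_eq_inf' h (wt μ)
  exact ⟨a, ha, h2.symm⟩

lemma le_ord {μ : Vn n} {P : MvPolynomial (Fin n) ℤ} (hP : P ≠ 0) {c : ℝ}
    (h : ∀ a ∈ P.support, c ≤ wt μ a) : c ≤ ord μ P := by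
  obtain ⟨a, ha, h2⟩ := exists_ord (μ := μ) hP
  rw [← h2]; exact h a ha

lemma ord_eq_of {μ : Vn n} {P : MvPolynomial (Fin n) ℤ} {a : Fin n →₀ ℕ} (ha : a ∈ P.support)
    (h : ∀ b ∈ P.support, wt μ a ≤ wt μ b) : ord μ P = wt μ a :=
  le_antisymm (ord_le ha) (le_ord (support_nonempty.mp ⟨a, ha⟩) h)

lemma ord_continuous (P : MvPolynomial (Fin n) ℤ) : Continuous fun μ : Vn n => ord μ P := by
  unfold ord
  by_cases h : P.support.Nonempty
  · simp only [dif_pos h]
    exact Continuous.finset_inf'_apply h fun a _ => wt_continuous a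
  · simp only [dif_neg h]
    exact continuous_const

/-- lowest part for a real weight -/
noncomputable def ini (μ : Vn n) (P : MvPolynomial (Fin n) ℤ) : MvPolynomial (Fin n) ℤ :=
  flt (fun a => wt μ a = ord μ P) P

lemma mem_ini {μ : Vn n} {P : MvPolynomial (Fin n) ℤ} {a : Fin n →₀ ℕ} :
    a ∈ (ini μ P).support ↔ a ∈ P.support ∧ wt μ a = ord μ P := mem_support_flt

lemma ini_ne_zero {μ : Vn n} {P : MvPolynomial (Fin n) ℤ} (hP : P ≠ 0) : ini μ P ≠ 0 := by
  obtain ⟨a, ha, h2⟩ := exists_ord (μ := μ) hP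
  exact support_nonempty.mp ⟨a, mem_ini.mpr ⟨ha, h2⟩⟩

open Classical in
lemma coeff_ini (μ : Vn n) (P : MvPolynomial (Fin n) ℤ) (a : Fin n →₀ ℕ) :
    (ini μ P).coeff a = if wt μ a = ord μ P then P.coeff a else 0 := coeff_flt _ _ _

lemma ord_ini (μ : Vn n) {P : MvPolynomial (Fin n) ℤ} (hP : P ≠ 0) : ord μ (ini μ P) = ord μ P := by
  obtain ⟨a, ha, h2⟩ := exists_ord (μ := μ) (ini_ne_zero (μ := μ) hP)
  rw [← h2]
  exact (mem_ini.mp ha).2

/-! ### multiplicativity -/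

lemma coeff_mul_low {μ : Vn n} {P Q : MvPolynomial (Fin n) ℤ} {a : Fin n →₀ ℕ}
    (h : wt μ a = ord μ P + ord μ Q) : (P * Q).coeff a = (ini μ P * ini μ Q).coeff a := by
  classical
  rw [coeff_mul, coeff_mul]
  refine Finset.sum_congr rfl fun bc hbc => ?_
  have hsum := Finset.HasAntidiagonal.mem_antidiagonal.mp hbc
  have hw : wt μ bc.1 + wt μ bc.2 = ord μ P + ord μ Q := by rw [← wt_add, hsum, h]
  rw [coeff_ini, coeff_ini]
  by_cases h1 : bc.1 ∈ P.support
  · by_cases h2 : bc.2 ∈ Q.support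
    · have e1 := ord_le (μ := μ) h1
      have e2 := ord_le (μ := μ) h2
      rw [if_pos (by linarith), if_pos (by linarith)]
    · have : Q.coeff bc.2 = 0 := notMem_support_iff.mp h2
      simp [this]
  · have : P.coeff bc.1 = 0 := notMem_support_iff.mp h1
    simp [this]

lemma coeff_ini_mul_zero {μ : Vn n} {P Q : MvPolynomial (Fin n) ℤ} {a : Fin n →₀ ℕ}
    (h : wt μ a ≠ ord μ P + ord μ Q) : (ini μ P * ini μ Q).coeff a = 0 := by
  classical
  rw [coeff_mul]
  refine Finset.sum_eq_zero fun bc hbc => ?_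
  have hsum := Finset.HasAntidiagonal.mem_antidiagonal.mp hbc
  have hw : wt μ bc.1 + wt μ bc.2 = wt μ a := by rw [← wt_add, hsum]
  rw [coeff_ini, coeff_ini]
  by_cases h1 : wt μ bc.1 = ord μ P
  · by_cases h2 : wt μ bc.2 = ord μ Q
    · exfalso; apply h; rw [← hw, h1, h2]
    · simp [h2]
  · simp [h1]

lemma coeff_mul_zero_of_lt {μ : Vn n} {P Q : MvPolynomial (Fin n) ℤ} {a : Fin n →₀ ℕ}
    (h : wt μ a < ord μ P + ord μ Q) : (P * Q).coeff a = 0 := by
  classical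
  rw [coeff_mul]
  refine Finset.sum_eq_zero fun bc hbc => ?_
  have hsum := Finset.HasAntidiagonal.mem_antidiagonal.mp hbc
  have hw : wt μ bc.1 + wt μ bc.2 = wt μ a := by rw [← wt_add, hsum]
  by_cases h1 : bc.1 ∈ P.support
  · by_cases h2 : bc.2 ∈ Q.support
    · have e1 := ord_le (μ := μ) h1
      have e2 := ord_le (μ := μ) h2
      exfalso; linarith
    · have : Q.coeff bc.2 = 0 := notMem_support_iff.mp h2
      simp [this]
  · have : P.coeff bc.1 = 0 := notMem_support_iff.mp h1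
    simp [this]

lemma ord_mul {μ : Vn n} {P Q : MvPolynomial (Fin n) ℤ} (hP : P ≠ 0) (hQ : Q ≠ 0) :
    ord μ (P * Q) = ord μ P + ord μ Q := by
  have hne : ini μ P * ini μ Q ≠ 0 := mul_ne_zero (ini_ne_zero hP) (ini_ne_zero hQ)
  obtain ⟨a, ha⟩ := support_nonempty.mpr hne
  have h1 : wt μ a = ord μ P + ord μ Q := by
    by_contra h
    exact (mem_support_iff.mp ha) (coeff_ini_mul_zero h)
  have h2 : a ∈ (P * Q).support := by
    rw [mem_support_iff, coeff_mul_low h1]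
    exact mem_support_iff.mp ha
  apply le_antisymm
  · rw [← h1]; exact ord_le h2
  · refine le_ord (mul_ne_zero hP hQ) fun b hb => ?_
    by_contra h
    push Not at h
    exact (mem_support_iff.mp hb) (coeff_mul_zero_of_lt h)

lemma ini_mul {μ : Vn n} {P Q : MvPolynomial (Fin n) ℤ} (hP : P ≠ 0) (hQ : Q ≠ 0) :
    ini μ (P * Q) = ini μ P * ini μ Q := by
  classical
  ext a
  rw [coeff_ini, ord_mul hP hQ]
  by_cases h : wt μ a = ord μ P + ord μ Q
  · rw [if_pos h, coeff_mul_low h]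
  · rw [if_neg h, coeff_ini_mul_zero h]

/-! ### constant weights -/

/-- the weight is constant on the support -/
def Cst (μ : Vn n) (P : MvPolynomial (Fin n) ℤ) : Prop :=
  ∀ a ∈ P.support, ∀ b ∈ P.support, wt μ a = wt μ b

lemma Cst.wt_eq {μ : Vn n} {P : MvPolynomial (Fin n) ℤ} (h : Cst μ P) {a : Fin n →₀ ℕ}
    (ha : a ∈ P.support) : wt μ a = ord μ P := by
  obtain ⟨b, hb, h2⟩ := exists_ord (μ := μ) (support_nonempty.mp ⟨a, ha⟩)
  rw [← h2]; exact h a ha b hb

lemma Cst.ini_eq {μ : Vn n} {P : MvPolynomial (Fin n) ℤ} (h : Cst μ P) : ini μ P = P := by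
  classical
  ext a
  rw [coeff_ini]
  by_cases ha : a ∈ P.support
  · rw [if_pos (h.wt_eq ha)]
  · have : P.coeff a = 0 := notMem_support_iff.mp ha
    simp [this]

lemma cst_ini (μ : Vn n) (P : MvPolynomial (Fin n) ℤ) : Cst μ (ini μ P) := by
  intro a ha b hb
  rw [(mem_ini.mp ha).2, (mem_ini.mp hb).2]

lemma Cst.ini {μ ν : Vn n} {P : MvPolynomial (Fin n) ℤ} (h : Cst ν P) : Cst ν (ini μ P) := by
  intro a ha b hb
  exact h a (mem_ini.mp ha).1 b (mem_ini.mp hb).1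

lemma ord_neg_of_cst {μ : Vn n} {P : MvPolynomial (Fin n) ℤ} (h : Cst μ P) :
    ord (-μ) P = - ord μ P := by
  rcases eq_or_ne P 0 with rfl | hP
  · simp [ord]
  · obtain ⟨a, ha, h2⟩ := exists_ord (μ := μ) hP
    rw [← h2, ← wt_neg]
    refine ord_eq_of ha fun b hb => ?_
    rw [wt_neg, wt_neg, h a ha b hb]

lemma ord_add_neg_le (μ : Vn n) {P : MvPolynomial (Fin n) ℤ} (hP : P ≠ 0) :
    ord μ P + ord (-μ) P ≤ 0 := by
  obtain ⟨a, ha⟩ := support_nonempty.mpr hP
  have h1 := ord_le (μ := μ) ha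
  have h2 := ord_le (μ := -μ) ha
  rw [wt_neg] at h2
  linarith

lemma cst_of_ord_add_neg {μ : Vn n} {P : MvPolynomial (Fin n) ℤ}
    (h : 0 ≤ ord μ P + ord (-μ) P) : Cst μ P := by
  intro a ha b hb
  have h1 := ord_le (μ := μ) ha
  have h2 := ord_le (μ := μ) hb
  have h3 := ord_le (μ := -μ) ha
  have h4 := ord_le (μ := -μ) hb
  rw [wt_neg] at h3 h4
  linarith

lemma Cst.of_mul {μ : Vn n} {P Q : MvPolynomial (Fin n) ℤ} (hP : P ≠ 0) (hQ : Q ≠ 0)
    (h : Cst μ (P * Q)) : Cst μ P ∧ Cst μ Q := by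
  have h1 := ord_neg_of_cst h
  rw [ord_mul hP hQ, ord_mul hP hQ] at h1
  have h2 := ord_add_neg_le μ hP
  have h3 := ord_add_neg_le μ hQ
  exact ⟨cst_of_ord_add_neg (by linarith), cst_of_ord_add_neg (by linarith)⟩

/-! ### local structure -/

lemma local_structure (μ : Vn n) (P : MvPolynomial (Fin n) ℤ) (hP : P ≠ 0) :
    ∃ ε : ℝ, 0 < ε ∧ ∀ ν : Vn n, ‖ν‖ < ε →
      ord (μ + ν) P = ord μ P + ord ν (ini μ P) ∧ ini (μ + ν) P = ini ν (ini μ P) := by
  classical
  -- bound on exponents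
  obtain ⟨M, hM0, hM⟩ : ∃ M : ℝ, 0 < M ∧ ∀ a ∈ P.support, ∑ i, (a i : ℝ) ≤ M := by
    refine ⟨∑ a ∈ P.support, ∑ i, (a i : ℝ) + 1, ?_, fun a ha => ?_⟩
    · have : 0 ≤ ∑ a ∈ P.support, ∑ i, (a i : ℝ) :=
        Finset.sum_nonneg fun a _ => Finset.sum_nonneg fun i _ => Nat.cast_nonneg _
      linarith
    · have := Finset.single_le_sum (f := fun a : Fin n →₀ ℕ => ∑ i, (a i : ℝ))
        (fun a _ => Finset.sum_nonneg fun i _ => Nat.cast_nonneg _) ha
      linarith
  -- gap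
  obtain ⟨g, hg0, hg⟩ : ∃ g : ℝ, 0 < g ∧ ∀ a ∈ P.support, wt μ a ≠ ord μ P → ord μ P + g ≤ wt μ a := by
    by_cases hne : (P.support.filter fun a => wt μ a ≠ ord μ P).Nonempty
    · obtain ⟨a0, ha0, hmin⟩ := Finset.exists_min_image _ (fun a => wt μ a - ord μ P) hne
      refine ⟨wt μ a0 - ord μ P, ?_, fun a ha h => ?_⟩
      · have h1 := (Finset.mem_filter.mp ha0)
        have h2 := ord_le (μ := μ) h1.1
        have h3 : ord μ P ≠ wt μ a0 := fun h => h1.2 h.symm
        have := lt_of_le_of_ne h2 h3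
        linarith
      · have := hmin a (Finset.mem_filter.mpr ⟨ha, h⟩)
        linarith
    · refine ⟨1, one_pos, fun a ha h => ?_⟩
      exact absurd ⟨a, Finset.mem_filter.mpr ⟨ha, h⟩⟩ hne
  refine ⟨g / (2 * M), by positivity, fun ν hν => ?_⟩
  have hνM : ‖ν‖ * M < g / 2 := by
    have : ‖ν‖ * M < g / (2 * M) * M := by
      exact mul_lt_mul_of_pos_right hν hM0
    have e : g / (2 * M) * M = g / 2 := by field_simp
    linarith
  have hwt : ∀ a ∈ P.support, |wt ν a| < g / 2 := by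
    intro a ha
    refine lt_of_le_of_lt ((wt_bound ν a).trans ?_) hνM
    exact mul_le_mul_of_nonneg_left (hM a ha) (norm_nonneg _)
  have hini : ini μ P ≠ 0 := ini_ne_zero hP
  obtain ⟨b, hb, hbo⟩ := exists_ord (μ := ν) hini
  obtain ⟨hbP, hbμ⟩ := mem_ini.mp hb
  have hmin : ∀ a ∈ P.support, wt (μ + ν) b ≤ wt (μ + ν) a := by
    intro a ha
    rw [wt_add_left, wt_add_left]
    by_cases h : wt μ a = ord μ P
    · have h1 : ord ν (ini μ P) ≤ wt ν a := ord_le (mem_ini.mpr ⟨ha, h⟩)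
      rw [hbμ, h, hbo]; linarith
    · have h1 := hg a ha h
      have h2 := abs_lt.mp (hwt a ha)
      have h3 := abs_lt.mp (hwt b hbP)
      rw [hbμ]; linarith
  have hord : ord (μ + ν) P = ord μ P + ord ν (ini μ P) := by
    rw [ord_eq_of hbP hmin, wt_add_left, hbμ, hbo]
  refine ⟨hord, ?_⟩
  ext a
  rw [coeff_ini, coeff_ini, coeff_ini, hord, wt_add_left]
  by_cases ha : a ∈ P.support
  · by_cases h : wt μ a = ord μ P
    · rw [h]
      by_cases h2 : wt ν a = ord ν (ini μ P)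
      · simp [h2]
      · have h3 : ¬ (ord μ P + wt ν a = ord μ P + ord ν (ini μ P)) := fun h4 => h2 (add_left_cancel h4)
        simp [h2]
    · have h1 := hg a ha h
      have h2 := abs_lt.mp (hwt a ha)
      have h3 := abs_lt.mp (hwt b hbP)
      have h4 : ¬ (wt μ a + wt ν a = ord μ P + ord ν (ini μ P)) := by
        rw [← hbo]; intro h5; linarith
      simp [h, h4]
  · have : P.coeff a = 0 := notMem_support_iff.mp ha
    simp [this]

lemma ord_smul {μ : Vn n} {t : ℝ} (ht : 0 < t) (P : MvPolynomial (Fin n) ℤ) :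
    ord (t • μ) P = t * ord μ P := by
  rcases eq_or_ne P 0 with rfl | hP
  · simp [ord]
  · obtain ⟨a, ha, h2⟩ := exists_ord (μ := μ) hP
    rw [← h2, ← wt_smul]
    refine ord_eq_of ha fun b hb => ?_
    rw [wt_smul, wt_smul, h2]
    exact mul_le_mul_of_nonneg_left (ord_le hb) ht.le

lemma ord_zero (P : MvPolynomial (Fin n) ℤ) : ord (0 : Vn n) P = 0 := by
  rcases eq_or_ne P 0 with rfl | hP
  · simp [ord]
  · obtain ⟨a, ha, h2⟩ := exists_ord (μ := (0 : Vn n)) hP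
    rw [← h2]
    simp [wt]

end Pool.Agent.Work.MP_417103_nt
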