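import Mathlib
import Pool.Agent.Work.MP_417103_nt.Weights
import Pool.Agent.Work.MP_417103_nt.Pair

set_option autoImplicit false

namespace Pool.Agent.Work.MP_417103_nt

open Real MvPolynomial

variable {n : ℕ}

/-- Comparisons by a real weight on a finite set are realised by an integer weight. -/
lemma exists_int_weight (μ : Vn n) (S : Finset (Fin n →₀ ℕ)) :
    ∃ μ' : Fin n → ℤ, ∀ a ∈ S, ∀ b ∈ S, (wt μ a < wt μ b → zwt μ' a < zwt μ' b) ∧
      (wt μ a = wt μ b → zwt μ' a = zwt μ' b) := by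
  classical
  set W : Submodule ℚ ℝ := Submodule.span ℚ (Set.range fun i => μ i) with hW
  haveI : FiniteDimensional ℚ W := FiniteDimensional.span_of_finite ℚ (Set.finite_range _)
  set k := Module.finrank ℚ W
  set bas : Module.Basis (Fin k) ℚ W := Module.finBasis ℚ W with hbas
  have hmem : ∀ i, μ i ∈ W := fun i => Submodule.subset_span ⟨i, rfl⟩
  set q : Fin n → Fin k → ℚ := fun i j => bas.repr ⟨μ i, hmem i⟩ j with hq
  have hμ : ∀ i, μ i = ∑ j, (q i j : ℝ) * (bas j : ℝ) := by
    intro i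
    have h1 := bas.sum_repr ⟨μ i, hmem i⟩
    have h2 := congrArg (fun w : W => (w : ℝ)) h1
    simp only [Submodule.coe_sum, Submodule.coe_smul] at h2
    rw [← h2]
    refine Finset.sum_congr rfl fun j _ => ?_
    rw [Rat.smul_def]
  set F : (Fin k → ℝ) → (Fin n →₀ ℕ) → ℝ := fun r a => ∑ j, (∑ i, (q i j : ℝ) * (a i : ℝ)) * r j with hF
  have hwt : ∀ a, wt μ a = F (fun j => (bas j : ℝ)) a := by
    intro a
    unfold wt
    simp only [hF]
    have : ∀ i, μ i * (a i : ℝ) = ∑ j, (q i j : ℝ) * (a i : ℝ) * (bas j : ℝ) := by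
      intro i
      rw [hμ i, Finset.sum_mul]
      refine Finset.sum_congr rfl fun j _ => ?_
      ring
    rw [Finset.sum_congr rfl fun i _ => this i, Finset.sum_comm]
    refine Finset.sum_congr rfl fun j _ => ?_
    rw [Finset.sum_mul]
  -- equalities
  have heq : ∀ a b, wt μ a = wt μ b → ∀ r, F r a = F r b := by
    intro a b hab r
    have h0 : ∀ j, ∑ i, q i j * ((a i : ℚ) - (b i : ℚ)) = 0 := by
      have hli := bas.linearIndependent
      rw [Fintype.linearIndependent_iff] at hli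
      apply hli
      apply Subtype.ext
      rw [Submodule.coe_sum, Submodule.coe_zero]
      simp only [Submodule.coe_smul]
      have h1 : wt μ a - wt μ b = 0 := sub_eq_zero.mpr hab
      rw [hwt, hwt] at h1
      simp only [hF] at h1
      rw [← Finset.sum_sub_distrib] at h1
      rw [← h1]
      refine Finset.sum_congr rfl fun j _ => ?_
      rw [Rat.smul_def]
      push_cast
      rw [← sub_mul, ← Finset.sum_sub_distrib]
      congr 1
      refine Finset.sum_congr rfl fun i _ => ?_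
      ring
    simp only [hF]
    refine Finset.sum_congr rfl fun j _ => ?_
    have h1 := h0 j
    have h2 : (∑ i, (q i j : ℝ) * ((a i : ℝ) - (b i : ℝ))) = 0 := by exact_mod_cast h1
    have h3 : ∑ i, (q i j : ℝ) * (a i : ℝ) = ∑ i, (q i j : ℝ) * (b i : ℝ) := by
      rw [← sub_eq_zero, ← Finset.sum_sub_distrib, ← h2]
      refine Finset.sum_congr rfl fun i _ => ?_
      ring
    rw [h3]
  -- approximate
  set U : Set (Fin k → ℝ) := {r | ∀ a ∈ S, ∀ b ∈ S, wt μ a < wt μ b → F r a < F r b} with hU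
  have hFc : ∀ a, Continuous fun r => F r a := by
    intro a
    simp only [hF]
    exact continuous_finsetSum _ fun j _ => continuous_const.mul (continuous_apply j)
  have hUopen : IsOpen U := by
    have : U = ⋂ a ∈ S, ⋂ b ∈ S, {r | wt μ a < wt μ b → F r a < F r b} := by
      ext r; simp [hU]
    rw [this]
    refine isOpen_biInter_finset fun a _ => isOpen_biInter_finset fun b _ => ?_
    by_cases h : wt μ a < wt μ b
    · simp only [h, true_implies]
      exact isOpen_lt (hFc a) (hFc b)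
    · simp only [h, false_implies, Set.setOf_true, isOpen_univ]
  have hUne : U.Nonempty := by
    refine ⟨fun j => (bas j : ℝ), fun a _ b _ h => ?_⟩
    rw [← hwt, ← hwt]; exact h
  have hdense : DenseRange (fun r : Fin k → ℚ => fun j => ((r j : ℚ) : ℝ)) :=
    DenseRange.piMap (f := fun _ : Fin k => ((↑) : ℚ → ℝ)) fun _ => Rat.denseRange_cast
  obtain ⟨r, hr⟩ := hdense.exists_mem_open hUopen hUne
  -- clear denominators
  set ρ : Fin n → ℚ := fun i => ∑ j, q i j * r j with hρ
  have hFρ : ∀ a, F (fun j => ((r j : ℚ) : ℝ)) a = ((∑ i, ρ i * (a i : ℚ) : ℚ) : ℝ) := by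
    intro a
    simp only [hF, hρ]
    push_cast
    simp only [Finset.sum_mul]
    rw [Finset.sum_comm]
    refine Finset.sum_congr rfl fun i _ => Finset.sum_congr rfl fun j _ => ?_
    ring
  set N : ℕ := ∏ i, (ρ i).den with hN
  have hNpos : 0 < N := Finset.prod_pos fun i _ => (ρ i).den_pos
  have hm : ∀ i, ∃ m : ℤ, (m : ℚ) = N * ρ i := by
    intro i
    have hd : (ρ i).den ∣ N := Finset.dvd_prod_of_mem (fun i => (ρ i).den) (Finset.mem_univ i)
    obtain ⟨c, hc⟩ := hd
    refine ⟨c * (ρ i).num, ?_⟩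
    rw [hc]
    push_cast
    have h1 := Rat.mul_den_eq_num (ρ i)
    rw [← h1]; ring
  choose m hm using hm
  have hz : ∀ a, ((zwt m a : ℤ) : ℝ) = N * F (fun j => ((r j : ℚ) : ℝ)) a := by
    intro a
    rw [hFρ]
    have : ((zwt m a : ℤ) : ℚ) = N * ∑ i, ρ i * (a i : ℚ) := by
      unfold zwt
      push_cast
      rw [Finset.mul_sum]
      refine Finset.sum_congr rfl fun i _ => ?_
      rw [hm i]; ring
    exact_mod_cast congrArg (fun x : ℚ => (x : ℝ)) this
  refine ⟨m, fun a ha b hb => ⟨fun h => ?_, fun h => ?_⟩⟩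
  · have h1 := hr a ha b hb h
    have h2 : ((zwt m a : ℤ) : ℝ) < ((zwt m b : ℤ) : ℝ) := by
      rw [hz, hz]
      exact mul_lt_mul_of_pos_left h1 (by exact_mod_cast hNpos)
    exact_mod_cast h2
  · have h2 : ((zwt m a : ℤ) : ℝ) = ((zwt m b : ℤ) : ℝ) := by
      rw [hz, hz, heq a b h]
    exact_mod_cast h2

/-- lowest parts for real weights are lowest parts for integer weights -/
lemma ini_eq_part {μ : Vn n} {P : MvPolynomial (Fin n) ℤ} (hP : P ≠ 0) {μ' : Fin n → ℤ}
    (h : ∀ a ∈ P.support, ∀ b ∈ P.support, (wt μ a < wt μ b → zwt μ' a < zwt μ' b) ∧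
      (wt μ a = wt μ b → zwt μ' a = zwt μ' b)) :
    ∃ o : ℤ, (∀ a ∈ P.support, o ≤ zwt μ' a) ∧ part μ' o P = ini μ P := by
  classical
  obtain ⟨a0, ha0, h0⟩ := exists_ord (μ := μ) hP
  refine ⟨zwt μ' a0, fun a ha => ?_, ?_⟩
  · rcases lt_or_eq_of_le (h0 ▸ ord_le (μ := μ) ha : wt μ a0 ≤ wt μ a) with h1 | h1
    · exact ((h a0 ha0 a ha).1 h1).le
    · exact ((h a0 ha0 a ha).2 h1).le
  · ext a
    unfold part
    rw [coeff_flt, coeff_ini]
    by_cases ha : a ∈ P.support
    · by_cases h1 : wt μ a = ord μ P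
      · rw [if_pos h1, if_pos ((h a ha a0 ha0).2 (by rw [h1, h0]))]
      · rw [if_neg h1, if_neg]
        intro h2
        have h3 : wt μ a0 < wt μ a := by
          rw [h0]
          exact lt_of_le_of_ne (ord_le ha) (Ne.symm h1)
        have := (h a0 ha0 a ha).1 h3
        omega
    · have : P.coeff a = 0 := notMem_support_iff.mp ha
      simp [this]

/-- Behaviour of `nn` under passing to the lowest parts for real weights. -/
theorem face_jump (τ : ℝ) (hτ : 0 < τ) (A B : MvPolynomial (Fin n) ℤ) (μ : Vn n)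
    (hA : A ≠ 0) (hB : B ≠ 0) :
    nn τ (ini μ A) (ini μ B) ≤ nn τ A B ∧
    (ini μ A * B ≠ A * ini μ B →
      nn τ (ini μ A) (ini μ B) +
        log (1 + τ ^ 2 * exp (-4 * nn τ (ini μ A) (ini μ B))) / 2 ≤ nn τ A B) := by
  classical
  obtain ⟨μ', h⟩ := exists_int_weight μ (A.support ∪ B.support)
  obtain ⟨oA, hoA, eA⟩ := ini_eq_part (μ := μ) (μ' := μ') hA (fun a ha b hb =>
    h a (Finset.mem_union_left _ ha) b (Finset.mem_union_left _ hb))
  obtain ⟨oB, hoB, eB⟩ := ini_eq_part (μ := μ) (μ' := μ') hB (fun a ha b hb =>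
    h a (Finset.mem_union_right _ ha) b (Finset.mem_union_right _ hb))
  have := face_jump_int τ hτ A B μ' oA oB hoA hoB (by rw [eA]; exact ini_ne_zero hA)
  rw [eA, eB] at this
  exact this

end Pool.Agent.Work.MP_417103_nt
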