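import Mathlib
import Pool.Agent.Work.MP_417103_nt.Approx

set_option autoImplicit false

namespace Pool.Agent.Work.MP_417103_nt

open Real MvPolynomial Module

variable {n : ℕ}

/-- monotonicity of the gain -/
lemma gain_mono {τ x N : ℝ} (hx : x ≤ N) :
    log (1 + τ ^ 2 * exp (-4 * N)) / 2 ≤ log (1 + τ ^ 2 * exp (-4 * x)) / 2 := by
  have h1 : exp (-4 * N) ≤ exp (-4 * x) := exp_le_exp.mpr (by linarith)
  have h2 : τ ^ 2 * exp (-4 * N) ≤ τ ^ 2 * exp (-4 * x) := mul_le_mul_of_nonneg_left h1 (sq_nonneg τ)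
  have h3 : 0 < 1 + τ ^ 2 * exp (-4 * N) := by positivity
  have := log_le_log h3 (by linarith : 1 + τ ^ 2 * exp (-4 * N) ≤ 1 + τ ^ 2 * exp (-4 * x))
  linarith

/-- the order difference is continuous -/
noncomputable def dlt (H B : MvPolynomial (Fin n) ℤ) (μ : Vn n) : ℝ := ord μ H - ord μ B

lemma dlt_continuous (H B : MvPolynomial (Fin n) ℤ) : Continuous (dlt H B) :=
  (ord_continuous H).sub (ord_continuous B)

lemma dlt_smul (H B : MvPolynomial (Fin n) ℤ) (μ : Vn n) {t : ℝ} (ht : 0 < t) :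
    dlt H B (t • μ) = t * dlt H B μ := by
  unfold dlt
  rw [ord_smul ht, ord_smul ht]; ring

/-- not homogeneous when both order differences are positive -/
lemma jump_of_pos {H B : MvPolynomial (Fin n) ℤ} (hH : H ≠ 0) (hB : B ≠ 0) {μ : Vn n}
    (h1 : 0 < dlt H B μ) (h2 : 0 < dlt H B (-μ)) : ini μ H * B ≠ H * ini μ B := by
  intro h
  have e := congrArg (ord (-μ)) h
  rw [ord_mul (ini_ne_zero hH) hB, ord_mul hH (ini_ne_zero hB), ord_neg_of_cst (cst_ini μ H),
    ord_neg_of_cst (cst_ini μ B), ord_ini μ hH, ord_ini μ hB] at e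
  unfold dlt at h1 h2
  linarith

/-- If the order difference is positive on a subspace of dimension `r` then there are `r` jumps. -/
theorem positivity_bound (τ : ℝ) (hτ : 0 < τ) (N : ℝ) : ∀ (r : ℕ) (H B : MvPolynomial (Fin n) ℤ),
    H ≠ 0 → B ≠ 0 → ∀ E : Submodule ℝ (Vn n), finrank ℝ E = r →
    (∀ μ ∈ E, μ ≠ 0 → 0 < dlt H B μ) → nn τ H B ≤ N →
    r * (log (1 + τ ^ 2 * exp (-4 * N)) / 2) ≤ nn τ H B := by
  intro r
  induction r with
  | zero =>
    intro H B hH hB E _ _ _
    simp only [Nat.cast_zero, zero_mul]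
    exact nn_nonneg τ H B hH
  | succ r ih =>
    intro H B hH hB E hE hpos hN
    -- minimiser on the unit sphere of E
    set S : Set (Vn n) := (E : Set (Vn n)) ∩ Metric.sphere 0 1 with hS
    have hScomp : IsCompact S := by
      apply IsCompact.inter_left (isCompact_sphere _ _)
      exact Submodule.closed_of_finiteDimensional E
    have hSne : S.Nonempty := by
      have hEne : E ≠ ⊥ := by
        rintro rfl
        simp at hE
      obtain ⟨v, hv, hv0⟩ := Submodule.exists_mem_ne_zero_of_ne_bot hEne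
      refine ⟨(‖v‖⁻¹) • v, E.smul_mem _ hv, ?_⟩
      rw [mem_sphere_zero_iff_norm, norm_smul, norm_inv, norm_norm]
      exact inv_mul_cancel₀ (norm_ne_zero_iff.mpr hv0)
    obtain ⟨μ1, hμ1S, hmin⟩ := hScomp.exists_isMinOn hSne (dlt_continuous H B).continuousOn
    obtain ⟨hμ1E, hμ1n⟩ := hμ1S
    rw [mem_sphere_zero_iff_norm] at hμ1n
    have hμ1E' : μ1 ∈ E := hμ1E
    have hμ10 : μ1 ≠ 0 := by
      rintro rfl; simp at hμ1n
    set c0 := dlt H B μ1 with hc0
    have hc0pos : 0 < c0 := hpos μ1 hμ1E' hμ10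
    have hge : ∀ ν ∈ E, ν ≠ 0 → c0 * ‖ν‖ ≤ dlt H B ν := by
      intro ν hν hν0
      have hn : 0 < ‖ν‖ := norm_pos_iff.mpr hν0
      have h1 : (‖ν‖⁻¹) • ν ∈ S := by
        refine ⟨E.smul_mem _ hν, ?_⟩
        rw [mem_sphere_zero_iff_norm, norm_smul, norm_inv, norm_norm]
        exact inv_mul_cancel₀ hn.ne'
      have h2 : c0 ≤ dlt H B ((‖ν‖⁻¹) • ν) := hmin h1
      rw [dlt_smul H B ν (inv_pos.mpr hn), inv_mul_eq_div, le_div_iff₀ hn] at h2
      exact h2
    -- the next pair
    set H1 := ini μ1 H with hH1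
    set B1 := ini μ1 B with hB1
    have hH10 : H1 ≠ 0 := ini_ne_zero hH
    have hB10 : B1 ≠ 0 := ini_ne_zero hB
    set E1 : Submodule ℝ (Vn n) := (Submodule.span ℝ {μ1})ᗮ ⊓ E with hE1
    have hle : Submodule.span ℝ {μ1} ≤ E := by
      rw [Submodule.span_singleton_le_iff_mem]; exact hμ1E'
    have hfr : finrank ℝ E1 = r := by
      have h1 := Submodule.finrank_add_inf_finrank_orthogonal hle
      rw [finrank_span_singleton hμ10, hE] at h1
      rw [hE1]
      omega
    have hpos1 : ∀ ν ∈ E1, ν ≠ 0 → 0 < dlt H1 B1 ν := by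
      intro ν hν hν0
      obtain ⟨hν1, hνE⟩ := hν
      have horth : inner ℝ μ1 ν = 0 := by
        exact (Submodule.mem_orthogonal_singleton_iff_inner_right).mp hν1
      have hn : 0 < ‖ν‖ := norm_pos_iff.mpr hν0
      obtain ⟨ε1, hε1, h1⟩ := local_structure μ1 H hH
      obtain ⟨ε2, hε2, h2⟩ := local_structure μ1 B hB
      set t : ℝ := min ε1 ε2 / (2 * ‖ν‖) with ht
      have htpos : 0 < t := by
        rw [ht]
        have : 0 < min ε1 ε2 := lt_min hε1 hε2
        positivity
      have htn : ‖t • ν‖ < min ε1 ε2 := by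
        rw [norm_smul, Real.norm_of_nonneg htpos.le, ht]
        have : 0 < min ε1 ε2 := lt_min hε1 hε2
        field_simp
        linarith
      have e1 := (h1 (t • ν) (htn.trans_le (min_le_left _ _))).1
      have e2 := (h2 (t • ν) (htn.trans_le (min_le_right _ _))).1
      have e3 : dlt H B (μ1 + t • ν) = c0 + t * dlt H1 B1 ν := by
        rw [hc0, ← dlt_smul H1 B1 ν htpos]
        unfold dlt
        rw [e1, e2, hH1, hB1]; ring
      have hsum0 : μ1 + t • ν ≠ 0 := by
        intro h0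
        have : inner ℝ μ1 (μ1 + t • ν) = (0 : ℝ) := by rw [h0, inner_zero_right]
        rw [inner_add_right, inner_smul_right, horth, real_inner_self_eq_norm_sq, hμ1n] at this
        norm_num at this
      have e4 := hge (μ1 + t • ν) (E.add_mem hμ1E' (E.smul_mem _ hνE)) hsum0
      have e5 : 1 < ‖μ1 + t • ν‖ := by
        have h5 : ‖μ1 + t • ν‖ ^ 2 = 1 + t ^ 2 * ‖ν‖ ^ 2 := by
          rw [@norm_add_sq_real, inner_smul_right, horth, hμ1n, norm_smul,
            Real.norm_of_nonneg htpos.le]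
          ring
        have h6 : 0 < t ^ 2 * ‖ν‖ ^ 2 := by positivity
        by_contra h7
        push Not at h7
        have : ‖μ1 + t • ν‖ ^ 2 ≤ 1 := by
          have := norm_nonneg (μ1 + t • ν)
          nlinarith
        linarith
      have e6 : c0 < c0 * ‖μ1 + t • ν‖ := by nlinarith
      rw [e3] at e4
      have e7 : 0 < t * dlt H1 B1 ν := by linarith
      exact (mul_pos_iff_of_pos_left htpos).mp e7
    have hjump := jump_of_pos hH hB hc0pos (hpos (-μ1) (E.neg_mem hμ1E') (neg_ne_zero.mpr hμ10))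
    obtain ⟨hf1, hf2⟩ := face_jump τ hτ H B μ1 hH hB
    have hf3 := hf2 hjump
    have hN1 : nn τ H1 B1 ≤ N := hf1.trans hN
    have hi := ih H1 B1 hH10 hB10 E1 hfr hpos1 hN1
    have hg := gain_mono (τ := τ) hN1
    push_cast
    rw [add_mul, one_mul]
    linarith

end Pool.Agent.Work.MP_417103_nt
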