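import Mathlib
import Pool.Agent.Work.MP_417103_nt.Positive

set_option autoImplicit false

namespace Pool.Agent.Work.MP_417103_nt

open Real MvPolynomial Module MeasureTheory

variable {n : ℕ}

/-- the weights which are constant on both supports -/
def stab (A B : MvPolynomial (Fin n) ℤ) : Submodule ℝ (Vn n) where
  carrier := {μ | Cst μ A ∧ Cst μ B}
  add_mem' := by
    rintro μ ν ⟨h1, h2⟩ ⟨h3, h4⟩
    refine ⟨fun a ha b hb => ?_, fun a ha b hb => ?_⟩
    · rw [wt_add_left, wt_add_left, h1 a ha b hb, h3 a ha b hb]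
    · rw [wt_add_left, wt_add_left, h2 a ha b hb, h4 a ha b hb]
  zero_mem' := by
    refine ⟨fun a _ b _ => ?_, fun a _ b _ => ?_⟩ <;> simp [wt]
  smul_mem' := by
    rintro c μ ⟨h1, h2⟩
    refine ⟨fun a ha b hb => ?_, fun a ha b hb => ?_⟩
    · rw [wt_smul, wt_smul, h1 a ha b hb]
    · rw [wt_smul, wt_smul, h2 a ha b hb]

lemma mem_stab {A B : MvPolynomial (Fin n) ℤ} {μ : Vn n} : μ ∈ stab A B ↔ Cst μ A ∧ Cst μ B := Iff.rfl

/-- a polynomial dividing its own lowest part is homogeneous -/
lemma cst_of_dvd_ini {A : MvPolynomial (Fin n) ℤ} (hA : A ≠ 0) {μ : Vn n} (h : A ∣ ini μ A) :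
    Cst μ A := by
  obtain ⟨q, hq⟩ := h
  have hini : ini μ A ≠ 0 := ini_ne_zero hA
  have hq0 : q ≠ 0 := by
    rintro rfl
    rw [mul_zero] at hq
    exact hini hq
  have e1 : ord μ A = ord μ A + ord μ q := by
    have := congrArg (ord μ) hq
    rwa [ord_ini μ hA, ord_mul hA hq0] at this
  have e2 : - ord μ A = ord (-μ) A + ord (-μ) q := by
    have := congrArg (ord (-μ)) hq
    rwa [ord_neg_of_cst (cst_ini μ A), ord_ini μ hA, ord_mul hA hq0] at this
  have e3 := ord_add_neg_le μ hq0
  exact cst_of_ord_add_neg (by linarith)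

lemma cst_of_relprime {A B : MvPolynomial (Fin n) ℤ} (hA : A ≠ 0) (hB : B ≠ 0)
    (hAB : IsRelPrime A B) {μ : Vn n} (h : ini μ A * B = A * ini μ B) : μ ∈ stab A B := by
  constructor
  · apply cst_of_dvd_ini hA
    have h1 : A ∣ ini μ A * B := ⟨ini μ B, h⟩
    exact hAB.dvd_of_dvd_mul_right h1
  · apply cst_of_dvd_ini hB
    have h1 : B ∣ A * ini μ B := ⟨ini μ A, by rw [← h]; ring⟩
    exact hAB.symm.dvd_of_dvd_mul_left h1

/-- size of the derived pair -/
lemma nn_derived (τ : ℝ) (hτ : 0 < τ) {A B α β : MvPolynomial (Fin n) ℤ}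
    (hA : A ≠ 0) (hB : B ≠ 0) (hα : α ≠ 0) (hH : β * A - α * B ≠ 0) :
    nn 1 (β * A - α * B) (α * B) ≤ log 2 / 2 - log τ + nn τ α β + nn τ A B := by
  have i1 := integrable_nn τ α β hα
  have i2 := integrable_nn τ A B hA
  have e : ∫ x : Tor n, ((log 2 / 2 - log τ) + log (sq2 τ α β x) / 2 + log (sq2 τ A B x) / 2) =
      log 2 / 2 - log τ + nn τ α β + nn τ A B := by
    have i3 : Integrable (fun _ : Tor n => log 2 / 2 - log τ) := integrable_const _
    have i4 : Integrable (fun x : Tor n => (log 2 / 2 - log τ) + log (sq2 τ α β x) / 2) := i3.add i1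
    rw [integral_add i4 i2, integral_add i3 i1]
    simp only [integral_const, probReal_univ, one_smul]
    rfl
  rw [← e]
  unfold nn
  have i5 : Integrable (fun x : Tor n =>
      (log 2 / 2 - log τ) + log (sq2 τ α β x) / 2 + log (sq2 τ A B x) / 2) :=
    ((integrable_const _).add i1).add i2
  apply integral_mono_ae (integrable_nn 1 _ _ hH) i5
  filter_upwards [ae_evT_ne_zero α hα, ae_evT_ne_zero A hA, ae_evT_ne_zero _ hH] with x hx1 hx2 hx3
  have p1 := sq2_pos τ α β hx1
  have p2 := sq2_pos τ A B hx2
  have p3 := sq2_pos 1 (β * A - α * B) (α * B) hx3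
  have key : sq2 1 (β * A - α * B) (α * B) x ≤ 2 / τ ^ 2 * (sq2 τ α β x * sq2 τ A B x) := by
    unfold sq2
    rw [map_sub, map_mul, map_mul]
    set a := ‖evT x A‖ with ha
    set b := ‖evT x B‖ with hb
    set a1 := ‖evT x α‖ with ha1
    set b1 := ‖evT x β‖ with hb1
    have h1 : ‖evT x β * evT x A - evT x α * evT x B‖ ≤ b1 * a + a1 * b := by
      refine (norm_sub_le _ _).trans ?_
      rw [norm_mul, norm_mul]
    have h2 : ‖evT x β * evT x A - evT x α * evT x B‖ ^ 2 ≤ (b1 * a + a1 * b) ^ 2 := by gcongr
    have h3 : ‖evT x α * evT x B‖ = a1 * b := norm_mul _ _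
    rw [h3]
    have h4 : 2 / τ ^ 2 * ((a1 ^ 2 + τ ^ 2 * b1 ^ 2) * (a ^ 2 + τ ^ 2 * b ^ 2)) =
        2 / τ ^ 2 * (a1 ^ 2 * a ^ 2) + 2 * a1 ^ 2 * b ^ 2 + 2 * b1 ^ 2 * a ^ 2 + 2 * τ ^ 2 * b1 ^ 2 * b ^ 2 := by
      field_simp
      ring
    rw [h4]
    have h5 : (b1 * a + a1 * b) ^ 2 + 1 ^ 2 * (a1 * b) ^ 2 ≤
        2 / τ ^ 2 * (a1 ^ 2 * a ^ 2) + 2 * a1 ^ 2 * b ^ 2 + 2 * b1 ^ 2 * a ^ 2 + 2 * τ ^ 2 * b1 ^ 2 * b ^ 2 := by
      -- 2 a1 b1 a b <= a1² a²/τ² + τ² b1² b²
      have h6 : 2 * (b1 * a) * (a1 * b) ≤ 1 / τ ^ 2 * (a1 ^ 2 * a ^ 2) + τ ^ 2 * b1 ^ 2 * b ^ 2 := by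
        have h7 : 0 ≤ (a1 * a / τ - τ * b1 * b) ^ 2 := sq_nonneg _
        have h8 : (a1 * a / τ - τ * b1 * b) ^ 2 = 1 / τ ^ 2 * (a1 ^ 2 * a ^ 2) + τ ^ 2 * b1 ^ 2 * b ^ 2
            - 2 * (b1 * a) * (a1 * b) := by
          field_simp
          ring
        linarith
      have h9 : 0 ≤ 1 / τ ^ 2 * (a1 ^ 2 * a ^ 2) := by positivity
      have h10 : 0 ≤ τ ^ 2 * b1 ^ 2 * b ^ 2 := by positivity
      have h11 : 0 ≤ b1 ^ 2 * a ^ 2 := by positivity
      have h12 : 2 / τ ^ 2 * (a1 ^ 2 * a ^ 2) = 2 * (1 / τ ^ 2 * (a1 ^ 2 * a ^ 2)) := by ring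
      rw [h12]
      nlinarith
    linarith
  have hl := log_le_log p3 key
  rw [log_mul (by positivity) (by positivity), log_mul p1.ne' p2.ne', log_div (by norm_num) (by positivity),
    log_pow] at hl
  push_cast at hl
  linarith

/-- the main induction -/
theorem main_ind (τ : ℝ) (hτ : 0 < τ) (N : ℝ) (hN' : 0 ≤ log 2 / 2 - log τ + 2 * N) :
    ∀ (k : ℕ) (A B : MvPolynomial (Fin n) ℤ), A ≠ 0 → B ≠ 0 → IsRelPrime A B → nn τ A B ≤ N →
    nn τ A B ≤ k * (log (1 + τ ^ 2 * exp (-4 * N)) / 2) →
    (n : ℝ) ≤ finrank ℝ (stab A B) + k * (1 + (log 2 / 2 - log τ + 2 * N) /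
      (log (1 + 1 ^ 2 * exp (-4 * (log 2 / 2 - log τ + 2 * N))) / 2)) := by
  classical
  set c : ℝ := log (1 + τ ^ 2 * exp (-4 * N)) / 2 with hc
  set N' : ℝ := log 2 / 2 - log τ + 2 * N with hN'def
  set c' : ℝ := log (1 + 1 ^ 2 * exp (-4 * N')) / 2 with hc'
  have hcpos : 0 < c := by
    rw [hc]
    have : 0 < log (1 + τ ^ 2 * exp (-4 * N)) := by
      apply log_pos
      have : 0 < τ ^ 2 * exp (-4 * N) := by positivity
      linarith
    linarith
  have hc'pos : 0 < c' := by
    rw [hc']
    have : 0 < log (1 + 1 ^ 2 * exp (-4 * N')) := by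
      apply log_pos
      have : 0 < (1 : ℝ) ^ 2 * exp (-4 * N') := by positivity
      linarith
    exact half_pos this
  set K : ℝ := 1 + N' / c' with hK
  have hK1 : 1 ≤ K := by
    rw [hK]
    have : 0 ≤ N' / c' := div_nonneg hN' hc'pos.le
    linarith
  -- jump for relatively prime pairs
  have hjump : ∀ (A B : MvPolynomial (Fin n) ℤ), A ≠ 0 → B ≠ 0 → IsRelPrime A B → nn τ A B ≤ N →
      ∀ μ, μ ∉ stab A B → nn τ (ini μ A) (ini μ B) + c ≤ nn τ A B := by
    intro A B hA hB hAB hN μ hμ
    obtain ⟨hf1, hf2⟩ := face_jump τ hτ A B μ hA hB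
    have h1 : ini μ A * B ≠ A * ini μ B := fun h => hμ (cst_of_relprime hA hB hAB h)
    have h2 := hf2 h1
    have h3 := gain_mono (τ := τ) (hf1.trans hN)
    linarith
  intro k
  induction k with
  | zero =>
    intro A B hA hB hAB hN h0
    simp only [Nat.cast_zero, zero_mul] at h0
    have htop : stab A B = ⊤ := by
      rw [eq_top_iff]
      intro μ _
      by_contra hμ
      have h1 := hjump A B hA hB hAB hN μ hμ
      have h2 := nn_nonneg τ (ini μ A) (ini μ B) (ini_ne_zero hA)
      linarith
    rw [htop]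
    simp
  | succ k ih =>
    intro A B hA hB hAB hN hk
    set U := stab A B with hU
    by_cases hUtop : Uᗮ = ⊥
    · have : U = ⊤ := by rwa [Submodule.orthogonal_eq_bot_iff] at hUtop
      rw [this]
      have h1 : (finrank ℝ (⊤ : Submodule ℝ (Vn n)) : ℝ) = n := by simp
      rw [h1]
      have : 0 ≤ ((k + 1 : ℕ) : ℝ) * K := by positivity
      linarith
    · -- minimal stabiliser
      have hex : ∃ d : ℕ, ∃ μ ∈ Uᗮ, μ ≠ 0 ∧ ∃ α β C : MvPolynomial (Fin n) ℤ, IsRelPrime α β ∧
          C * α = ini μ A ∧ C * β = ini μ B ∧ finrank ℝ (stab α β) = d := by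
        obtain ⟨μ, hμ, hμ0⟩ := Submodule.exists_mem_ne_zero_of_ne_bot hUtop
        obtain ⟨α, β, C, h1, h2, h3⟩ := UniqueFactorizationMonoid.exists_reduced_factors
          (ini μ A) (ini_ne_zero hA) (ini μ B)
        exact ⟨_, μ, hμ, hμ0, α, β, C, h1, h2, h3, rfl⟩
      obtain ⟨μs, hμs, hμs0, αs, βs, Cs, hrel, hCα, hCβ, hdim⟩ := Nat.find_spec hex
      have hminim : ∀ μ ∈ Uᗮ, μ ≠ 0 → ∀ α β C : MvPolynomial (Fin n) ℤ, IsRelPrime α β →
          C * α = ini μ A → C * β = ini μ B → finrank ℝ (stab αs βs) ≤ finrank ℝ (stab α β) := by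
        intro μ hμ hμ0 α β C h1 h2 h3
        rw [hdim]
        exact Nat.find_min' hex ⟨μ, hμ, hμ0, α, β, C, h1, h2, h3, rfl⟩
      have hiniA : ini μs A ≠ 0 := ini_ne_zero hA
      have hiniB : ini μs B ≠ 0 := ini_ne_zero hB
      have hCs : Cs ≠ 0 := by
        rintro rfl; apply hiniA; rw [← hCα]; simp
      have hαs : αs ≠ 0 := by
        rintro rfl; apply hiniA; rw [← hCα]; simp
      have hβs : βs ≠ 0 := by
        rintro rfl; apply hiniB; rw [← hCβ]; simp
      have hnotU : ∀ μ ∈ Uᗮ, μ ≠ 0 → μ ∉ U := by
        intro μ hμ hμ0 hμU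
        apply hμ0
        have := Submodule.inner_right_of_mem_orthogonal hμU hμ
        exact inner_self_eq_zero.mp this
      -- induction hypothesis for the reduced pair
      have hj := hjump A B hA hB hAB hN μs (hnotU μs hμs hμs0)
      have hred : nn τ αs βs ≤ nn τ (ini μs A) (ini μs B) := by
        rw [← hCα, ← hCβ, nn_mul τ Cs αs βs hCs hαs]
        have := mT_nonneg Cs hCs
        linarith
      have hk' : nn τ αs βs ≤ k * c := by
        push_cast at hk
        linarith
      have hNs : nn τ αs βs ≤ N := by linarith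
      have hIH := ih αs βs hαs hβs hrel hNs hk'
      set S := stab αs βs with hS
      set E : Submodule ℝ (Vn n) := S ⊓ Uᗮ with hE
      -- dimension of E
      have hEdim : finrank ℝ S ≤ finrank ℝ E + finrank ℝ U := by
        have h1 := Submodule.finrank_sup_add_finrank_inf_eq S Uᗮ
        have h2 := Submodule.finrank_add_finrank_orthogonal U
        have h3 : finrank ℝ (S ⊔ Uᗮ : Submodule ℝ (Vn n)) ≤ finrank ℝ (Vn n) := Submodule.finrank_le _
        rw [hE]
        omega
      by_cases hE2 : finrank ℝ E ≤ 1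
      · have h1 : (finrank ℝ S : ℝ) ≤ finrank ℝ U + 1 := by
          have : finrank ℝ S ≤ finrank ℝ U + 1 := by omega
          exact_mod_cast this
        push_cast
        linarith
      · push Not at hE2
        -- the identity on all of E
        have hident : ∀ e ∈ E, e ≠ 0 → ini e A * βs = ini e B * αs := by
          have hμsS : μs ∈ S := by
            constructor
            · have h1 : Cst μs (Cs * αs) := by rw [hCα]; exact cst_ini _ _
              exact (h1.of_mul hCs hαs).2
            · have h1 : Cst μs (Cs * βs) := by rw [hCβ]; exact cst_ini _ _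
              exact (h1.of_mul hCs hβs).2
          have hμsE : μs ∈ E := ⟨hμsS, hμs⟩
          have hrank : 1 < Module.rank ℝ E := by
            rw [← Module.finrank_eq_rank]
            exact_mod_cast hE2
          have hconn : IsPreconnected ({0}ᶜ : Set E) :=
            (isConnected_compl_singleton_of_one_lt_rank hrank 0).isPreconnected
          set u : Set E := {e : E | (e : Vn n) ≠ 0 ∧ ini (e : Vn n) A * βs = ini (e : Vn n) B * αs} with hu
          have huopen : IsOpen u := by
            rw [Metric.isOpen_iff]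
            rintro e ⟨he0, he⟩
            obtain ⟨ε1, hε1, h1⟩ := local_structure (e : Vn n) A hA
            obtain ⟨ε2, hε2, h2⟩ := local_structure (e : Vn n) B hB
            have he0' : 0 < ‖(e : Vn n)‖ := norm_pos_iff.mpr he0
            refine ⟨min (min ε1 ε2) ‖(e : Vn n)‖, lt_min (lt_min hε1 hε2) he0', fun e' he' => ?_⟩
            rw [Metric.mem_ball, dist_eq_norm] at he'
            set ν : Vn n := (e' : Vn n) - (e : Vn n) with hν
            have hνn : ‖ν‖ < min (min ε1 ε2) ‖(e : Vn n)‖ := by
              have : ‖ν‖ = ‖e' - e‖ := by rw [hν]; rfl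
              rw [this]; exact he'
            have hνE : ν ∈ E := E.sub_mem e'.2 e.2
            have e1 := (h1 ν (hνn.trans_le ((min_le_left _ _).trans (min_le_left _ _)))).2
            have e2 := (h2 ν (hνn.trans_le ((min_le_left _ _).trans (min_le_right _ _)))).2
            have hadd : (e : Vn n) + ν = (e' : Vn n) := by rw [hν]; abel
            rw [hadd] at e1 e2
            have hne : (e' : Vn n) ≠ 0 := by
              intro h0
              have : ‖ν‖ = ‖(e : Vn n)‖ := by rw [hν, h0, zero_sub, norm_neg]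
              have h3 := hνn.trans_le (min_le_right _ _)
              rw [this] at h3
              exact lt_irrefl _ h3
            refine ⟨hne, ?_⟩
            have hνS : Cst ν αs ∧ Cst ν βs := hνE.1
            have h3 := congrArg (ini ν) he
            rw [ini_mul (ini_ne_zero hA) hβs, ini_mul (ini_ne_zero hB) hαs, hνS.1.ini_eq,
              hνS.2.ini_eq, ← e1, ← e2] at h3
            exact h3
          have hune : (({0}ᶜ : Set E) ∩ u).Nonempty := by
            refine ⟨⟨μs, hμsE⟩, ?_, hμs0, ?_⟩
            · rw [Set.mem_compl_iff, Set.mem_singleton_iff]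
              intro h
              exact hμs0 (congrArg Subtype.val h)
            · simp only
              rw [← hCα, ← hCβ]; ring
          have hclos : closure u ∩ {0}ᶜ ⊆ u := by
            rintro e0 ⟨hcl, hne⟩
            have he00 : (e0 : Vn n) ≠ 0 := by
              intro h
              apply hne
              rw [Set.mem_singleton_iff]
              exact Subtype.ext h
            obtain ⟨ε1, hε1, h1⟩ := local_structure (e0 : Vn n) A hA
            obtain ⟨ε2, hε2, h2⟩ := local_structure (e0 : Vn n) B hB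
            obtain ⟨e1, he1u, hdist⟩ := Metric.mem_closure_iff.mp hcl (min ε1 ε2) (lt_min hε1 hε2)
            obtain ⟨_, he1⟩ := he1u
            set ν : Vn n := (e1 : Vn n) - (e0 : Vn n) with hν
            have hνn : ‖ν‖ < min ε1 ε2 := by
              have : ‖ν‖ = ‖e1 - e0‖ := by rw [hν]; rfl
              rw [this, ← dist_eq_norm, dist_comm]; exact hdist
            have hνE : ν ∈ E := E.sub_mem e1.2 e0.2
            have f1 := (h1 ν (hνn.trans_le (min_le_left _ _))).2
            have f2 := (h2 ν (hνn.trans_le (min_le_right _ _))).2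
            have hadd : (e0 : Vn n) + ν = (e1 : Vn n) := by rw [hν]; abel
            rw [hadd] at f1 f2
            obtain ⟨α0, β0, C0, g1, g2, g3⟩ := UniqueFactorizationMonoid.exists_reduced_factors
              (ini (e0 : Vn n) A) (ini_ne_zero hA) (ini (e0 : Vn n) B)
            have hA0 : ini (e0 : Vn n) A ≠ 0 := ini_ne_zero hA
            have hB0 : ini (e0 : Vn n) B ≠ 0 := ini_ne_zero hB
            have hC0 : C0 ≠ 0 := by
              rintro rfl; apply hA0; rw [← g2]; simp
            have hα0 : α0 ≠ 0 := by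
              rintro rfl; apply hA0; rw [← g2]; simp
            have hβ0 : β0 ≠ 0 := by
              rintro rfl; apply hB0; rw [← g3]; simp
            have k1 : ini ν α0 * βs = ini ν β0 * αs := by
              rw [f1, f2, ← g2, ← g3, ini_mul hC0 hα0, ini_mul hC0 hβ0] at he1
              have : ini ν C0 * (ini ν α0 * βs) = ini ν C0 * (ini ν β0 * αs) := by
                rw [← mul_assoc, he1, mul_assoc]
              exact mul_left_cancel₀ (ini_ne_zero hC0) this
            have k2 : αs ∣ ini ν α0 := by
              have : αs ∣ ini ν α0 * βs := ⟨ini ν β0, by rw [k1]; ring⟩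
              exact hrel.dvd_of_dvd_mul_right this
            have k3 : βs ∣ ini ν β0 := by
              have : βs ∣ ini ν β0 * αs := ⟨ini ν α0, by rw [← k1]; ring⟩
              exact hrel.symm.dvd_of_dvd_mul_right this
            have k4 : stab α0 β0 ≤ S := by
              rintro l ⟨l1, l2⟩
              obtain ⟨q1, hq1⟩ := k2
              obtain ⟨q2, hq2⟩ := k3
              have hq10 : q1 ≠ 0 := by
                rintro rfl
                rw [mul_zero] at hq1
                exact (ini_ne_zero hα0) hq1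
              have hq20 : q2 ≠ 0 := by
                rintro rfl
                rw [mul_zero] at hq2
                exact (ini_ne_zero hβ0) hq2
              constructor
              · have h3 : Cst l (αs * q1) := by rw [← hq1]; exact l1.ini
                exact (h3.of_mul hαs hq10).1
              · have h3 : Cst l (βs * q2) := by rw [← hq2]; exact l2.ini
                exact (h3.of_mul hβs hq20).1
            have k5 : stab α0 β0 = S :=
              Submodule.eq_of_le_of_finrank_le k4 (hminim (e0 : Vn n) e0.2.2 he00 α0 β0 C0 g1 g2 g3)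
            have hνS : ν ∈ stab α0 β0 := by rw [k5]; exact hνE.1
            rw [hνS.1.ini_eq, hνS.2.ini_eq] at k1
            refine ⟨he00, ?_⟩
            rw [← g2, ← g3, mul_assoc, k1, mul_assoc]
          have hsub := hconn.subset_of_closure_inter_subset huopen hune hclos
          intro e heE he0
          have : (⟨e, heE⟩ : E) ∈ u := by
            apply hsub
            rw [Set.mem_compl_iff, Set.mem_singleton_iff]
            intro h
            exact he0 (congrArg Subtype.val h)
          exact this.2
        -- the derived pair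
        have hβA : βs * A ≠ 0 := mul_ne_zero hβs hA
        have hαB : αs * B ≠ 0 := mul_ne_zero hαs hB
        have hH : βs * A - αs * B ≠ 0 := by
          intro h0
          have h1 : βs * A = αs * B := sub_eq_zero.mp h0
          have hSU : S ≤ U := by
            rintro l ⟨l1, l2⟩
            constructor
            · have h2 : A ∣ αs * B := ⟨βs, by rw [← h1]; ring⟩
              obtain ⟨q, hq⟩ := hAB.dvd_of_dvd_mul_right h2
              have hq0 : q ≠ 0 := by
                rintro rfl; rw [mul_zero] at hq; exact hαs hq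
              rw [hq] at l1
              exact (l1.of_mul hA hq0).1
            · have h2 : B ∣ βs * A := ⟨αs, by rw [h1]; ring⟩
              obtain ⟨q, hq⟩ := hAB.symm.dvd_of_dvd_mul_right h2
              have hq0 : q ≠ 0 := by
                rintro rfl; rw [mul_zero] at hq; exact hβs hq
              rw [hq] at l2
              exact (l2.of_mul hB hq0).1
          have hEbot : E = ⊥ := by
            rw [eq_bot_iff]
            rintro e ⟨he1, he2⟩
            by_contra hne
            exact hnotU e he2 (by simpa using hne) (hSU he1)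
          rw [hEbot] at hE2
          simp at hE2
        have hposE : ∀ μ ∈ E, μ ≠ 0 → 0 < dlt (βs * A - αs * B) (αs * B) μ := by
          intro μ hμ hμ0
          have hi := hident μ hμ hμ0
          have hμS : Cst μ αs ∧ Cst μ βs := hμ.1
          have i1 : ini μ (βs * A) = βs * ini μ A := by
            rw [ini_mul hβs hA, hμS.2.ini_eq]
          have i2 : ini μ (αs * B) = αs * ini μ B := by
            rw [ini_mul hαs hB, hμS.1.ini_eq]
          have i3 : ini μ (βs * A) = ini μ (αs * B) := by
            rw [i1, i2, mul_comm βs, hi, mul_comm]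
          have i4 : ord μ (βs * A) = ord μ (αs * B) := by
            rw [← ord_ini μ hβA, ← ord_ini μ hαB, i3]
          unfold dlt
          obtain ⟨a, ha, h2⟩ := exists_ord (μ := μ) hH
          rw [← h2]
          have hcoef : (βs * A).coeff a - (αs * B).coeff a ≠ 0 := by
            have := mem_support_iff.mp ha
            rwa [coeff_sub] at this
          have hge : ord μ (αs * B) ≤ wt μ a := by
            by_cases h3 : a ∈ (αs * B).support
            · exact ord_le h3
            · have h4 : (αs * B).coeff a = 0 := notMem_support_iff.mp h3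
              rw [h4, sub_zero] at hcoef
              rw [← i4]
              exact ord_le (mem_support_iff.mpr hcoef)
          have hneq : ord μ (αs * B) ≠ wt μ a := by
            intro h5
            apply hcoef
            have e1 := congrArg (fun P => coeff a P) i3
            simp only [coeff_ini] at e1
            rw [if_pos (by rw [i4]; exact h5.symm), if_pos h5.symm] at e1
            rw [e1, sub_self]
          have := lt_of_le_of_ne hge hneq
          linarith
        have hder := nn_derived τ hτ hA hB hαs hH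
        have hder' : nn 1 (βs * A - αs * B) (αs * B) ≤ N' := by
          rw [hN'def]; linarith
        have hPB := positivity_bound 1 one_pos N' (finrank ℝ E) (βs * A - αs * B) (αs * B) hH hαB E rfl
          hposE hder'
        have hPB' : (finrank ℝ E : ℝ) ≤ N' / c' := by
          rw [le_div_iff₀ hc'pos]
          exact hPB.trans hder'
        have h1 : (finrank ℝ S : ℝ) ≤ finrank ℝ E + finrank ℝ U := by exact_mod_cast hEdim
        push_cast
        linarith

end Pool.Agent.Work.MP_417103_nt
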