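import Mathlib
import Pool.Agent.Work.MP_417103_nt.MainInd
import Pool.Agent.Work.MP_417103_nt.Bern
import Pool.Agent.Work.MP_417103_nt.Defs

set_option autoImplicit false

namespace Pool.Agent.Work.MP_417103_nt

open Real MvPolynomial MeasureTheory Pool.Agent.MP_417103_nt
open Module (finrank)

variable {n : ℕ}

/-! ### comparison of the two integrals -/

lemma toTor_mp : MeasurePreserving (fun (θ : Fin n → ℝ) (i : Fin n) => ((θ i : ℝ) : UnitAddCircle))
    ((volume : Measure (Fin n → ℝ)).restrict (Set.univ.pi fun _ => Set.Ioc (0 : ℝ) 1))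
    (volume : Measure (Tor n)) := by
  have h1 : ∀ _ : Fin n, MeasurePreserving ((↑) : ℝ → UnitAddCircle)
      (volume.restrict (Set.Ioc (0 : ℝ) 1)) volume := by
    intro _
    have := UnitAddCircle.measurePreserving_mk 0
    rwa [zero_add] at this
  have h2 := measurePreserving_pi (fun _ : Fin n => (volume : Measure ℝ).restrict (Set.Ioc (0 : ℝ) 1))
    (fun _ : Fin n => (volume : Measure UnitAddCircle)) h1
  rw [volume_pi, Measure.restrict_pi_pi]
  exact h2

lemma evT_toTor (θ : Fin n → ℝ) (P : MvPolynomial (Fin n) ℤ) :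
    MvPolynomial.eval₂ (Int.castRingHom ℂ)
      (fun i : Fin n => Complex.exp (2 * (Real.pi : ℂ) * Complex.I * ((θ i : ℝ) : ℂ))) P =
    evT (fun i => ((θ i : ℝ) : UnitAddCircle)) P := by
  unfold evT
  rw [MvPolynomial.coe_eval₂Hom]
  congr 1
  funext i
  rw [ee_coe]

lemma mahlerM_eq (P : MvPolynomial (Fin n) ℤ) : mahlerM P = exp (mT P) := by
  unfold mahlerM mT
  congr 1
  have hmeas : AEStronglyMeasurable (fun x : Tor n => log ‖evT x P‖)
      (Measure.map (fun (θ : Fin n → ℝ) (i : Fin n) => ((θ i : ℝ) : UnitAddCircle))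
        ((volume : Measure (Fin n → ℝ)).restrict (Set.univ.pi fun _ => Set.Ioc (0 : ℝ) 1))) :=
    ((evT_continuous P).norm.measurable.log).aestronglyMeasurable
  have h1 := integral_map toTor_mp.measurable.aemeasurable hmeas
  rw [toTor_mp.map_eq] at h1
  rw [h1]
  have h2 : (Set.Icc (0 : Fin n → ℝ) 1) =ᵐ[volume] (Set.univ.pi fun _ => Set.Ioc (0 : ℝ) 1) := by
    rw [volume_pi]
    exact (Measure.univ_pi_Ioc_ae_eq_Icc (f := (0 : Fin n → ℝ)) (g := 1)).symm
  rw [setIntegral_congr_set h2]
  refine integral_congr_ae (Filter.Eventually.of_forall fun θ => ?_)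
  beta_reduce
  rw [evT_toTor]

/-! ### dimensions -/

lemma newtonDim_add_le (P Q : MvPolynomial (Fin n) ℤ) : newtonDim P + finrank ℝ (stab P Q) ≤ n := by
  classical
  set e := (WithLp.linearEquiv 2 ℝ (Fin n → ℝ)).symm with he
  set V : Submodule ℝ (Fin n → ℝ) := vectorSpan ℝ ((fun e : Fin n →₀ ℕ => fun i : Fin n => (e i : ℝ)) ''
      (P.support : Set (Fin n →₀ ℕ))) with hV
  set W : Submodule ℝ (Vn n) := V.map (e : (Fin n → ℝ) →ₗ[ℝ] Vn n) with hW
  have h1 : finrank ℝ W = newtonDim P := by
    rw [hW, LinearEquiv.finrank_map_eq]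
    rfl
  have h2 : stab P Q ≤ Wᗮ := by
    rintro l ⟨hl, _⟩
    rw [Submodule.mem_orthogonal]
    intro u hu
    rw [hW] at hu
    obtain ⟨v, hv, rfl⟩ := (Submodule.mem_map).mp hu
    have hsub : V ≤ (LinearMap.ker ((innerₛₗ ℝ l).comp (e : (Fin n → ℝ) →ₗ[ℝ] Vn n))) := by
      rw [hV, vectorSpan_def, Submodule.span_le]
      rintro x hx
      obtain ⟨p, hp, q, hq, rfl⟩ := Set.mem_vsub.mp hx
      obtain ⟨a, ha, rfl⟩ := hp
      obtain ⟨b, hb, rfl⟩ := hq
      rw [SetLike.mem_coe, LinearMap.mem_ker]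
      have hab := hl a ha b hb
      have h3 : (innerₛₗ ℝ l) ((e : (Fin n → ℝ) →ₗ[ℝ] Vn n)
          ((fun i : Fin n => (a i : ℝ)) -ᵥ fun i : Fin n => (b i : ℝ))) = wt l a - wt l b := by
        simp only [innerₛₗ_apply_apply]
        rw [PiLp.inner_apply]
        unfold wt
        rw [← Finset.sum_sub_distrib]
        refine Finset.sum_congr rfl fun i _ => ?_
        simp [he]
        ring
      rw [LinearMap.comp_apply, h3, hab, sub_self]
    have := hsub hv
    rw [LinearMap.mem_ker, LinearMap.comp_apply, innerₛₗ_apply_apply] at this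
    rw [real_inner_comm]
    exact this
  have h3 := Submodule.finrank_add_finrank_orthogonal W
  have h4 := Submodule.finrank_mono h2
  have h5 : finrank ℝ (Vn n) = n := by simp
  omega

/-! ### the reversed polynomial -/

/-- the least upper bound of the exponents -/
noncomputable def topE (P : MvPolynomial (Fin n) ℤ) : Fin n →₀ ℕ := P.support.sup id

lemma le_topE {P : MvPolynomial (Fin n) ℤ} {a : Fin n →₀ ℕ} (ha : a ∈ P.support) : a ≤ topE P :=
  Finset.le_sup (f := id) ha

/-- reversed polynomial -/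
noncomputable def revP (P : MvPolynomial (Fin n) ℤ) : MvPolynomial (Fin n) ℤ :=
  ∑ a ∈ P.support, monomial (topE P - a) (P.coeff a)

lemma chi_add (a b : Fin n →₀ ℕ) (x : Tor n) : chi (a + b) x = chi a x * chi b x := by
  unfold chi
  rw [← Finset.prod_mul_distrib]
  refine Finset.prod_congr rfl fun i _ => ?_
  rw [Finsupp.add_apply, pow_add]

lemma chi_conj (a : Fin n →₀ ℕ) (x : Tor n) : chi a x * (starRingEnd ℂ) (chi a x) = 1 := by
  rw [Complex.mul_conj, Complex.normSq_eq_norm_sq, chi_norm]; norm_num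

lemma evT_revP (x : Tor n) (P : MvPolynomial (Fin n) ℤ) :
    evT x (revP P) = chi (topE P) x * (starRingEnd ℂ) (evT x P) := by
  unfold revP
  rw [map_sum, evT_eq, map_sum, Finset.mul_sum]
  refine Finset.sum_congr rfl fun a ha => ?_
  rw [evT_monomial, map_mul]
  have h1 : chi (topE P) x = chi (topE P - a) x * chi a x := by
    rw [← chi_add, tsub_add_cancel_of_le (le_topE ha)]
  rw [h1]
  have h2 : (starRingEnd ℂ) ((P.coeff a : ℤ) : ℂ) = ((P.coeff a : ℤ) : ℂ) := by simp
  rw [h2]
  have h3 := chi_conj a x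
  linear_combination (-((P.coeff a : ℤ) : ℂ) * chi (topE P - a) x) * h3

lemma evT_revP_norm (x : Tor n) (P : MvPolynomial (Fin n) ℤ) : ‖evT x (revP P)‖ = ‖evT x P‖ := by
  rw [evT_revP, norm_mul, chi_norm, one_mul, RCLike.norm_conj]

lemma coeff_revP {P : MvPolynomial (Fin n) ℤ} {a : Fin n →₀ ℕ} (ha : a ∈ P.support) :
    (revP P).coeff (topE P - a) = P.coeff a := by
  classical
  unfold revP
  rw [coeff_sum, Finset.sum_eq_single a]
  · rw [coeff_monomial, if_pos rfl]
  · intro b hb hba
    rw [coeff_monomial, if_neg]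
    intro h
    apply hba
    have h1 := tsub_add_cancel_of_le (le_topE ha)
    have h2 := tsub_add_cancel_of_le (le_topE hb)
    rw [h] at h2
    exact add_left_cancel (h2.trans h1.symm)
  · intro h; exact absurd ha h

lemma support_revP {P : MvPolynomial (Fin n) ℤ} {c : Fin n →₀ ℕ} (hc : c ∈ (revP P).support) :
    ∃ a ∈ P.support, c = topE P - a := by
  classical
  by_contra h
  push Not at h
  apply mem_support_iff.mp hc
  unfold revP
  rw [coeff_sum]
  refine Finset.sum_eq_zero fun a ha => ?_
  rw [coeff_monomial, if_neg]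
  exact fun h2 => h a ha h2.symm

lemma revP_ne_zero {P : MvPolynomial (Fin n) ℤ} (hP : P ≠ 0) : revP P ≠ 0 := by
  obtain ⟨a, ha⟩ := support_nonempty.mpr hP
  intro h
  have := coeff_revP ha
  rw [h, coeff_zero] at this
  exact mem_support_iff.mp ha this.symm

lemma ord_revP {P : MvPolynomial (Fin n) ℤ} (hP : P ≠ 0) (l : Vn n) :
    ord l (revP P) = wt l (topE P) + ord (-l) P := by
  obtain ⟨a, ha, h2⟩ := exists_ord (μ := -l) hP
  have hwt : ∀ b ∈ P.support, wt l (topE P - b) = wt l (topE P) + wt (-l) b := by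
    intro b hb
    have h1 := congrArg (wt l) (tsub_add_cancel_of_le (le_topE hb))
    rw [wt_add] at h1
    rw [wt_neg]; linarith
  rw [← h2, ← hwt a ha]
  apply ord_eq_of
  · rw [mem_support_iff, coeff_revP ha]; exact mem_support_iff.mp ha
  · intro c hc
    obtain ⟨b, hb, rfl⟩ := support_revP hc
    rw [hwt a ha, hwt b hb, h2]
    have := ord_le (μ := -l) hb
    linarith

/-- coordinate weights -/
lemma wt_single (i : Fin n) (a : Fin n →₀ ℕ) : wt (EuclideanSpace.single i (1 : ℝ)) a = a i := by
  unfold wt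
  rw [Finset.sum_eq_single i]
  · simp
  · intro j _ hj
    simp [hj]
  · intro h; exact absurd (Finset.mem_univ i) h

lemma eq_of_wt {a b : Fin n →₀ ℕ} (h : ∀ l : Vn n, wt l a = wt l b) : a = b := by
  ext i
  have := h (EuclideanSpace.single i (1 : ℝ))
  rw [wt_single, wt_single] at this
  exact_mod_cast this

lemma reciprocal_of_dvd {P : MvPolynomial (Fin n) ℤ} (hP : P ≠ 0) (h : P ∣ revP P) :
    IsReciprocal P := by
  classical
  obtain ⟨q, hq⟩ := h
  have hR := revP_ne_zero hP
  have hq0 : q ≠ 0 := by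
    rintro rfl; rw [mul_zero] at hq; exact hR hq
  have hcst : ∀ l : Vn n, Cst l q := by
    intro l
    have e1 := ord_revP hP l
    have e2 := ord_revP hP (-l)
    rw [hq, ord_mul hP hq0] at e1 e2
    rw [neg_neg, wt_neg] at e2
    exact cst_of_ord_add_neg (by linarith)
  obtain ⟨v, hv⟩ := support_nonempty.mpr hq0
  have hsupp : ∀ b ∈ q.support, b = v := fun b hb => eq_of_wt fun l => hcst l b hb v hv
  set c := q.coeff v with hc
  have hqm : q = monomial v c := by
    ext b
    rw [coeff_monomial]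
    by_cases hb : b ∈ q.support
    · rw [hsupp b hb]; simp [hc]
    · have h0 : q.coeff b = 0 := notMem_support_iff.mp hb
      have : v ≠ b := by rintro rfl; exact hb hv
      rw [h0, if_neg this]
  have hcoef : ∀ b, (revP P).coeff (b + v) = P.coeff b * c := by
    intro b
    rw [hq, hqm, coeff_mul_monomial]
  -- every a in the support comes from some b
  have hab : ∀ a ∈ P.support, ∃ b ∈ P.support, topE P = a + b + v ∧ P.coeff a = P.coeff b * c := by
    intro a ha
    have h1 : topE P - a ∈ (revP P).support := by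
      rw [mem_support_iff, coeff_revP ha]; exact mem_support_iff.mp ha
    have h2 : (P * monomial v c).coeff (topE P - a) ≠ 0 := by
      rw [← hqm, ← hq]; exact mem_support_iff.mp h1
    rw [coeff_mul_monomial'] at h2
    by_cases hle : v ≤ topE P - a
    · rw [if_pos hle] at h2
      refine ⟨topE P - a - v, ?_, ?_, ?_⟩
      · rw [mem_support_iff]
        intro h0; rw [h0, zero_mul] at h2; exact h2 rfl
      · rw [add_assoc, tsub_add_cancel_of_le hle, add_tsub_cancel_of_le (le_topE ha)]
      · have h3 := hcoef (topE P - a - v)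
        rw [tsub_add_cancel_of_le hle, coeff_revP ha] at h3
        exact h3
    · rw [if_neg hle] at h2; exact absurd rfl h2
  obtain ⟨a0, ha0⟩ := support_nonempty.mpr hP
  -- c = ± 1
  have hc1 : c = 1 ∨ c = -1 := by
    obtain ⟨b0, hb0, e1, e2⟩ := hab a0 ha0
    obtain ⟨b1, hb1, e3, e4⟩ := hab b0 hb0
    have : b1 = a0 := by
      have h5 : a0 + b0 + v = b0 + b1 + v := by rw [← e1, ← e3]
      have h6 := add_right_cancel h5
      rw [add_comm a0 b0] at h6
      exact (add_left_cancel h6).symm
    rw [this] at e4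
    rw [e4] at e2
    have h7 : P.coeff a0 * (c * c - 1) = 0 := by linear_combination -e2
    rcases mul_eq_zero.mp h7 with h8 | h8
    · exact absurd h8 (mem_support_iff.mp ha0)
    · have : (c - 1) * (c + 1) = 0 := by linear_combination h8
      rcases mul_eq_zero.mp this with h9 | h9
      · left; linarith
      · right; linarith
  have hvle : v ≤ topE P := by
    obtain ⟨b0, _, e1, _⟩ := hab a0 ha0
    rw [e1]; exact le_add_self
  refine ⟨topE P - v, c, hc1, fun a ha => ?_⟩
  obtain ⟨b, hb, e1, e2⟩ := hab a ha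
  have h1 : topE P - v = a + b := by rw [e1, add_tsub_cancel_right]
  rw [h1]
  refine ⟨le_self_add, ?_⟩
  rw [add_tsub_cancel_left, e2]
  rcases hc1 with h2 | h2 <;> rw [h2] <;> ring

lemma nn_rev {P : MvPolynomial (Fin n) ℤ} (hP : P ≠ 0) : nn 1 P (revP P) = mT P + log 2 / 2 := by
  have h1 := integrable_log_evT P hP
  have : mT P + log 2 / 2 = ∫ x : Tor n, (log ‖evT x P‖ + log 2 / 2) := by
    rw [integral_add h1 (integrable_const _)]
    simp only [integral_const, probReal_univ, one_smul]
    rfl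
  rw [this]
  unfold nn
  apply integral_congr_ae
  filter_upwards [ae_evT_ne_zero P hP] with x hx
  have hp : 0 < ‖evT x P‖ := norm_pos_iff.mpr hx
  have h2 : sq2 1 P (revP P) x = 2 * ‖evT x P‖ ^ 2 := by
    unfold sq2; rw [evT_revP_norm]; ring
  rw [h2, log_mul (by norm_num) (by positivity), log_pow]
  push_cast
  ring

/-! ### the derivative pair -/

/-- the derivative in a direction, normalised -/
noncomputable def derP (μ : Fin n → ℤ) (o : ℤ) (P : MvPolynomial (Fin n) ℤ) :
    MvPolynomial (Fin n) ℤ := ∑ a ∈ P.support, monomial a ((zwt μ a - o) * P.coeff a)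

lemma coeff_derP (μ : Fin n → ℤ) (o : ℤ) (P : MvPolynomial (Fin n) ℤ) (a : Fin n →₀ ℕ) :
    (derP μ o P).coeff a = (zwt μ a - o) * P.coeff a := by
  classical
  unfold derP
  rw [coeff_sum]
  simp only [coeff_monomial]
  rw [Finset.sum_ite_eq']
  by_cases h : a ∈ P.support
  · rw [if_pos h]
  · have : P.coeff a = 0 := notMem_support_iff.mp h
    rw [if_neg h, this, mul_zero]

lemma support_derP (μ : Fin n → ℤ) (o : ℤ) (P : MvPolynomial (Fin n) ℤ) :
    (derP μ o P).support ⊆ P.support := by
  intro a ha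
  rw [mem_support_iff, coeff_derP] at ha
  rw [mem_support_iff]
  intro h; rw [h, mul_zero] at ha; exact ha rfl

lemma pol_derP {μ : Fin n → ℤ} {o : ℤ} {P : MvPolynomial (Fin n) ℤ}
    (ho : ∀ a ∈ P.support, o ≤ zwt μ a) (x : Tor n) :
    pol μ o (derP μ o P) x = Polynomial.X * (pol μ o P x).derivative := by
  ext k
  rw [pol_coeff (fun a ha => ho a (support_derP μ o P ha))]
  have h1 : part μ (o + k) (derP μ o P) = (k : ℤ) • part μ (o + k) P := by
    classical
    ext a
    unfold part
    rw [coeff_smul, coeff_flt, coeff_flt, coeff_derP]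
    by_cases h : zwt μ a = o + k
    · simp [h]
    · simp [h]
  rw [h1]
  cases k with
  | zero => simp
  | succ k =>
    rw [Polynomial.coeff_X_mul, Polynomial.coeff_derivative, pol_coeff ho, map_zsmul]
    push_cast
    rw [zsmul_eq_mul]
    push_cast
    ring

lemma derP_relprime {P : MvPolynomial (Fin n) ℤ} (hP : Irreducible P) {μ : Fin n → ℤ} {o : ℤ}
    (hne : ∃ a ∈ P.support, ∃ b ∈ P.support, zwt μ a ≠ zwt μ b) :
    IsRelPrime P (derP μ o P) ∧ derP μ o P ≠ 0 := by
  classical
  obtain ⟨a, ha, b, hb, hab⟩ := hne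
  have hQ : derP μ o P ≠ 0 := by
    intro h0
    have h1 := coeff_derP μ o P a
    have h2 := coeff_derP μ o P b
    rw [h0, coeff_zero] at h1 h2
    have ha' := mem_support_iff.mp ha
    have hb' := mem_support_iff.mp hb
    have h3 : zwt μ a - o = 0 := by
      rcases mul_eq_zero.mp h1.symm with h | h
      · exact h
      · exact absurd h ha'
    have h4 : zwt μ b - o = 0 := by
      rcases mul_eq_zero.mp h2.symm with h | h
      · exact h
      · exact absurd h hb'
    omega
  refine ⟨?_, hQ⟩
  rw [hP.isRelPrime_iff_not_dvd]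
  intro h
  · exfalso
    obtain ⟨q, hq⟩ := h
    have hP0 := hP.ne_zero
    have hq0 : q ≠ 0 := by
      rintro rfl; rw [mul_zero] at hq; exact hQ hq
    have hord : ∀ l : Vn n, 0 ≤ ord l q := by
      intro l
      have h1 : ord l P ≤ ord l (derP μ o P) :=
        le_ord hQ fun c hc => ord_le (support_derP μ o P hc)
      rw [hq, ord_mul hP0 hq0] at h1
      linarith
    have hcst : ∀ l : Vn n, Cst l q := fun l => cst_of_ord_add_neg (add_nonneg (hord l) (hord (-l)))
    have hwt0 : ∀ c ∈ q.support, c = 0 := by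
      intro c hc
      apply eq_of_wt
      intro l
      have h1 := (hcst l).wt_eq hc
      have h2 := hord l
      have h3 := hord (-l)
      rw [ord_neg_of_cst (hcst l)] at h3
      have : wt l 0 = 0 := by simp [wt]
      rw [h1, this]; linarith
    have hqC : q = C (q.coeff 0) := by
      ext c
      rw [coeff_C]
      by_cases hc : c ∈ q.support
      · rw [hwt0 c hc]; simp
      · have h0 : q.coeff c = 0 := notMem_support_iff.mp hc
        by_cases h1 : (0 : Fin n →₀ ℕ) = c
        · rw [← h1]; simp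
        · rw [h0, if_neg h1]
    have hval : ∀ c ∈ P.support, zwt μ c - o = q.coeff 0 := by
      intro c hc
      have h1 := coeff_derP μ o P c
      rw [hq, hqC, mul_comm P, coeff_C_mul] at h1
      have h2 := mem_support_iff.mp hc
      have h3 : (q.coeff 0 - (zwt μ c - o)) * P.coeff c = 0 := by linear_combination h1
      rcases mul_eq_zero.mp h3 with h | h
      · linarith
      · exact absurd h h2
    have h1 := hval a ha
    have h2 := hval b hb
    apply hab
    linarith

lemma nn_der {P : MvPolynomial (Fin n) ℤ} (hP : P ≠ 0) {μ : Fin n → ℤ} {o : ℤ} {w : ℕ} (hw : 1 ≤ w)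
    (ho : ∀ a ∈ P.support, o ≤ zwt μ a) (how : ∀ a ∈ P.support, zwt μ a ≤ o + w)
    (hex : ∃ a ∈ P.support, zwt μ a = o) :
    nn (1 / (w : ℝ)) P (derP μ o P) ≤ mT P + log 5 / 2 := by
  classical
  have hwpos : (0 : ℝ) < w := by exact_mod_cast hw
  have i1 := integrable_nn (1 / (w : ℝ)) P (derP μ o P) hP
  have i2 := integrable_log_evT P hP
  obtain ⟨j1, e1⟩ := translation_integral μ i1
  obtain ⟨j2, e2⟩ := translation_integral μ i2
  have hoQ : ∀ a ∈ (derP μ o P).support, o ≤ zwt μ a := fun a ha => ho a (support_derP μ o P ha)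
  have hA0 : part μ o P ≠ 0 := by
    obtain ⟨a, ha, h2⟩ := hex
    intro h0
    have : (part μ o P).coeff a = P.coeff a := by
      unfold part
      rw [coeff_flt, if_pos h2]
    rw [h0, coeff_zero] at this
    exact mem_support_iff.mp ha this.symm
  unfold nn mT
  rw [e1, e2]
  have hc : (∫ x : Tor n, ∫ t : UnitAddCircle, log ‖evT (x + tr μ t) P‖) + log 5 / 2 =
      ∫ x : Tor n, ((∫ t : UnitAddCircle, log ‖evT (x + tr μ t) P‖) + log 5 / 2) := by
    rw [integral_add j2 (integrable_const _)]
    simp only [integral_const, probReal_univ, one_smul]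
  rw [hc]
  have j3 : Integrable (fun x : Tor n => (∫ t : UnitAddCircle, log ‖evT (x + tr μ t) P‖) + log 5 / 2) :=
    j2.add (integrable_const _)
  apply integral_mono_ae j1 j3
  filter_upwards [ae_evT_ne_zero _ hA0] with x hx
  have hf : pol μ o P x ≠ 0 := by
    intro h0
    apply hx
    have := pol_coeff ho x 0
    rw [h0] at this
    simpa using this.symm
  have hdeg : (pol μ o P x).natDegree ≤ w := by
    unfold pol
    apply Polynomial.natDegree_sum_le_of_forall_le
    intro a ha
    refine (Polynomial.natDegree_monomial_le _).trans ?_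
    have := how a ha
    omega
  have hb := bern (pol μ o P x) hf w hw hdeg
  have l1 : (∫ t : UnitAddCircle, log (sq2 (1 / (w : ℝ)) P (derP μ o P) (x + tr μ t)) / 2) =
      ∫ t : UnitAddCircle, log (‖(pol μ o P x).eval (ee t)‖ ^ 2 + (1 / (w : ℝ)) ^ 2 *
        ‖(Polynomial.X * (pol μ o P x).derivative).eval (ee t)‖ ^ 2) / 2 := by
    congr 1
    funext t
    unfold sq2
    rw [pol_norm ho, pol_norm hoQ, pol_derP ho]
  have l2 : (∫ t : UnitAddCircle, log ‖evT (x + tr μ t) P‖) =
      ∫ t : UnitAddCircle, log ‖(pol μ o P x).eval (ee t)‖ := by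
    congr 1
    funext t
    rw [pol_norm ho]
  rw [l1, l2]
  exact hb

end Pool.Agent.Work.MP_417103_nt
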