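import Mathlib
import Pool.Agent.Work.MP_417103_nt.Apply

set_option autoImplicit false

namespace Pool.Agent.Work.MP_417103_nt

open Real MvPolynomial MeasureTheory Pool.Agent.MP_417103_nt
open Module (finrank)

variable {n : ℕ}

/-- combination of the main induction with a numerical bound -/
lemma final_bound {A B : MvPolynomial (Fin n) ℤ} (hA : A ≠ 0) (hB : B ≠ 0) (hAB : IsRelPrime A B)
    (τ : ℝ) (hτ : 0 < τ) (N : ℝ) (hN' : 0 ≤ log 2 / 2 - log τ + 2 * N) (hN : nn τ A B ≤ N)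
    (x y : ℝ) (hx : N / (log (1 + τ ^ 2 * exp (-4 * N)) / 2) ≤ x)
    (hy : (log 2 / 2 - log τ + 2 * N) /
      (log (1 + 1 ^ 2 * exp (-4 * (log 2 / 2 - log τ + 2 * N))) / 2) ≤ y) :
    (newtonDim A : ℝ) ≤ (x + 1) * (1 + y) := by
  have hnn := nn_nonneg τ A B hA
  have hN0 : 0 ≤ N := hnn.trans hN
  set c : ℝ := log (1 + τ ^ 2 * exp (-4 * N)) / 2 with hc
  have hcpos : 0 < c := by
    rw [hc]
    have : 0 < log (1 + τ ^ 2 * exp (-4 * N)) := by
      apply log_pos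
      have : 0 < τ ^ 2 * exp (-4 * N) := by positivity
      linarith
    exact half_pos this
  set k := ⌈N / c⌉₊ with hk
  have hk1 : N ≤ k * c := by
    rw [← div_le_iff₀ hcpos]
    exact Nat.le_ceil _
  have hmain := main_ind τ hτ N hN' k A B hA hB hAB hN (hN.trans hk1)
  have hk2 : (k : ℝ) ≤ x + 1 := by
    have := Nat.ceil_lt_add_one (div_nonneg hN0 hcpos.le)
    linarith
  have hdim := newtonDim_add_le A B
  have hdim' : (newtonDim A : ℝ) + finrank ℝ (stab A B) ≤ n := by exact_mod_cast hdim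
  set Y := (log 2 / 2 - log τ + 2 * N) /
      (log (1 + 1 ^ 2 * exp (-4 * (log 2 / 2 - log τ + 2 * N))) / 2) with hY
  have hY0 : 0 ≤ Y := by
    rw [hY]
    apply div_nonneg hN'
    have : 0 ≤ log (1 + 1 ^ 2 * exp (-4 * (log 2 / 2 - log τ + 2 * N))) := by
      apply log_nonneg
      have : 0 < (1 : ℝ) ^ 2 * exp (-4 * (log 2 / 2 - log τ + 2 * N)) := by positivity
      linarith
    exact div_nonneg this zero_le_two
  have hk3 : (k : ℝ) * (1 + Y) ≤ (x + 1) * (1 + y) := by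
    apply mul_le_mul hk2 (by linarith) (by linarith)
    have : (0 : ℝ) ≤ k := Nat.cast_nonneg _
    linarith
  linarith

lemma div_gain_le {u E a : ℝ} (hE : 0 < E) (hu : u = 1 / E) (ha : 0 ≤ a) :
    a / (log (1 + u) / 2) ≤ a * (2 * (E + 1)) := by
  have hu0 : 0 < u := by rw [hu]; positivity
  have h1 := one_sub_inv_le_log_of_pos (by linarith : 0 < 1 + u)
  have h2 : 1 - (1 + u)⁻¹ = 1 / (E + 1) := by
    rw [hu]; field_simp; ring
  rw [h2] at h1
  have h3 : 0 < 1 / (E + 1) := by positivity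
  have h4 : 0 < log (1 + u) / 2 := by linarith
  rw [div_le_iff₀ h4]
  have h5 : 1 ≤ 2 * (E + 1) * (log (1 + u) / 2) := by
    have : 2 * (E + 1) * (1 / (E + 1) / 2) = 1 := by field_simp
    calc (1 : ℝ) = 2 * (E + 1) * (1 / (E + 1) / 2) := this.symm
      _ ≤ 2 * (E + 1) * (log (1 + u) / 2) := by gcongr
  calc a = a * 1 := (mul_one a).symm
    _ ≤ a * (2 * (E + 1) * (log (1 + u) / 2)) := by gcongr
    _ = a * (2 * (E + 1)) * (log (1 + u) / 2) := by ring

theorem nonreciprocal_bound (P : MvPolynomial (Fin n) ℤ) (hP : Irreducible P)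
    (hr : ¬ IsReciprocal P) : (newtonDim P : ℝ) ≤ 3000 * mahlerM P ^ 14 := by
  have hP0 := hP.ne_zero
  have hrel : IsRelPrime P (revP P) := by
    rw [hP.isRelPrime_iff_not_dvd]
    exact fun h => hr (reciprocal_of_dvd hP0 h)
  rw [mahlerM_eq]
  set m := mT P with hm
  have hm0 : 0 ≤ m := mT_nonneg P hP0
  set M := exp m with hM
  have hM1 : 1 ≤ M := one_le_exp hm0
  have hMpos : 0 < M := exp_pos m
  have hmM : m ≤ M - 1 := by
    have := add_one_le_exp m
    linarith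
  have hl2 := log_two_lt_d9
  have hl2' := log_two_gt_d9
  have hM4 : 1 ≤ M ^ 4 := one_le_pow₀ hM1
  have hM5 : 1 ≤ M ^ 5 := one_le_pow₀ hM1
  have hM8 : 1 ≤ M ^ 8 := one_le_pow₀ hM1
  have hM9 : 1 ≤ M ^ 9 := one_le_pow₀ hM1
  have hexp1 : (1 : ℝ) ^ 2 * exp (-4 * (m + log 2 / 2)) = 1 / (4 * M ^ 4) := by
    have e1 : exp (-4 * (m + log 2 / 2)) = (exp (4 * m))⁻¹ * (exp (2 * log 2))⁻¹ := by
      rw [← exp_neg, ← exp_neg, ← exp_add]; congr 1; ring
    have e2 : exp (4 * m) = M ^ 4 := by rw [hM, ← exp_nat_mul]; norm_num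
    have e3 : exp (2 * log 2) = 4 := by
      rw [show (2 : ℝ) * log 2 = log (2 ^ 2) by rw [log_pow]; norm_num, exp_log (by norm_num)]
      norm_num
    rw [e1, e2, e3]; field_simp
  have hexp2 : (1 : ℝ) ^ 2 * exp (-4 * (log 2 / 2 - log 1 + 2 * (m + log 2 / 2))) = 1 / (64 * M ^ 8) := by
    have e1 : exp (-4 * (log 2 / 2 - log 1 + 2 * (m + log 2 / 2))) =
        (exp (8 * m))⁻¹ * (exp (6 * log 2))⁻¹ := by
      rw [← exp_neg, ← exp_neg, ← exp_add]; congr 1; rw [log_one]; ring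
    have e2 : exp (8 * m) = M ^ 8 := by rw [hM, ← exp_nat_mul]; norm_num
    have e3 : exp (6 * log 2) = 64 := by
      rw [show (6 : ℝ) * log 2 = log (2 ^ 6) by rw [log_pow]; norm_num, exp_log (by norm_num)]
      norm_num
    rw [e1, e2, e3]; field_simp
  have h := final_bound hP0 (revP_ne_zero hP0) hrel 1 one_pos (m + log 2 / 2)
    (by rw [log_one]; linarith) (by rw [nn_rev hP0]) (10 * M ^ 5) (260 * M ^ 9)
    (by
      refine (div_gain_le (E := 4 * M ^ 4) (by positivity) hexp1 (by linarith)).trans ?_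
      have h1 : m + log 2 / 2 ≤ M := by linarith
      have h2 : 2 * (4 * M ^ 4 + 1) ≤ 10 * M ^ 4 := by linarith
      calc (m + log 2 / 2) * (2 * (4 * M ^ 4 + 1)) ≤ M * (10 * M ^ 4) := by gcongr
        _ = 10 * M ^ 5 := by ring)
    (by
      refine (div_gain_le (E := 64 * M ^ 8) (by positivity) hexp2
        (by rw [log_one]; linarith)).trans ?_
      have h1 : log 2 / 2 - log 1 + 2 * (m + log 2 / 2) ≤ 2 * M := by rw [log_one]; linarith
      have h2 : 2 * (64 * M ^ 8 + 1) ≤ 130 * M ^ 8 := by linarith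
      calc (log 2 / 2 - log 1 + 2 * (m + log 2 / 2)) * (2 * (64 * M ^ 8 + 1))
          ≤ 2 * M * (130 * M ^ 8) := by gcongr
        _ = 260 * M ^ 9 := by ring)
  refine h.trans ?_
  calc (10 * M ^ 5 + 1) * (1 + 260 * M ^ 9) ≤ (11 * M ^ 5) * (261 * M ^ 9) := by
        gcongr <;> linarith
    _ = 2871 * M ^ 14 := by ring
    _ ≤ 3000 * M ^ 14 := by
        have : 0 ≤ M ^ 14 := by positivity
        linarith

theorem width_bound (P : MvPolynomial (Fin n) ℤ) (hP : Irreducible P) (μ : Fin n → ℤ) (w : ℕ)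
    (hμ : WidthLE P μ w) : (newtonDim P : ℝ) ≤ 10 ^ 6 * (w : ℝ) ^ 7 * mahlerM P ^ 14 := by
  have hP0 := hP.ne_zero
  obtain ⟨hne, hwid⟩ := hμ
  have hne' : ∃ a ∈ P.support, ∃ b ∈ P.support, zwt μ a ≠ zwt μ b := hne
  obtain ⟨a0, ha0, hmin⟩ := P.support.exists_min_image (zwt μ) (support_nonempty.mpr hP0)
  have hw : 1 ≤ w := by
    obtain ⟨a, ha, b, hb, hab⟩ := hne'
    have h1 : zwt μ a - zwt μ b ≤ w := hwid a ha b hb
    have h2 : zwt μ b - zwt μ a ≤ w := hwid b hb a ha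
    by_contra h
    have : w = 0 := by omega
    subst this
    apply hab
    push_cast at h1 h2
    omega
  obtain ⟨hrel, hQ0⟩ := derP_relprime (o := zwt μ a0) hP hne'
  have hnn := nn_der hP0 hw hmin (fun a ha => by
    have : zwt μ a - zwt μ a0 ≤ w := hwid a ha a0 ha0
    linarith) ⟨a0, ha0, rfl⟩
  rw [mahlerM_eq]
  set m := mT P with hm
  have hm0 : 0 ≤ m := mT_nonneg P hP0
  set M := exp m with hM
  have hM1 : 1 ≤ M := one_le_exp hm0
  have hMpos : 0 < M := exp_pos m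
  have hmM : m ≤ M - 1 := by
    have := add_one_le_exp m
    linarith
  set W : ℝ := (w : ℝ) with hW
  have hW1 : 1 ≤ W := by rw [hW]; exact_mod_cast hw
  have hWpos : 0 < W := by linarith
  have hl2 := log_two_lt_d9
  have hl2' := log_two_gt_d9
  have hl5 : log 5 ≤ 1.64 := by
    have h1 : log 5 = 2 * log 2 + log (5 / 4) := by
      rw [log_div (by norm_num) (by norm_num), show (4 : ℝ) = 2 ^ 2 by norm_num, log_pow]
      push_cast; ring
    have h2 : log (5 / 4 : ℝ) ≤ 5 / 4 - 1 := log_le_sub_one_of_pos (by norm_num)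
    rw [h1]; norm_num at h2 ⊢; linarith
  have hl5' : 0 ≤ log 5 := log_nonneg (by norm_num)
  have hlW : log W ≤ W - 1 := log_le_sub_one_of_pos hWpos
  have hlW' : 0 ≤ log W := log_nonneg hW1
  have hlinv : log (1 / W) = - log W := by rw [one_div, log_inv]
  have hexp1 : (1 / W) ^ 2 * exp (-4 * (m + log 5 / 2)) = 1 / (25 * W ^ 2 * M ^ 4) := by
    have e1 : exp (-4 * (m + log 5 / 2)) = (exp (4 * m))⁻¹ * (exp (2 * log 5))⁻¹ := by
      rw [← exp_neg, ← exp_neg, ← exp_add]; congr 1; ring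
    have e2 : exp (4 * m) = M ^ 4 := by rw [hM, ← exp_nat_mul]; norm_num
    have e3 : exp (2 * log 5) = 25 := by
      rw [show (2 : ℝ) * log 5 = log (5 ^ 2) by rw [log_pow]; norm_num, exp_log (by norm_num)]
      norm_num
    rw [e1, e2, e3]; field_simp
  have hexp2 : (1 : ℝ) ^ 2 * exp (-4 * (log 2 / 2 - log (1 / W) + 2 * (m + log 5 / 2))) =
      1 / (2500 * W ^ 4 * M ^ 8) := by
    have e1 : exp (-4 * (log 2 / 2 - log (1 / W) + 2 * (m + log 5 / 2))) =
        (exp (8 * m))⁻¹ * (exp (2 * log 2))⁻¹ * (exp (4 * log 5))⁻¹ * (exp (4 * log W))⁻¹ := by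
      rw [← exp_neg, ← exp_neg, ← exp_neg, ← exp_neg, ← exp_add, ← exp_add, ← exp_add]
      congr 1; rw [hlinv]; ring
    have e2 : exp (8 * m) = M ^ 8 := by rw [hM, ← exp_nat_mul]; norm_num
    have e3 : exp (2 * log 2) = 4 := by
      rw [show (2 : ℝ) * log 2 = log (2 ^ 2) by rw [log_pow]; norm_num, exp_log (by norm_num)]
      norm_num
    have e4 : exp (4 * log 5) = 625 := by
      rw [show (4 : ℝ) * log 5 = log (5 ^ 4) by rw [log_pow]; norm_num, exp_log (by norm_num)]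
      norm_num
    have e5 : exp (4 * log W) = W ^ 4 := by
      rw [show (4 : ℝ) * log W = log (W ^ 4) by rw [log_pow]; norm_num, exp_log (by positivity)]
    rw [e1, e2, e3, e4, e5]; field_simp; norm_num
  have hWM4 : 1 ≤ W ^ 2 * M ^ 4 := one_le_mul_of_one_le_of_one_le (one_le_pow₀ hW1) (one_le_pow₀ hM1)
  have hWM8 : 1 ≤ W ^ 4 * M ^ 8 := one_le_mul_of_one_le_of_one_le (one_le_pow₀ hW1) (one_le_pow₀ hM1)
  have hWM5 : 1 ≤ W ^ 2 * M ^ 5 := one_le_mul_of_one_le_of_one_le (one_le_pow₀ hW1) (one_le_pow₀ hM1)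
  have hWM9 : 1 ≤ W ^ 5 * M ^ 9 := one_le_mul_of_one_le_of_one_le (one_le_pow₀ hW1) (one_le_pow₀ hM1)
  have h := final_bound hP0 hQ0 hrel (1 / W) (by positivity) (m + log 5 / 2)
    (by rw [hlinv]; linarith) hnn (52 * (W ^ 2 * M ^ 5)) (15006 * (W ^ 5 * M ^ 9))
    (by
      refine (div_gain_le (E := 25 * W ^ 2 * M ^ 4) (by positivity) hexp1 (by linarith)).trans ?_
      have h1 : m + log 5 / 2 ≤ M := by linarith
      have h2 : 2 * (25 * W ^ 2 * M ^ 4 + 1) ≤ 52 * (W ^ 2 * M ^ 4) := by linarith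
      calc (m + log 5 / 2) * (2 * (25 * W ^ 2 * M ^ 4 + 1)) ≤ M * (52 * (W ^ 2 * M ^ 4)) := by gcongr
        _ = 52 * (W ^ 2 * M ^ 5) := by ring)
    (by
      refine (div_gain_le (E := 2500 * W ^ 4 * M ^ 8) (by positivity) hexp2
        (by rw [hlinv]; linarith)).trans ?_
      have h1 : log 2 / 2 - log (1 / W) + 2 * (m + log 5 / 2) ≤ 3 * (W * M) := by
        rw [hlinv]
        have : W + 2 * M - 1 ≤ 3 * (W * M) := by nlinarith
        linarith
      have h2 : 2 * (2500 * W ^ 4 * M ^ 8 + 1) ≤ 5002 * (W ^ 4 * M ^ 8) := by linarith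
      calc (log 2 / 2 - log (1 / W) + 2 * (m + log 5 / 2)) * (2 * (2500 * W ^ 4 * M ^ 8 + 1))
          ≤ 3 * (W * M) * (5002 * (W ^ 4 * M ^ 8)) := by gcongr
        _ = 15006 * (W ^ 5 * M ^ 9) := by ring)
  refine h.trans ?_
  calc (52 * (W ^ 2 * M ^ 5) + 1) * (1 + 15006 * (W ^ 5 * M ^ 9))
      ≤ (53 * (W ^ 2 * M ^ 5)) * (15007 * (W ^ 5 * M ^ 9)) := by
        gcongr <;> linarith
    _ = 795371 * (W ^ 7 * M ^ 14) := by ring
    _ ≤ 10 ^ 6 * W ^ 7 * M ^ 14 := by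
        have : 0 ≤ W ^ 7 * M ^ 14 := by positivity
        linarith

end Pool.Agent.Work.MP_417103_nt
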